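import Pool.Agent.Work.MP_7453a1_le.Interface

set_option autoImplicit false

namespace Pool.LE

open Finset Filter
open Pool.Agent.Work.MP_7453a1_nt_two (Admissible IsBest Lengths G g len err)

theorem p_ADM : Stmt_ADM := by
  intro a b Nm Nn Θ h x hx y
  by_contra hcon
  push Not at hcon
  obtain ⟨r, ⟨x', y', hb, rfl⟩, hr⟩ := h (len Nm x)
  have he : err Nn Θ x y = 0 := by
    have e : (fun i => (∑ j, Θ i j * x j) - y i : Fin b → ℝ) = 0 := by
      ext i
      rw [hcon i, sub_self]
      rfl
    unfold err
    rw [e, map_zero]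
  rcases hb.2 x y hr.le (by rw [he]; exact apply_nonneg Nn _) with h1 | h1 | h1
  · exact hx h1.1
  · rw [h1.1] at hr
    exact lt_irrefl _ hr
  · have e2 : len Nm x = len Nm x' := by
      unfold len
      rw [h1.1]
      have : (fun j => ((-x') j : ℝ)) = -(fun j => (x' j : ℝ)) := by
        ext j
        simp
      rw [this, map_neg_eq_map]
    rw [e2] at hr
    exact lt_irrefl _ hr

end Pool.LE
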