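import Pool.Agent.Work.MP_7453a1_le.Interface

set_option autoImplicit false

/-! # Block BRG -/

namespace Pool.LE

open Finset Filter
open Pool.LD (L pat Sg)
open Pool.Agent.Work.MP_7453a1_nt_two (Admissible IsBest Lengths G len err)

theorem BRG_err {n : ℕ} (Θ : Fin n → ℝ) (x : Fin n → ℤ) (y : Fin 1 → ℤ) :
    err (sn 1) (row Θ) x y = |er Θ (x, y 0)| := by
  change ‖fun i : Fin 1 => (∑ j, row Θ i j * (x j : ℝ)) - (y i : ℝ)‖ = _
  refine le_antisymm ?_ ?_
  · refine (pi_norm_le_iff_of_nonneg (abs_nonneg _)).2 fun i => ?_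
    have hi : i = 0 := Subsingleton.elim _ _
    subst hi
    exact le_of_eq (Real.norm_eq_abs _)
  · have h := norm_le_pi_norm (fun i : Fin 1 => (∑ j, row Θ i j * (x j : ℝ)) - (y i : ℝ)) 0
    rw [Real.norm_eq_abs] at h
    exact h

theorem p_BRG : Stmt_BRG := by
  intro n Θ z hz
  refine ⟨z.1, fun _ => z.2, ⟨hz.1, ?_⟩, rfl⟩
  intro x' y' h1 h2
  rw [BRG_err, BRG_err] at h2
  rcases hz.2 (x', y' 0) h1 h2 with h | h | h
  · left
    refine ⟨congrArg Prod.fst h, ?_⟩
    funext i
    have hi : i = 0 := Subsingleton.elim _ _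
    subst hi
    exact congrArg Prod.snd h
  · right; left
    refine ⟨congrArg Prod.fst h, ?_⟩
    funext i
    have hi : i = 0 := Subsingleton.elim _ _
    subst hi
    exact congrArg Prod.snd h
  · right; right
    refine ⟨congrArg Prod.fst h, ?_⟩
    funext i
    have hi : i = 0 := Subsingleton.elim _ _
    subst hi
    exact congrArg Prod.snd h

end Pool.LE
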