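import Pool.Agent.Work.MP_7453a1_le.Interface
import Pool.Agent.Work.MP_7453a1_ld.B_PAT
import Pool.Agent.Work.MP_7453a1_ld.B_LNM

set_option autoImplicit false

/-! # Block CEC (helper73): classification of the competitors. -/

namespace Pool.LE

open Finset Filter
open Pool.LD (L pat Sg)

theorem CEC_add {n : ℕ} (Θ : Fin n → ℝ) (w w' : Pt n) : er Θ (w + w') = er Θ w + er Θ w' := by
  unfold er
  simp only [Prod.fst_add, Prod.snd_add, Pi.add_apply, Int.cast_add, mul_add,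
    Finset.sum_add_distrib]
  ring

theorem CEC_smul {n : ℕ} (Θ : Fin n → ℝ) (a : ℤ) (w : Pt n) :
    er Θ (a • w) = (a : ℝ) * er Θ w := by
  unfold er
  simp only [Prod.smul_fst, Prod.smul_snd, Pi.smul_apply, smul_eq_mul, Int.cast_mul]
  rw [mul_sub, Finset.mul_sum]
  congr 1
  exact Finset.sum_congr rfl fun j _ => by ring

theorem CEC_sum {n : ℕ} {ι : Type} (Θ : Fin n → ℝ) (s : Finset ι) (g : ι → Pt n) :
    er Θ (∑ k ∈ s, g k) = ∑ k ∈ s, er Θ (g k) := by
  classical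
  induction s using Finset.induction_on with
  | empty => simp [er]
  | insert a s ha ih => rw [Finset.sum_insert ha, Finset.sum_insert ha, CEC_add, ih]

theorem CEC_hsum {m : ℕ} {ε τ : ℝ} (A : Fin (m + 1) → Fin (m + 1) → ℝ) (hε : 0 < ε)
    (hτ : 0 ≤ τ) (hA : ∀ k l, |A k l - ε * pat m k l| ≤ τ * ε) (s : Finset (Fin (m + 1)))
    (l : Fin (m + 1)) :
    ∑ k ∈ s, |A k l| ≤ ε * ∑ k ∈ s, |pat m k l| + ((m : ℝ) + 1) * τ * ε := by
  have h1 : ∀ k ∈ s, |A k l| ≤ ε * |pat m k l| + τ * ε := by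
    intro k _
    have h2 := hA k l
    have h3 : |A k l| ≤ |A k l - ε * pat m k l| + |ε * pat m k l| := by
      have := abs_add_le (A k l - ε * pat m k l) (ε * pat m k l)
      simpa using this
    rw [abs_mul, abs_of_pos hε] at h3
    linarith
  refine (Finset.sum_le_sum h1).trans ?_
  rw [Finset.sum_add_distrib, ← Finset.mul_sum, Finset.sum_const, nsmul_eq_mul]
  have h4 : (s.card : ℝ) ≤ (m : ℝ) + 1 := by
    have h5 := Finset.card_le_univ s
    rw [Fintype.card_fin] at h5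
    exact_mod_cast h5
  have h6 : 0 ≤ τ * ε := mul_nonneg hτ hε.le
  nlinarith

theorem p_CEC : Stmt_CEC := by
  intro m F X s Θ hC z hz1 hz2
  obtain ⟨P1, P2, P3, P4, P5, P6, P7⟩ := Pool.LD.p_PAT m
  obtain ⟨L1, L2, -⟩ := Pool.LD.p_LNM (m + 1) (by omega)
  push_cast at L1
  obtain ⟨a, b, hab, hz⟩ := hC.good.2 z
  have hX := hC.Xpos
  have hs := hC.spos
  have hL : 0 < L (m + 1) := by linarith
  have hN1 : (1 : ℝ) ≤ (m : ℝ) + 1 := by
    have : (0 : ℝ) ≤ m := Nat.cast_nonneg m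
    linarith
  -- the largest coefficient
  obtain ⟨k₀, -, hk₀⟩ := Finset.exists_max_image (univ : Finset (Fin (m + 1)))
    (fun k => |(a k : ℝ)|) ⟨Fin.last m, Finset.mem_univ _⟩
  have hk₀' : ∀ k, |(a k : ℝ)| ≤ |(a k₀ : ℝ)| := fun k => hk₀ k (Finset.mem_univ k)
  have ha0 : 0 ≤ |(a k₀ : ℝ)| := abs_nonneg _
  have hb0 : 0 ≤ |(b : ℝ)| := abs_nonneg _
  -- the error
  have herr : 2 * er Θ z = ∑ k, (a k : ℝ) * er Θ (F.v k) + (b : ℝ) * er Θ F.f := by
    have h1 := congrArg (er Θ) hz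
    rw [CEC_add, CEC_add, CEC_sum, CEC_smul] at h1
    simp only [CEC_smul] at h1
    linarith
  have hesum : |∑ k, (a k : ℝ) * er Θ (F.v k)| ≤ |(a k₀ : ℝ)| * (s / 1000) := by
    calc |∑ k, (a k : ℝ) * er Θ (F.v k)| ≤ ∑ k, |(a k : ℝ) * er Θ (F.v k)| :=
          Finset.abs_sum_le_sum_abs _ _
      _ ≤ ∑ k, |(a k₀ : ℝ)| * |er Θ (F.v k)| := by
          refine Finset.sum_le_sum fun k _ => ?_
          rw [abs_mul]
          exact mul_le_mul_of_nonneg_right (hk₀' k) (abs_nonneg _)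
      _ = |(a k₀ : ℝ)| * ∑ k, |er Θ (F.v k)| := by rw [Finset.mul_sum]
      _ ≤ |(a k₀ : ℝ)| * (s / 1000) := mul_le_mul_of_nonneg_left hC.bsum ha0
  have hef : 999 / 1000 * s ≤ |er Θ F.f| := by
    have h1 := abs_le.1 hC.ef
    refine le_trans ?_ (le_abs_self _)
    linarith [h1.1]
  have hE : |(b : ℝ)| * (999 / 1000 * s) ≤ 101 / 100 * s + |(a k₀ : ℝ)| * (s / 1000) := by
    have h1 : |(b : ℝ)| * |er Θ F.f| ≤ 101 / 100 * s + |(a k₀ : ℝ)| * (s / 1000) := by
      rw [← abs_mul]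
      have h2 : (b : ℝ) * er Θ F.f = 2 * er Θ z - ∑ k, (a k : ℝ) * er Θ (F.v k) := by
        linarith
      rw [h2]
      refine (abs_sub _ _).trans ?_
      rw [abs_mul, abs_two]
      linarith
    exact (mul_le_mul_of_nonneg_left hef hb0).trans h1
  -- the coordinate `k₀`
  have hcoord : ∀ l, 2 * (z.1 l : ℝ) = ∑ k, (a k : ℝ) * F.A k l + (b : ℝ) * F.a l := by
    intro l
    have h2 := congrFun (congrArg Prod.fst hz) l
    simp only [Prod.fst_add, Prod.smul_fst, Prod.fst_sum, Pi.add_apply, Finset.sum_apply,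
      Pi.smul_apply, smul_eq_mul] at h2
    have h3 : ((z.1 l : ℝ) + z.1 l) = ∑ k, (a k : ℝ) * (F.v k).1 l + b * F.f.1 l := by
      exact_mod_cast h2
    unfold Fr.A Fr.a
    linarith
  set τ : ℝ := 4 * (m + 1) / L (m + 1) with hτ
  have hτ0 : 0 ≤ τ := by rw [hτ]; positivity
  have hNτ : ((m : ℝ) + 1) * τ ≤ 1 / 10000 := by
    rw [hτ, ← mul_div_assoc, div_le_iff₀ hL]
    nlinarith
  have hττ : τ ≤ 1 / 10000 := by nlinarith
  have hcl : ∀ k l, |F.A k l - X * pat m k l| ≤ τ * X := fun k l => hC.cl k l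
  have hoff : ∑ k ∈ univ.erase k₀, |F.A k k₀| ≤ X * (1 / 20) + 1 / 10000 * X := by
    refine (CEC_hsum F.A hX hτ0 hcl (univ.erase k₀) k₀).trans ?_
    have h1 := mul_le_mul_of_nonneg_left (P4 k₀) hX.le
    have h2 := mul_le_mul_of_nonneg_right hNτ hX.le
    linarith
  have hdiag : X - 1 / 10000 * X ≤ |F.A k₀ k₀| := by
    refine le_trans ?_ (le_abs_self _)
    have h1 := abs_le.1 (hcl k₀ k₀)
    have h2 := mul_le_mul_of_nonneg_left (P1 k₀).1 hX.le
    have h3 := mul_le_mul_of_nonneg_right hττ hX.le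
    linarith [h1.1]
  have hfs : |F.a k₀| ≤ 1 / 1000 * X := by
    refine (hC.fs k₀).trans ?_
    rw [div_le_iff₀ hL]
    nlinarith
  have hA : |(a k₀ : ℝ)| * (X - 1 / 10000 * X) ≤ 8 / 5 * X +
      |(a k₀ : ℝ)| * (X * (1 / 20) + 1 / 10000 * X) + |(b : ℝ)| * (1 / 1000 * X) := by
    have h1 : (a k₀ : ℝ) * F.A k₀ k₀ = 2 * (z.1 k₀ : ℝ) -
        ∑ k ∈ univ.erase k₀, (a k : ℝ) * F.A k k₀ - (b : ℝ) * F.a k₀ := by
      rw [hcoord k₀, ← Finset.add_sum_erase univ (fun k => (a k : ℝ) * F.A k k₀)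
        (Finset.mem_univ k₀)]
      ring
    have h2 : |∑ k ∈ univ.erase k₀, (a k : ℝ) * F.A k k₀| ≤
        |(a k₀ : ℝ)| * ∑ k ∈ univ.erase k₀, |F.A k k₀| := by
      refine (Finset.abs_sum_le_sum_abs _ _).trans ?_
      rw [Finset.mul_sum]
      refine Finset.sum_le_sum fun k _ => ?_
      rw [abs_mul]
      exact mul_le_mul_of_nonneg_right (hk₀' k) (abs_nonneg _)
    have h3 : |(b : ℝ) * F.a k₀| ≤ |(b : ℝ)| * (1 / 1000 * X) := by
      rw [abs_mul]
      exact mul_le_mul_of_nonneg_left hfs hb0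
    have h4 : |(a k₀ : ℝ)| * |F.A k₀ k₀| ≤ 8 / 5 * X +
        |(a k₀ : ℝ)| * ∑ k ∈ univ.erase k₀, |F.A k k₀| + |(b : ℝ)| * (1 / 1000 * X) := by
      rw [← abs_mul, h1]
      refine (abs_sub _ _).trans ?_
      have h5 : |2 * (z.1 k₀ : ℝ) - ∑ k ∈ univ.erase k₀, (a k : ℝ) * F.A k k₀| ≤
          8 / 5 * X + |(a k₀ : ℝ)| * ∑ k ∈ univ.erase k₀, |F.A k k₀| := by
        refine (abs_sub _ _).trans ?_
        have h6 : |2 * (z.1 k₀ : ℝ)| ≤ 8 / 5 * X := by
          rw [abs_mul, abs_two]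
          exact hz1 k₀
        linarith
      linarith
    have h5 := mul_le_mul_of_nonneg_left hdiag ha0
    have h6 := mul_le_mul_of_nonneg_left hoff ha0
    linarith
  have hE' : 999 / 1000 * |(b : ℝ)| ≤ 101 / 100 + |(a k₀ : ℝ)| / 1000 := by
    have h1 : (999 / 1000 * |(b : ℝ)|) * s ≤ (101 / 100 + |(a k₀ : ℝ)| / 1000) * s := by
      linarith
    exact le_of_mul_le_mul_right h1 hs
  have hA' : |(a k₀ : ℝ)| * (1 - 1 / 20 - 2 / 10000) ≤ 8 / 5 + |(b : ℝ)| / 1000 := by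
    have h1 : (|(a k₀ : ℝ)| * (1 - 1 / 20 - 2 / 10000)) * X ≤ (8 / 5 + |(b : ℝ)| / 1000) * X := by
      linarith
    exact le_of_mul_le_mul_right h1 hX
  have ha2 : |(a k₀ : ℝ)| < 2 := by linarith
  have hb2 : |(b : ℝ)| < 2 := by linarith
  have hb' : b = -1 ∨ b = 0 ∨ b = 1 := by
    have h8 : |b| < 2 := by
      have : ((|b| : ℤ) : ℝ) < 2 := by rw [Int.cast_abs]; exact hb2
      exact_mod_cast this
    rw [abs_lt] at h8
    omega
  have ha' : ∀ k, a k = -1 ∨ a k = 0 ∨ a k = 1 := by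
    intro k
    have h8 : |a k| < 2 := by
      have : ((|a k| : ℤ) : ℝ) < 2 := by rw [Int.cast_abs]; exact (hk₀' k).trans_lt ha2
      exact_mod_cast this
    rw [abs_lt] at h8
    omega
  rcases hb' with rfl | rfl | rfl
  · right
    refine ⟨a, ?_, Or.inl ?_⟩
    · intro k
      have := hab k
      rcases ha' k with h | h | h <;> omega
    · rw [hz, neg_smul, one_smul, sub_eq_add_neg]
  · left
    have ha00 : ∀ k, a k = 0 := by
      intro k
      have := hab k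
      rcases ha' k with h | h | h <;> omega
    simp only [ha00, zero_smul, Finset.sum_const_zero, add_zero] at hz
    refine Prod.ext (funext fun l => ?_) ?_
    · have h11 := congrFun (congrArg Prod.fst hz) l
      simp only [Prod.fst_add, Prod.fst_zero, Pi.add_apply, Pi.zero_apply] at h11
      simp only [Prod.fst_zero, Pi.zero_apply]
      omega
    · have h11 := congrArg Prod.snd hz
      simp only [Prod.snd_add, Prod.snd_zero] at h11
      simp only [Prod.snd_zero]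
      omega
  · right
    refine ⟨fun k => - a k, ?_, Or.inr ?_⟩
    · intro k
      have := hab k
      show -a k = 1 ∨ -a k = -1
      rcases ha' k with h | h | h <;> omega
    · have h10 : -z + -z = -(z + z) := by abel
      rw [h10, hz]
      simp only [neg_smul, one_smul, Finset.sum_neg_distrib]
      abel

end Pool.LE
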