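import Pool.Agent.Work.MP_7453a1_le.Interface
import Pool.Agent.Work.MP_7453a1_ld.B_PAT
import Pool.Agent.Work.MP_7453a1_ld.B_LNM
import Pool.Agent.Work.MP_7453a1_ld.B_ORD

set_option autoImplicit false

/-! # Block CLU -/

namespace Pool.LE

open Finset Filter
open Pool.LD (L pat Sg)

/-- The integral point. -/
theorem CLU_exz {m : ℕ} {F : Fr (m + 1)} (hG : F.Good) {σ : Fin (m + 1) → ℤ} (hσ : Sg σ) :
    ∃ z : Pt (m + 1), z + z = ∑ k, σ k • F.v k - F.f := by
  obtain ⟨⟨h, hh⟩, -⟩ := hG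
  refine ⟨h + ∑ k, ((σ k - 1) / 2) • F.v k - F.f, ?_⟩
  have e : (∑ k, ((σ k - 1) / 2) • F.v k) + ∑ k, ((σ k - 1) / 2) • F.v k =
      ∑ k, (σ k - 1) • F.v k := by
    rw [← Finset.sum_add_distrib]
    refine Finset.sum_congr rfl fun k _ => ?_
    rw [← add_smul]
    congr 1
    rcases hσ k with h | h <;> rw [h] <;> norm_num
  have e2 : ∑ k, (σ k - 1) • F.v k = ∑ k, σ k • F.v k - ∑ k, F.v k := by
    rw [← Finset.sum_sub_distrib]
    refine Finset.sum_congr rfl fun k _ => ?_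
    rw [sub_smul, one_smul]
  calc h + ∑ k, ((σ k - 1) / 2) • F.v k - F.f + (h + ∑ k, ((σ k - 1) / 2) • F.v k - F.f)
      = (h + h) + ((∑ k, ((σ k - 1) / 2) • F.v k) + ∑ k, ((σ k - 1) / 2) • F.v k) -
        F.f - F.f := by abel
    _ = ∑ k, σ k • F.v k - F.f := by rw [hh, e, e2]; abel

theorem CLU_fst {m : ℕ} {F : Fr (m + 1)} {σ : Fin (m + 1) → ℤ} {z : Pt (m + 1)}
    (h : z + z = ∑ k, σ k • F.v k - F.f) (l : Fin (m + 1)) :
    2 * (z.1 l : ℝ) = ∑ k, (σ k : ℝ) * F.A k l - F.a l := by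
  have h1 := congrFun (congrArg Prod.fst h) l
  have h2 : z.1 l + z.1 l = ∑ k, σ k * (F.v k).1 l - F.f.1 l := by
    rw [Prod.fst_add, Prod.fst_sub, Prod.fst_sum, Pi.add_apply, Pi.sub_apply,
      Finset.sum_apply] at h1
    simpa using h1
  have h3 : ((z.1 l + z.1 l : ℤ) : ℝ) = ((∑ k, σ k * (F.v k).1 l - F.f.1 l : ℤ) : ℝ) := by rw [h2]
  push_cast at h3
  unfold Fr.A Fr.a
  linarith

theorem CLU_er {m : ℕ} {F : Fr (m + 1)} {σ : Fin (m + 1) → ℤ} {z : Pt (m + 1)}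
    (Θ : Fin (m + 1) → ℝ) (h : z + z = ∑ k, σ k • F.v k - F.f) :
    2 * er Θ z = ∑ k, (σ k : ℝ) * er Θ (F.v k) - er Θ F.f := by
  have g1 := congrArg Prod.snd h
  have g2 : z.2 + z.2 = ∑ k, σ k * (F.v k).2 - F.f.2 := by
    rw [Prod.snd_add, Prod.snd_sub, Prod.snd_sum] at g1
    simpa using g1
  have g3 : ((z.2 + z.2 : ℤ) : ℝ) = ((∑ k, σ k * (F.v k).2 - F.f.2 : ℤ) : ℝ) := by
    rw [g2]
  push_cast at g3
  have e1 : ∑ k, (σ k : ℝ) * er Θ (F.v k) =
      ∑ j, Θ j * (∑ k, (σ k : ℝ) * F.A k j) - ∑ k, (σ k : ℝ) * ((F.v k).2 : ℝ) := by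
    have e2 : ∑ j, Θ j * (∑ k, (σ k : ℝ) * F.A k j) =
        ∑ k, (σ k : ℝ) * ∑ j, Θ j * ((F.v k).1 j : ℝ) := by
      simp only [Finset.mul_sum]
      rw [Finset.sum_comm]
      refine Finset.sum_congr rfl fun k _ => Finset.sum_congr rfl fun j _ => ?_
      unfold Fr.A
      ring
    rw [e2, ← Finset.sum_sub_distrib]
    refine Finset.sum_congr rfl fun k _ => ?_
    unfold er
    ring
  have e3 : ∑ j, Θ j * (2 * (z.1 j : ℝ)) =
      ∑ j, Θ j * (∑ k, (σ k : ℝ) * F.A k j) - ∑ j, Θ j * (F.f.1 j : ℝ) := by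
    rw [← Finset.sum_sub_distrib]
    refine Finset.sum_congr rfl fun j _ => ?_
    rw [CLU_fst h j]
    unfold Fr.a
    ring
  have e4 : 2 * ∑ j, Θ j * (z.1 j : ℝ) = ∑ j, Θ j * (2 * (z.1 j : ℝ)) := by
    rw [Finset.mul_sum]
    refine Finset.sum_congr rfl fun j _ => ?_
    ring
  rw [e1]
  unfold er
  rw [mul_sub, e4, e3]
  linarith

theorem CLU_half {m : ℕ} {a b : Pt (m + 1)} (h : a + a = b + b) : a = b := by
  have h1 := congrArg Prod.snd h
  rw [Prod.snd_add, Prod.snd_add] at h1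
  refine Prod.ext ?_ (by omega)
  funext l
  have h2 := congrFun (congrArg Prod.fst h) l
  rw [Prod.fst_add, Prod.fst_add, Pi.add_apply, Pi.add_apply] at h2
  omega

theorem CLU_Sgabs {n : ℕ} {σ : Fin n → ℤ} (hσ : Sg σ) (k : Fin n) : |(σ k : ℝ)| = 1 := by
  rcases hσ k with h | h <;> rw [h] <;> norm_num

/-- numerical facts -/
theorem CLU_num (m : ℕ) : (0 : ℝ) < L (m + 1) ∧
    ((m : ℝ) + 1) * (4 * (m + 1) / L (m + 1)) ≤ 1 / 10000 ∧ 2 / L (m + 1) ≤ 1 / 5000 ∧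
    ((m : ℝ) + 2) * (4 * (m + 1) / L (m + 1)) < 3 / (10 * 3 ^ (m + 1)) := by
  obtain ⟨h1, h2, h3⟩ := Pool.LD.p_LNM (m + 1) (by omega)
  push_cast at h1 h2 h3
  have hL0 : 0 < L (m + 1) := by linarith
  have hm : (0 : ℝ) ≤ m := Nat.cast_nonneg m
  refine ⟨hL0, ?_, ?_, ?_⟩
  · rw [mul_div_assoc', div_le_iff₀ hL0]
    nlinarith
  · rw [div_le_iff₀ hL0]
    linarith
  · have h3p : (0 : ℝ) < 3 ^ (m + 1) := by positivity
    rw [mul_div_assoc', div_lt_div_iff₀ hL0 (by positivity)]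
    have h4 : ((m : ℝ) + 2) * (4 * (m + 1)) ≤ 8 * ((m : ℝ) + 1) ^ 2 := by nlinarith
    have h5 : ((m : ℝ) + 2) * (4 * (m + 1)) * (10 * 3 ^ (m + 1)) ≤
        8 * ((m : ℝ) + 1) ^ 2 * (10 * 3 ^ (m + 1)) :=
      mul_le_mul_of_nonneg_right h4 (by positivity)
    have h6 : (0 : ℝ) < ((m : ℝ) + 1) ^ 2 * 3 ^ (m + 1) := by positivity
    nlinarith

/-- the size of a coordinate of `∑ σ v - f` against the pattern -/
theorem CLU_coord {m : ℕ} {F : Fr (m + 1)} {X s : ℝ} {Θ : Fin (m + 1) → ℝ} (hC : Clu m F X s Θ)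
    {σ : Fin (m + 1) → ℤ} (hσ : Sg σ) (l : Fin (m + 1)) :
    |(∑ k, (σ k : ℝ) * F.A k l - F.a l) - X * ∑ k, (σ k : ℝ) * pat m k l| ≤ X / 1000 := by
  obtain ⟨hL0, n1, n2, -⟩ := CLU_num m
  have hX := hC.Xpos
  have e1 : (∑ k, (σ k : ℝ) * F.A k l - F.a l) - X * ∑ k, (σ k : ℝ) * pat m k l =
      ∑ k, (σ k : ℝ) * (F.A k l - X * pat m k l) - F.a l := by
    rw [Finset.mul_sum]
    have : ∑ k, (σ k : ℝ) * (F.A k l - X * pat m k l) =
        ∑ k, (σ k : ℝ) * F.A k l - ∑ k, X * ((σ k : ℝ) * pat m k l) := by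
      rw [← Finset.sum_sub_distrib]
      refine Finset.sum_congr rfl fun k _ => ?_
      ring
    rw [this]
    ring
  rw [e1]
  have e2 : |∑ k, (σ k : ℝ) * (F.A k l - X * pat m k l)| ≤ X / 10000 := by
    refine (Finset.abs_sum_le_sum_abs _ _).trans ?_
    have h1 : ∀ k ∈ (univ : Finset (Fin (m + 1))), |(σ k : ℝ) * (F.A k l - X * pat m k l)| ≤
        4 * (m + 1) / L (m + 1) * X := by
      intro k _
      rw [abs_mul, CLU_Sgabs hσ, one_mul]
      exact hC.cl k l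
    refine (Finset.sum_le_sum h1).trans ?_
    rw [Finset.sum_const, card_univ, Fintype.card_fin, nsmul_eq_mul]
    push_cast
    have h2 : ((m : ℝ) + 1) * (4 * (m + 1) / L (m + 1) * X) =
        ((m : ℝ) + 1) * (4 * (m + 1) / L (m + 1)) * X := by ring
    rw [h2]
    have h3 := mul_le_mul_of_nonneg_right n1 hX.le
    linarith
  have e3 : |F.a l| ≤ X / 5000 := by
    refine (hC.fs l).trans ?_
    have h2 : 2 * X / L (m + 1) = 2 / L (m + 1) * X := by ring
    rw [h2]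
    have h3 := mul_le_mul_of_nonneg_right n2 hX.le
    linarith
  have e4 := abs_sub (∑ k, (σ k : ℝ) * (F.A k l - X * pat m k l)) (F.a l)
  linarith

/-- the pattern sums -/
theorem CLU_patlast {m : ℕ} {σ : Fin (m + 1) → ℤ} (hσ : Sg σ) (hl : σ (Fin.last m) = 1) :
    |∑ k, (σ k : ℝ) * pat m k (Fin.last m) - 7 / 5| ≤ 1 / 20 := by
  obtain ⟨-, -, -, p4, -, p6, -⟩ := Pool.LD.p_PAT m
  rw [← Finset.add_sum_erase univ _ (mem_univ (Fin.last m)), hl, p6]
  have h1 : ((1 : ℤ) : ℝ) * (7 / 5) + ∑ k ∈ univ.erase (Fin.last m),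
      (σ k : ℝ) * pat m k (Fin.last m) - 7 / 5 =
      ∑ k ∈ univ.erase (Fin.last m), (σ k : ℝ) * pat m k (Fin.last m) := by
    push_cast
    ring
  rw [h1]
  refine (Finset.abs_sum_le_sum_abs _ _).trans (le_trans (le_of_eq ?_) (p4 (Fin.last m)))
  refine Finset.sum_congr rfl fun k _ => ?_
  rw [abs_mul, CLU_Sgabs hσ, one_mul]

theorem CLU_patother {m : ℕ} {σ : Fin (m + 1) → ℤ} (hσ : Sg σ) {l : Fin (m + 1)}
    (hl : l ≠ Fin.last m) : |∑ k, (σ k : ℝ) * pat m k l| ≤ 1 := by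
  obtain ⟨-, -, p3, -, p5, -, -⟩ := Pool.LD.p_PAT m
  rw [Finset.sum_eq_single l]
  · rw [p5 l hl, mul_one, CLU_Sgabs hσ]
  · intro k _ hk
    rw [p3 k l hk hl, mul_zero]
  · intro h
    exact absurd (mem_univ l) h

theorem CLU_sup {m : ℕ} {F : Fr (m + 1)} {X s : ℝ} {Θ : Fin (m + 1) → ℝ} (hC : Clu m F X s Θ)
    {k : Fin (m + 1)} (hk : k ≠ Fin.last m) :
    ∑ l ∈ univ.filter (· < k), |F.A l (Fin.last m)| < F.A k (Fin.last m) := by
  obtain ⟨hL0, -, -, n3⟩ := CLU_num m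
  obtain ⟨-, p2, -, -, -, -, p7⟩ := Pool.LD.p_PAT m
  have hX := hC.Xpos
  have hp := p7 k hk
  set t : ℝ := 4 * (m + 1) / L (m + 1) with ht
  have ht0 : 0 ≤ t := by positivity
  have h1 : ∀ l ∈ univ.filter (· < k), |F.A l (Fin.last m)| ≤
      X * pat m l (Fin.last m) + t * X := by
    intro l hl
    have hlk : l < k := (mem_filter.1 hl).2
    have hll : l ≠ Fin.last m := by
      rintro rfl
      exact absurd hlk (not_lt.2 (Fin.le_last k))
    have h2 := abs_le.1 (hC.cl l (Fin.last m))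
    have h3 := (p2 l (Fin.last m) hll).1
    have h4 : 0 ≤ X * pat m l (Fin.last m) := mul_nonneg hX.le h3
    have h5 : 0 ≤ t * X := mul_nonneg ht0 hX.le
    rw [abs_le]
    constructor <;> [linarith [h2.1]; linarith [h2.2]]
  have h2 := Finset.sum_le_sum h1
  rw [Finset.sum_add_distrib, ← Finset.mul_sum, Finset.sum_const, nsmul_eq_mul] at h2
  have h3 : (((univ.filter (· < k)).card : ℕ) : ℝ) ≤ (m : ℝ) + 1 := by
    have := Finset.card_le_univ (univ.filter (· < k))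
    rw [Fintype.card_fin] at this
    exact_mod_cast this
  have h4 := (abs_le.1 (hC.cl k (Fin.last m))).1
  have h5 : (((univ.filter (· < k)).card : ℕ) : ℝ) * (t * X) ≤ ((m : ℝ) + 1) * (t * X) :=
    mul_le_mul_of_nonneg_right h3 (mul_nonneg ht0 hX.le)
  have h6 : ((m : ℝ) + 2) * t * X < 3 / (10 * 3 ^ (m + 1)) * X :=
    mul_lt_mul_of_pos_right n3 hX
  have h7 := mul_le_mul_of_nonneg_left hp hX.le
  have h8 : X * (∑ l ∈ univ.filter (· < k), pat m l (Fin.last m) + 3 / (10 * 3 ^ (m + 1))) =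
      X * ∑ l ∈ univ.filter (· < k), pat m l (Fin.last m) + 3 / (10 * 3 ^ (m + 1)) * X := by
    ring
  rw [h8] at h7
  have h9 : -(4 * ((m : ℝ) + 1) / L (m + 1) * X) ≤ F.A k (Fin.last m) - X * pat m k (Fin.last m) :=
    h4
  rw [← ht] at h9
  nlinarith

theorem p_CLU (hCEC : Stmt_CEC) : Stmt_CLU := by
  intro m F X s Θ hC σ hσ hσl
  obtain ⟨z, hz⟩ := CLU_exz hC.good hσ
  have hX := hC.Xpos
  have hs := hC.spos
  have hzf := CLU_fst hz
  have hlast : 13 / 10 * X ≤ 2 * (z.1 (Fin.last m) : ℝ) ∧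
      2 * (z.1 (Fin.last m) : ℝ) ≤ 3 / 2 * X := by
    rw [hzf]
    have h1 := abs_le.1 (CLU_coord hC hσ (Fin.last m))
    have h2 := abs_le.1 (CLU_patlast hσ hσl)
    have h3 := mul_le_mul_of_nonneg_left h2.1 hX.le
    have h4 := mul_le_mul_of_nonneg_left h2.2 hX.le
    rw [mul_sub] at h3 h4
    constructor <;> linarith [h1.1, h1.2]
  have hother : ∀ l, l ≠ Fin.last m → |2 * (z.1 l : ℝ)| ≤ 101 / 100 * X := by
    intro l hl
    rw [hzf]
    have h1 := abs_le.1 (CLU_coord hC hσ l)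
    have h2 := abs_le.1 (CLU_patother hσ hl)
    have h3 := mul_le_mul_of_nonneg_left h2.1 hX.le
    have h4 := mul_le_mul_of_nonneg_left h2.2 hX.le
    rw [abs_le]
    constructor <;> linarith [h1.1, h1.2]
  have hpos : 0 < (z.1 (Fin.last m) : ℝ) := by linarith [hlast.1]
  have hnorm : ‖xv z‖ = (z.1 (Fin.last m) : ℝ) := by
    refine le_antisymm ?_ ?_
    · refine (pi_norm_le_iff_of_nonneg hpos.le).2 fun l => ?_
      rw [Real.norm_eq_abs]
      by_cases hl : l = Fin.last m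
      · rw [hl]
        exact le_of_eq (abs_of_pos hpos)
      · have h1 := hother l hl
        rw [abs_mul, abs_of_pos (by norm_num : (0 : ℝ) < 2)] at h1
        have h2 : |xv z l| = |(z.1 l : ℝ)| := rfl
        rw [h2]
        linarith [hlast.1]
    · have h1 := norm_le_pi_norm (xv z) (Fin.last m)
      rw [Real.norm_eq_abs] at h1
      exact (le_abs_self _).trans h1
  have hcoord : ∀ (w : Pt (m + 1)) (l : Fin (m + 1)), |(w.1 l : ℝ)| ≤ ‖xv w‖ := by
    intro w l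
    have h1 := norm_le_pi_norm (xv w) l
    rw [Real.norm_eq_abs] at h1
    exact h1
  -- errors
  have hbs : ∀ τ : Fin (m + 1) → ℤ, Sg τ → |∑ k, (τ k : ℝ) * er Θ (F.v k)| ≤ s / 1000 := by
    intro τ hτ
    refine (Finset.abs_sum_le_sum_abs _ _).trans (le_trans (le_of_eq ?_) hC.bsum)
    refine Finset.sum_congr rfl fun k _ => ?_
    rw [abs_mul, CLU_Sgabs hτ, one_mul]
  have hef := abs_le.1 hC.ef
  have herr : ∀ (w : Pt (m + 1)) (τ : Fin (m + 1) → ℤ), Sg τ →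
      w + w = ∑ k, τ k • F.v k - F.f →
      2 * |er Θ w| = er Θ F.f - ∑ k, (τ k : ℝ) * er Θ (F.v k) := by
    intro w τ hτ hw
    have h1 := CLU_er Θ hw
    have h2 := abs_le.1 (hbs τ hτ)
    have h3 : 2 * |er Θ w| = |2 * er Θ w| := by
      rw [abs_mul, abs_of_pos (by norm_num : (0 : ℝ) < 2)]
    rw [h3, h1, abs_of_nonpos (by linarith [h2.2, hef.1])]
    ring
  have hkey : ∀ w : Pt (m + 1), ∀ σ' : Fin (m + 1) → ℤ, Sg σ' →
      w + w = ∑ k, σ' k • F.v k - F.f → ‖xv w‖ ≤ ‖xv z‖ →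
      |er Θ w| ≤ |er Θ z| → w = z := by
    intro w σ' hσ' hw hw1 hw2
    by_cases hss : σ = σ'
    · subst hss
      exact CLU_half (hw.trans hz.symm)
    · exfalso
      obtain ⟨k, hk1, hk2⟩ := Pool.LD.p_ORD.1 (m + 1) σ σ' hss
      rcases hσ' k with hk | hk
      · have hk' : σ k = -1 := by
          rcases hσ k with h | h
          · exact absurd (h.trans hk.symm) hk1
          · exact h
        have hkl : k ≠ Fin.last m := by
          rintro rfl
          rw [hσl] at hk'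
          norm_num at hk'
        have hlt := Pool.LD.p_ORD.2 (m + 1) (fun l => F.A l (Fin.last m)) σ σ' k hσ hσ'
          (CLU_sup hC hkl) hk2 hk' hk
        have h1 := CLU_fst hw (Fin.last m)
        have h2 := hzf (Fin.last m)
        have h3 : (z.1 (Fin.last m) : ℝ) < w.1 (Fin.last m) := by linarith
        have h4 := (le_abs_self _).trans (hcoord w (Fin.last m))
        linarith
      · have hk' : σ k = 1 := by
          rcases hσ k with h | h
          · exact h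
          · exact absurd (h.trans hk.symm) hk1
        have hlt := Pool.LD.p_ORD.2 (m + 1) (fun l => er Θ (F.v l)) σ' σ k hσ' hσ
          (hC.bsup k) (fun l hl => (hk2 l hl).symm) hk hk'
        have h1 := herr w σ' hσ' hw
        have h2 := herr z σ hσ hz
        linarith
  refine ⟨z, hz, ⟨?_, ?_⟩, ?_, ?_, ?_⟩
  · intro h0
    rw [h0] at hpos
    simp at hpos
  · intro w hw1 hw2
    have hc1 : ∀ l, 2 * |(w.1 l : ℝ)| ≤ 8 / 5 * X := by
      intro l
      have := hcoord w l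
      linarith [hlast.2]
    have hc2 : 2 * |er Θ w| ≤ 101 / 100 * s := by
      have h2 := herr z σ hσ hz
      have h3 := abs_le.1 (hbs σ hσ)
      linarith [hef.2, h3.1]
    rcases hCEC m F X s Θ hC w hc1 hc2 with h | ⟨σ', hσ', h | h⟩
    · left; exact h
    · right; left
      exact hkey w σ' hσ' h hw1 hw2
    · right; right
      have hn : xv (-w) = -xv w := by
        funext l
        unfold xv
        rw [Pi.neg_apply, Prod.fst_neg, Pi.neg_apply]
        push_cast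
        ring
      have he : er Θ (-w) = -er Θ w := by
        unfold er
        rw [Prod.snd_neg, Prod.fst_neg]
        have : ∑ j, Θ j * (((-w.1) j : ℤ) : ℝ) = -∑ j, Θ j * ((w.1 j : ℤ) : ℝ) := by
          rw [← Finset.sum_neg_distrib]
          refine Finset.sum_congr rfl fun j _ => ?_
          rw [Pi.neg_apply]
          push_cast
          ring
        rw [this]
        push_cast
        ring
      have h1 := hkey (-w) σ' hσ' h (by rw [hn, norm_neg]; exact hw1)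
        (by rw [he, abs_neg]; exact hw2)
      rw [← h1, neg_neg]
  · rw [hnorm]
    linarith [hlast.1]
  · rw [hnorm]
    linarith [hlast.2]
  · rw [hnorm]
    exact hzf (Fin.last m)

end Pool.LE
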