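import Pool.Agent.Work.MP_7453a1_le.B_CLU

set_option autoImplicit false

/-! # Block CNT -/

namespace Pool.LE

open Finset Filter
open Pool.LD (L pat Sg)

/-- the sign vector with last sign `1` -/
def CNT_sg {m : ℕ} (s : Fin m → Bool) : Fin (m + 1) → ℤ :=
  Fin.snoc (α := fun _ => ℤ) (fun i => if s i then 1 else -1) 1

theorem CNT_Sg {m : ℕ} (s : Fin m → Bool) : Sg (CNT_sg s) := by
  intro k
  refine Fin.lastCases ?_ (fun i => ?_) k
  · left
    simp [CNT_sg]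
  · by_cases h : s i = true
    · left
      simp [CNT_sg, h]
    · right
      simp [CNT_sg, h]

theorem CNT_last {m : ℕ} (s : Fin m → Bool) : CNT_sg s (Fin.last m) = 1 := by
  simp [CNT_sg]

theorem CNT_inj {m : ℕ} : Function.Injective (CNT_sg (m := m)) := by
  intro s s' h
  funext i
  have h1 := congrFun h (Fin.castSucc i)
  simp only [CNT_sg, Fin.snoc_castSucc] at h1
  cases h2 : s i <;> cases h3 : s' i <;> simp_all

theorem CNT_lt {m : ℕ} {F : Fr (m + 1)} {X s : ℝ} {Θ : Fin (m + 1) → ℝ} (hC : Clu m F X s Θ)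
    {σ σ' : Fin (m + 1) → ℤ} (hs : Sg σ) (hs' : Sg σ') (hsl : σ (Fin.last m) = 1)
    (k : Fin (m + 1)) (hk : ∀ l, k < l → σ l = σ' l) (h1 : σ k = -1) (h2 : σ' k = 1) :
    ∑ k, (σ k : ℝ) * F.A k (Fin.last m) < ∑ k, (σ' k : ℝ) * F.A k (Fin.last m) := by
  have hkl : k ≠ Fin.last m := by
    rintro rfl
    rw [hsl] at h1
    norm_num at h1
  exact Pool.LD.p_ORD.2 (m + 1) (fun l => F.A l (Fin.last m)) σ σ' k hs hs'
    (CLU_sup hC hkl) hk h1 h2

theorem p_CNT (hCLU : Stmt_CLU) : Stmt_CNT := by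
  intro m F X s Θ hC
  have hz : ∀ t : Fin m → Bool, ∃ z : Pt (m + 1),
      z + z = ∑ k, CNT_sg t k • F.v k - F.f ∧ IsB Θ z ∧ X / 2 < ‖xv z‖ ∧ ‖xv z‖ ≤ X ∧
      2 * ‖xv z‖ = ∑ k, (CNT_sg t k : ℝ) * F.A k (Fin.last m) - F.a (Fin.last m) :=
    fun t => hCLU m F X s Θ hC (CNT_sg t) (CNT_Sg t) (CNT_last t)
  choose z hz1 hz2 hz3 hz4 hz5 using hz
  have hinj : Function.Injective (fun t : Fin m → Bool => ‖xv (z t)‖) := by
    intro t t' htt
    by_contra hne
    have h0 : ‖xv (z t)‖ = ‖xv (z t')‖ := htt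
    have e1 := hz5 t
    have e2 := hz5 t'
    obtain ⟨k, hk, hkl⟩ := Pool.LD.p_ORD.1 (m + 1) (CNT_sg t) (CNT_sg t')
      (fun h => hne (CNT_inj h))
    rcases CNT_Sg t k with h1 | h1
    · rcases CNT_Sg t' k with h2 | h2
      · exact hk (h1.trans h2.symm)
      · have h3 := CNT_lt hC (CNT_Sg t') (CNT_Sg t) (CNT_last t') k
          (fun l hl => (hkl l hl).symm) h2 h1
        linarith
    · rcases CNT_Sg t' k with h2 | h2
      · have h3 := CNT_lt hC (CNT_Sg t) (CNT_Sg t') (CNT_last t) k hkl h1 h2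
        linarith
      · exact hk (h1.trans h2.symm)
  classical
  refine ⟨Finset.univ.image (fun t : Fin m → Bool => ‖xv (z t)‖), ?_, ?_⟩
  · rw [Finset.card_image_of_injective _ hinj]
    simp
  · intro r hr
    obtain ⟨t, -, rfl⟩ := Finset.mem_image.1 hr
    exact ⟨hz3 t, hz4 t, z t, hz2 t, rfl⟩

end Pool.LE
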