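import Pool.Agent.Work.MP_7453a1_le.Interface
import Pool.Agent.Work.MP_7453a1_nt_norm.Frame

set_option autoImplicit false

namespace Pool.LE

open Finset Filter
open Pool.Agent.Work.MP_7453a1_nt_two (Admissible IsBest Lengths G g len err M)
open Pool.Agent.Work.MP_7453a1_nt_norm (IsNorm IsBestDenominator)

/-- the vector of an `n × 1` matrix -/
def CVM_col {n : ℕ} (Θ : Matrix (Fin n) (Fin 1) ℝ) : Fin n → ℝ := fun i => Θ i 0

theorem CVM_ext {α : Type} {a b : Fin 1 → α} (h : a 0 = b 0) : a = b := by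
  ext i
  rw [Subsingleton.elim i 0]
  exact h

theorem CVM_len (x : Fin 1 → ℤ) : len (sn 1) x = |(x 0 : ℝ)| := by
  have e : (fun j => (x j : ℝ) : Fin 1 → ℝ) = (x 0 : ℝ) • (fun _ => (1 : ℝ)) := by
    apply CVM_ext; simp
  unfold len
  rw [e, map_smul_eq_mul, Real.norm_eq_abs]
  have h1 : (sn 1) (fun _ => (1 : ℝ)) = 1 := by
    show ‖(fun _ : Fin 1 => (1 : ℝ))‖ = 1
    rw [pi_norm_const, norm_one]
  rw [h1, mul_one]

theorem CVM_err {n : ℕ} {Θ : Matrix (Fin n) (Fin 1) ℝ} (x : Fin 1 → ℤ) (y : Fin n → ℤ) :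
    err (sn n) Θ x y = Pool.Agent.Work.MP_7453a1_nt_norm.err (sn n) (CVM_col Θ) (x 0) y := by
  unfold err Pool.Agent.Work.MP_7453a1_nt_norm.err
  congr 1
  ext i
  rw [Fin.sum_univ_one, mul_comm]
  rfl

theorem CVM_adm {n : ℕ} {Θ : Matrix (Fin n) (Fin 1) ℝ} :
    Admissible Θ ↔ Pool.Agent.Work.MP_7453a1_nt_norm.Admissible (CVM_col Θ) := by
  constructor
  · intro h q hq p
    obtain ⟨i, hi⟩ := h (fun _ => q) (fun h0 => hq (congrFun h0 0)) p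
    refine ⟨i, ?_⟩
    rw [Fin.sum_univ_one, mul_comm] at hi
    exact hi
  · intro h x hx y
    obtain ⟨i, hi⟩ := h (x 0) (fun h0 => hx (CVM_ext h0)) y
    refine ⟨i, ?_⟩
    rw [Fin.sum_univ_one, mul_comm]
    exact hi

theorem CVM_best {n : ℕ} {Θ : Matrix (Fin n) (Fin 1) ℝ} (x : Fin 1 → ℤ) (y : Fin n → ℤ) :
    IsBest (sn 1) (sn n) Θ x y ↔
    Pool.Agent.Work.MP_7453a1_nt_norm.IsBest (sn n) (CVM_col Θ) (x 0) y := by
  unfold IsBest Pool.Agent.Work.MP_7453a1_nt_norm.IsBest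
  refine and_congr ⟨fun h h0 => h (CVM_ext h0), fun h h0 => h (congrFun h0 0)⟩
    ⟨fun h q' p' h1 h2 => ?_, fun h x' y' h1 h2 => ?_⟩
  · rcases h (fun _ => q') p' (by
      rw [CVM_len, CVM_len]
      exact_mod_cast h1) (by rw [CVM_err, CVM_err]; exact h2) with ⟨a, b⟩ | ⟨a, b⟩ | ⟨a, b⟩
    · left; exact ⟨congrFun a 0, b⟩
    · right; left; exact ⟨congrFun a 0, b⟩
    · right; right; exact ⟨congrFun a 0, b⟩
  · rw [CVM_len, CVM_len] at h1
    rw [CVM_err, CVM_err] at h2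
    rcases h (x' 0) y' (by exact_mod_cast h1) h2 with ⟨a, b⟩ | ⟨a, b⟩ | ⟨a, b⟩
    · left; exact ⟨CVM_ext a, b⟩
    · right; left; exact ⟨CVM_ext a, b⟩
    · right; right; exact ⟨CVM_ext a, b⟩

theorem CVM_lengths {n : ℕ} {Θ : Matrix (Fin n) (Fin 1) ℝ} (r : ℝ) :
    r ∈ Lengths (sn 1) (sn n) Θ ↔
    ∃ k : ℕ, IsBestDenominator (sn n) (CVM_col Θ) k ∧ (k : ℝ) = r := by
  constructor
  · rintro ⟨x, y, h, rfl⟩
    rw [CVM_best] at h
    refine ⟨(x 0).natAbs, ⟨x 0, y, h, rfl⟩, ?_⟩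
    rw [CVM_len, Nat.cast_natAbs, Int.cast_abs]
  · rintro ⟨k, ⟨q, p, h, hk⟩, rfl⟩
    refine ⟨fun _ => q, p, (CVM_best _ _).mpr h, ?_⟩
    rw [CVM_len, ← hk, Nat.cast_natAbs, Int.cast_abs]

theorem CVM_norm (n : ℕ) : IsNorm (sn n) := fun _ hx => norm_eq_zero.1 hx

theorem CVM_M {n : ℕ} {Θ : Matrix (Fin n) (Fin 1) ℝ} (hΘ : Admissible Θ) (ν : ℕ) :
    M (sn 1) (sn n) Θ (ν + 1) =
      (Pool.Agent.Work.MP_7453a1_nt_norm.M (sn n) (CVM_col Θ) (ν + 1) : ℝ) := by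
  classical
  have hinf := Pool.Agent.Work.MP_7453a1_nt_norm.infinite (CVM_norm n) (CVM_adm.mp hΘ)
  set p := IsBestDenominator (sn n) (CVM_col Θ) with hp
  have hM : ∀ j, Pool.Agent.Work.MP_7453a1_nt_norm.M (sn n) (CVM_col Θ) (j + 1) = Nat.nth p j :=
    fun j => rfl
  have key : ∀ (j : ℕ) (r0 : ℝ), (∀ k, p k → (r0 < (k : ℝ) ↔ Nat.nth p j ≤ k)) →
      sInf {r | r ∈ Lengths (sn 1) (sn n) Θ ∧ r0 < r} = (Nat.nth p j : ℝ) := by
    intro j r0 h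
    have hmem := Nat.nth_mem_of_infinite hinf j
    refine IsLeast.csInf_eq ⟨⟨(CVM_lengths _).mpr ⟨_, hmem, rfl⟩, (h _ hmem).mpr le_rfl⟩, ?_⟩
    rintro r ⟨hr, hr0⟩
    obtain ⟨k, hk1, rfl⟩ := (CVM_lengths _).mp hr
    have h1 := (h k hk1).mp hr0
    exact_mod_cast h1
  induction ν with
  | zero =>
    rw [hM]
    refine key 0 0 fun k hpk => ⟨fun _ => ?_, fun _ => ?_⟩
    · have := Nat.nth_count hpk
      rw [← this]
      exact (Nat.nth_le_nth hinf).mpr (Nat.zero_le _)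
    · obtain ⟨q, y, h, hq⟩ := hpk
      have h0 := h.1
      have : 0 < k := by omega
      exact_mod_cast this
  | succ ν ih =>
    rw [hM (ν + 1)]
    show sInf {r | r ∈ Lengths (sn 1) (sn n) Θ ∧ M (sn 1) (sn n) Θ (ν + 1) < r} = _
    rw [ih, hM ν]
    refine key (ν + 1) _ fun k hpk => ?_
    have hcount := Nat.nth_count hpk
    rw [Nat.cast_lt]
    conv_lhs => rw [← hcount]
    conv_rhs => rw [← hcount]
    rw [Nat.nth_lt_nth hinf, Nat.nth_le_nth hinf]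
    omega

theorem p_CVM : Stmt_CVM := by
  intro n _ Θ
  refine ⟨CVM_adm, fun hΘ => ⟨?_, ?_⟩⟩
  · have hinf := Pool.Agent.Work.MP_7453a1_nt_norm.infinite (CVM_norm n) (CVM_adm.mp hΘ)
    have e : Lengths (sn 1) (sn n) Θ = (fun k : ℕ => (k : ℝ)) ''
        {k | IsBestDenominator (sn n) (CVM_col Θ) k} := by
      ext r
      rw [CVM_lengths]
      rfl
    rw [e]
    exact hinf.image Nat.cast_injective.injOn
  · unfold G Pool.Agent.Work.MP_7453a1_nt_norm.G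
    refine liminf_congr ?_
    filter_upwards [eventually_ge_atTop 1] with ν hν
    obtain ⟨j, rfl⟩ : ∃ j, ν = j + 1 := ⟨ν - 1, by omega⟩
    rw [CVM_M hΘ]
    rfl

end Pool.LE
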