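import Pool.Agent.Work.MP_7453a1_le.Interface

set_option autoImplicit false

/-! # Block FIN -/

namespace Pool.LE

open Finset Filter
open Pool.LD (L pat Sg)
open Pool.Agent.Work.MP_7453a1_nt_two (Admissible IsBest Lengths G len err)

theorem p_FIN (hSEQ : Stmt_SEQ) (hCNT : Stmt_CNT) (hBRG : Stmt_BRG) (hLIM : Stmt_LIM)
    (hADM : Stmt_ADM) (hNUM : Stmt_NUM) : Stmt_FIN := by
  intro n hn
  obtain ⟨m, rfl⟩ : ∃ m, n = m + 1 := ⟨n - 1, by omega⟩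
  obtain ⟨F, e, Θ, h⟩ := hSEQ m
  have key : ∀ s : ℕ, ∃ T : Finset ℝ, 2 ^ m ≤ T.card ∧ ∀ r ∈ T,
      r ∈ Lengths (sn (m + 1)) (sn 1) (row Θ) ∧ KE m ^ (s + 1) / 2 < r ∧ r ≤ KE m ^ (s + 1) := by
    intro s
    obtain ⟨T, hT, hr⟩ := hCNT m (F s) _ _ Θ (h s)
    refine ⟨T, hT, fun r hr' => ?_⟩
    obtain ⟨h1, h2, z, hz, hzr⟩ := hr r hr'
    exact ⟨hzr ▸ hBRG _ Θ z hz, h1, h2⟩
  obtain ⟨hinf, hG⟩ := hLIM (m + 1) 1 (sn (m + 1)) (sn 1) (row Θ) m (KE m) (hNUM m).1 key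
  refine ⟨row Θ, hADM (m + 1) 1 _ _ (row Θ) hinf, hG.trans (ENNReal.ofReal_le_ofReal ?_)⟩
  push_cast
  exact (hNUM m).2

end Pool.LE
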