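import Pool.Agent.Work.MP_7453a1_le.Interface

set_option autoImplicit false

/-! # Block GOD of the joint theorem: `Good` is preserved -/

namespace Pool.LE

open Finset

theorem p_GOD : Stmt_GOD := by
  classical
  intro n F k c hF
  obtain ⟨⟨h, hh⟩, hz⟩ := hF
  have hsp : ∀ g : Fin n → Pt n, ∑ l, g l = g k + ∑ l ∈ univ \ {k}, g l := by
    intro g
    rw [Finset.sum_eq_add_sum_sdiff_singleton_of_mem (Finset.mem_univ k)]
  set w : Pt n := (2 : ℤ) • ∑ l, c l • F.v l - F.f with hw
  have hw2 : ∑ l, (2 * c l) • F.v l - F.f = w := by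
    rw [hw, Finset.smul_sum]
    congr 1
    exact Finset.sum_congr rfl fun l _ => mul_smul _ _ _
  have hnv : (F.nxt k c).v = Function.update F.v k w := by
    rw [← hw2]
    rfl
  have hnf : (F.nxt k c).f = F.v k := rfl
  refine ⟨?_, ?_⟩
  · refine ⟨h + ∑ l, c l • F.v l - F.f, ?_⟩
    rw [hnv, hnf, Finset.sum_update_of_mem (Finset.mem_univ k)]
    have e3 := hsp F.v
    rw [e3] at hh
    calc h + ∑ l, c l • F.v l - F.f + (h + ∑ l, c l • F.v l - F.f)
        = (h + h) + (2 : ℤ) • ∑ l, c l • F.v l - (2 : ℤ) • F.f := by module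
      _ = _ := by
          rw [hh, hw]
          module
  · intro z
    obtain ⟨a, b, hab, hzz⟩ := hz z
    refine ⟨Function.update (fun l => a l + 2 * b * c l) k (-b), a k + 2 * b * c k, ?_, ?_⟩
    · intro l
      by_cases hl : l = k
      · subst hl
        rw [Function.update_self]
        obtain ⟨s, hs⟩ := hab l
        exact ⟨-s - b - b * c l, by linear_combination -hs⟩
      · rw [Function.update_of_ne hl]
        obtain ⟨s, hs⟩ := hab l
        obtain ⟨s', hs'⟩ := hab k
        exact ⟨s - s' + b * c l - b * c k, by linear_combination hs - hs'⟩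
    · have e1 : ∀ l, (Function.update (fun l => a l + 2 * b * c l) k (-b) l) •
          (F.nxt k c).v l = Function.update (fun l => (a l + 2 * b * c l) • F.v l) k
            ((-b) • w) l := by
        intro l
        rw [hnv]
        by_cases hl : l = k
        · subst hl
          simp only [Function.update_self]
        · simp only [Function.update_of_ne hl]
      simp only [e1]
      rw [Finset.sum_update_of_mem (Finset.mem_univ k), hnf, hzz, hsp fun l => a l • F.v l]
      have e2 : ∑ x ∈ univ \ {k}, (a x + 2 * b * c x) • F.v x =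
          ∑ x ∈ univ \ {k}, a x • F.v x + (2 * b) • ∑ x ∈ univ \ {k}, c x • F.v x := by
        rw [Finset.smul_sum, ← Finset.sum_add_distrib]
        refine Finset.sum_congr rfl fun x _ => ?_
        module
      rw [e2, hw, hsp fun l => c l • F.v l]
      module

end Pool.LE
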