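import Pool.Agent.Work.MP_7453a1_le.Interface2
import Pool.Agent.Work.MP_7453a1_nt_norm.Frame

set_option autoImplicit false

namespace Pool.LE

open Finset Filter
open Pool.Agent.Work.MP_7453a1_nt_norm (IsNorm)
open Pool.Agent.Work.MP_7453a1_nt_two (Admissible IsBest Lengths G g len err)
open scoped Topology

theorem GRN_growth {m n : ℕ} (N : Seminorm ℝ (Fin m → ℝ)) (N₁ : Seminorm ℝ (Fin n → ℝ))
    (Θ : Matrix (Fin n) (Fin m) ℝ) {t c : ℝ} (ht : 0 < t) (hc : 0 < c)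
    (h : ∀ᶠ ν in atTop, c * t ^ ν ≤ Pool.Agent.Work.MP_7453a1_nt_two.M N N₁ Θ ν) :
    ENNReal.ofReal t ≤ G N N₁ Θ := by
  have hlim : Tendsto (fun ν : ℕ => ENNReal.ofReal (c ^ (1 / (ν : ℝ)) * t)) atTop
      (𝓝 (ENNReal.ofReal t)) := by
    apply ENNReal.tendsto_ofReal
    have h1 : Tendsto (fun ν : ℕ => c ^ (1 / (ν : ℝ))) atTop (𝓝 (c ^ (0 : ℝ))) := by
      apply Tendsto.rpow tendsto_const_nhds tendsto_one_div_atTop_nhds_zero_nat
      left
      positivity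
    rw [Real.rpow_zero] at h1
    simpa using h1.mul_const t
  rw [← hlim.liminf_eq]
  unfold G
  refine liminf_le_liminf ?_
  filter_upwards [eventually_ge_atTop 1, h] with ν hν hM
  apply ENNReal.ofReal_le_ofReal
  have hν0 : (0 : ℝ) < ν := by exact_mod_cast hν
  calc c ^ (1 / (ν : ℝ)) * t = (c * t ^ ν) ^ (1 / (ν : ℝ)) := by
        rw [Real.mul_rpow (by positivity) (by positivity)]
        congr 1
        rw [one_div, Real.pow_rpow_inv_natCast ht.le (by omega)]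
    _ ≤ (Pool.Agent.Work.MP_7453a1_nt_two.M N N₁ Θ ν : ℝ) ^ (1 / (ν : ℝ)) :=
        Real.rpow_le_rpow (by positivity) hM (by positivity)

theorem GRN_one {m n : ℕ} {Nm : Seminorm ℝ (Fin m → ℝ)} {Nn : Seminorm ℝ (Fin n → ℝ)}
    (hN : IsNorm Nm) (Θ : Matrix (Fin n) (Fin m) ℝ) :
    ∃ c : ℝ, 0 < c ∧ ∀ r ∈ Lengths Nm Nn Θ, c ≤ r := by
  obtain ⟨c, hc, h⟩ := Pool.Agent.Work.MP_7453a1_nt_norm.int_lower hN
  refine ⟨c, hc, ?_⟩
  rintro r ⟨x, y, ⟨hx, _⟩, rfl⟩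
  exact h x hx

theorem GRN_fin {S : Set ℝ} {K : ℕ} (h : ∀ T : Finset ℝ, (∀ r ∈ T, r ∈ S) → T.card ≤ K) :
    S.Finite := by
  by_contra hcon
  obtain ⟨T, hT1, hT2⟩ := (show S.Infinite from hcon).exists_subset_card_eq (K + 1)
  have := h T (fun r hr => hT1 (Finset.mem_coe.2 hr))
  omega

theorem p_GRN : Stmt_GRN := by
  intro m n Nm Nn hNm hNn Θ K hK hT hinf
  set Ls := Lengths Nm Nn Θ with hLs
  obtain ⟨c, hc, h1⟩ : ∃ c : ℝ, 0 < c ∧ ∀ r ∈ Ls, c ≤ r := GRN_one hNm Θ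
  have h2 : ∀ i : ℕ, {r | r ∈ Ls ∧ r < c * (2 : ℝ) ^ i}.Finite := by
    intro i
    induction i with
    | zero =>
      refine (Set.finite_empty).subset ?_
      rintro r ⟨hr, hr2⟩
      have := h1 r hr
      rw [pow_zero, mul_one] at hr2
      exact absurd this (not_le.2 hr2)
    | succ i ih =>
      have h3 : {r | r ∈ Ls ∧ c * (2 : ℝ) ^ i ≤ r ∧ r < 2 * (c * (2 : ℝ) ^ i)}.Finite :=
        GRN_fin (fun T hT' => hT (c * (2 : ℝ) ^ i) (by positivity) T hT')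
      refine (ih.union h3).subset ?_
      rintro r ⟨hr, hr2⟩
      rcases lt_or_ge r (c * (2 : ℝ) ^ i) with h | h
      · exact Or.inl ⟨hr, h⟩
      · exact Or.inr ⟨hr, h, by rw [pow_succ] at hr2; linarith⟩
  have h3 : ∀ a : ℝ, {r | r ∈ Ls ∧ r ≤ a}.Finite := by
    intro a
    obtain ⟨i, hi⟩ := pow_unbounded_of_one_lt (a / c) (one_lt_two : (1 : ℝ) < 2)
    rw [div_lt_iff₀ hc, mul_comm] at hi
    exact (h2 i).subset (fun r hr => ⟨hr.1, hr.2.trans_lt hi⟩)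
  have h4 : ∀ a : ℝ, ∃ r ∈ Ls, a < r := by
    intro a
    by_contra hcon
    push Not at hcon
    exact hinf ((h3 a).subset (fun r hr => ⟨hr, hcon r hr⟩))
  have h5 : ∀ a : ℝ, IsLeast {r | r ∈ Ls ∧ a < r} (sInf {r | r ∈ Ls ∧ a < r}) := by
    intro a
    obtain ⟨r0, hr0, har0⟩ := h4 a
    have hf : {r | r ∈ Ls ∧ a < r ∧ r ≤ r0}.Finite :=
      (h3 r0).subset (fun r hr => ⟨hr.1, hr.2.2⟩)
    obtain ⟨r1, hr1, hmin⟩ := Set.exists_min_image _ id hf ⟨r0, hr0, har0, le_rfl⟩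
    have hl : IsLeast {r | r ∈ Ls ∧ a < r} r1 := by
      refine ⟨⟨hr1.1, hr1.2.1⟩, ?_⟩
      rintro r ⟨hr, har⟩
      rcases le_total r r0 with h | h
      · exact hmin r ⟨hr, har, h⟩
      · exact hr1.2.2.trans h
    rw [hl.csInf_eq]
    exact hl
  set MM := Pool.Agent.Work.MP_7453a1_nt_two.M Nm Nn Θ with hMM
  have h6 : ∀ ν, MM (ν + 1) ∈ Ls ∧ MM ν < MM (ν + 1) := by
    intro ν
    exact (h5 (MM ν)).1
  have hmono : StrictMono MM := strictMono_nat_of_lt_succ (fun ν => (h6 ν).2)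
  have h7 : ∀ ν, 1 ≤ ν → MM ν ∈ Ls := by
    intro ν hν
    obtain ⟨k, rfl⟩ : ∃ k, ν = k + 1 := ⟨ν - 1, by omega⟩
    exact (h6 k).1
  have h8 : ∀ ν, 1 ≤ ν → 2 * MM ν ≤ MM (ν + K) := by
    intro ν hν
    by_contra hcon
    rw [not_le] at hcon
    have hR : 0 < MM ν := by
      have := h1 _ (h7 ν hν)
      linarith
    have hc := hT (MM ν) hR ((Finset.range (K + 1)).image fun i => MM (ν + i)) ?_
    · rw [Finset.card_image_of_injective _
        (fun i j hij => by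
          have := hmono.injective hij
          omega), Finset.card_range] at hc
      omega
    · intro r hr
      obtain ⟨i, hi, rfl⟩ := Finset.mem_image.1 hr
      rw [Finset.mem_range] at hi
      refine ⟨h7 _ (by omega), hmono.monotone (by omega), ?_⟩
      exact (hmono.monotone (by omega)).trans_lt hcon
  have h9 : ∀ t : ℕ, c * (2 : ℝ) ^ t ≤ MM (1 + t * K) := by
    intro t
    induction t with
    | zero =>
      rw [pow_zero, mul_one, Nat.zero_mul]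
      exact h1 _ (h7 _ (by omega))
    | succ t ih =>
      have h10 := h8 (1 + t * K) (by omega)
      rw [pow_succ, show 1 + (t + 1) * K = 1 + t * K + K by ring]
      linarith
  have hKpos : (0 : ℝ) < K := by exact_mod_cast hK
  refine GRN_growth Nm Nn Θ (t := (2 : ℝ) ^ (1 / (K : ℝ))) (c := c / 2)
    (by positivity) (by positivity) ?_
  filter_upwards [eventually_ge_atTop 1] with ν hν
  have hdiv := Nat.div_add_mod (ν - 1) K
  have hmod := Nat.mod_lt (ν - 1) (show 0 < K by omega)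
  set t := (ν - 1) / K with ht
  have hle : 1 + t * K ≤ ν := by
    rw [Nat.mul_comm t K]
    omega
  have hlt : ν ≤ (t + 1) * K := by
    have : (t + 1) * K = K * t + K := by ring
    rw [this]
    omega
  have hb : ((2 : ℝ) ^ (1 / (K : ℝ))) ^ ν ≤ 2 * 2 ^ t := by
    rw [← Real.rpow_natCast ((2 : ℝ) ^ (1 / (K : ℝ))) ν, ← Real.rpow_mul (by norm_num)]
    have : (2 : ℝ) * 2 ^ t = (2 : ℝ) ^ (((t + 1 : ℕ) : ℝ)) := by
      rw [Real.rpow_natCast, pow_succ]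
      ring
    rw [this]
    apply Real.rpow_le_rpow_of_exponent_le (by norm_num)
    rw [one_div, inv_mul_le_iff₀ hKpos]
    have h11 : (ν : ℝ) ≤ ((t + 1 : ℕ) : ℝ) * (K : ℝ) := by exact_mod_cast hlt
    linarith
  calc (c / 2) * ((2 : ℝ) ^ (1 / (K : ℝ))) ^ ν ≤ (c / 2) * (2 * 2 ^ t) := by gcongr
    _ = c * 2 ^ t := by ring
    _ ≤ MM (1 + t * K) := h9 t
    _ ≤ MM ν := hmono.monotone hle

end Pool.LE
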