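import Pool.Agent.Work.MP_7453a1_le.Interface

set_option autoImplicit false

namespace Pool.LE

open Finset Filter
open Pool.Agent.Work.MP_7453a1_nt_two (Admissible IsBest Lengths G g len err)

variable {m : ℕ}

theorem INA_er_neg (θ : Fin m → ℝ) (w : Pt m) : er θ (-w) = - er θ w := by
  unfold er
  rw [Prod.fst_neg, Prod.snd_neg]
  push_cast
  simp only [Pi.neg_apply, Int.cast_neg, mul_neg, Finset.sum_neg_distrib]
  ring

theorem INA_er_sub (θ : Fin m → ℝ) (u w : Pt m) : er θ (u - w) = er θ u - er θ w := by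
  unfold er
  rw [Prod.fst_sub, Prod.snd_sub]
  simp only [Pi.sub_apply, Int.cast_sub, mul_sub, Finset.sum_sub_distrib]
  ring

theorem INA_er_add (θ : Fin m → ℝ) (u w : Pt m) : er θ (u + w) = er θ u + er θ w := by
  unfold er
  rw [Prod.fst_add, Prod.snd_add]
  simp only [Pi.add_apply, Int.cast_add, mul_add, Finset.sum_add_distrib]
  ring

theorem INA_xv_neg (w : Pt m) : ‖xv (-w)‖ = ‖xv w‖ := by
  have : xv (-w) = - xv w := by
    ext j
    unfold xv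
    rw [Prod.fst_neg]
    simp
  rw [this, norm_neg]

theorem INA_finite (θ : Fin m → ℝ) (E R : ℝ) : {w : Pt m | ‖xv w‖ ≤ R ∧ |er θ w| ≤ E}.Finite := by
  set K : ℝ := (∑ j, |θ j|) * R + E with hK
  have h1 : ((Set.pi Set.univ fun _ : Fin m => Set.Icc (-(⌈R⌉)) ⌈R⌉) : Set (Fin m → ℤ)).Finite :=
    Set.Finite.pi fun _ => Set.finite_Icc _ _
  refine (h1.prod (Set.finite_Icc (-(⌈K⌉)) ⌈K⌉)).subset ?_
  rintro ⟨x, y⟩ ⟨hx, hy⟩
  have hx' : ∀ j, |(x j : ℝ)| ≤ R := fun j => (norm_le_pi_norm (xv (x, y)) j).trans hx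
  refine ⟨fun j _ => ?_, ?_⟩
  · have h2 := (hx' j).trans (Int.le_ceil R)
    have h3 : |x j| ≤ ⌈R⌉ := by exact_mod_cast h2
    exact abs_le.1 h3
  · have h2 : |(y : ℝ)| ≤ K := by
      have e : (y : ℝ) = ∑ j, θ j * (x j : ℝ) - er θ (x, y) := by
        unfold er
        ring
      rw [e]
      have h3 : |∑ j, θ j * (x j : ℝ)| ≤ (∑ j, |θ j|) * R := by
        refine (Finset.abs_sum_le_sum_abs _ _).trans ?_
        rw [Finset.sum_mul]
        refine Finset.sum_le_sum fun j _ => ?_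
        rw [abs_mul]
        exact mul_le_mul_of_nonneg_left (hx' j) (abs_nonneg _)
      have h4 := abs_sub (∑ j, θ j * (x j : ℝ)) (er θ (x, y))
      linarith
    have h3 : |y| ≤ ⌈K⌉ := by exact_mod_cast h2.trans (Int.le_ceil K)
    exact abs_le.1 h3

theorem INA_zero_of_fst {θ : Fin m → ℝ} {w : Pt m} (h : w.1 = 0) (hl : |er θ w| < 1) : w = 0 := by
  have e : er θ w = -(w.2 : ℝ) := by
    unfold er
    rw [h]
    simp
  rw [e, abs_neg] at hl
  have h1 : |w.2| < 1 := by exact_mod_cast hl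
  exact Prod.ext h (Int.abs_lt_one_iff.mp h1)

theorem INA_adm {Θ : Matrix (Fin 1) (Fin m) ℝ} (h : Admissible Θ) {w : Pt m}
    (hw : er (Θ 0) w = 0) : w = 0 := by
  by_cases h0 : w.1 = 0
  · exact INA_zero_of_fst h0 (by rw [hw]; simp)
  · obtain ⟨i, hi⟩ := h w.1 h0 (fun _ => w.2)
    exfalso
    apply hi
    rw [Subsingleton.elim i 0]
    exact sub_eq_zero.1 hw

theorem INA_inj {Θ : Matrix (Fin 1) (Fin m) ℝ} (hΘ : Admissible Θ) {u w : Pt m}
    (h : |er (Θ 0) u| = |er (Θ 0) w|) : u = w ∨ u = -w := by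
  rcases abs_eq_abs.mp h with h1 | h1
  · left
    exact sub_eq_zero.mp (INA_adm hΘ (by rw [INA_er_sub, h1, sub_self]))
  · right
    exact eq_neg_of_add_eq_zero_left (INA_adm hΘ (by rw [INA_er_add, h1, neg_add_cancel]))

theorem INA_err {Θ : Matrix (Fin 1) (Fin m) ℝ} (x : Fin m → ℤ) (y : Fin 1 → ℤ) :
    err (sn 1) Θ x y = |er (Θ 0) (x, y 0)| := by
  have e : (fun i => (∑ j, Θ i j * x j) - y i : Fin 1 → ℝ)
      = er (Θ 0) (x, y 0) • (fun _ => (1 : ℝ)) := by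
    ext i
    have : i = 0 := Subsingleton.elim _ _
    rw [this]
    unfold er
    simp
  unfold err
  rw [e, map_smul_eq_mul, Real.norm_eq_abs]
  have h1 : (sn 1) (fun _ => (1 : ℝ)) = 1 := by
    show ‖(fun _ : Fin 1 => (1 : ℝ))‖ = 1
    rw [pi_norm_const, norm_one]
  rw [h1, mul_one]

/-- every point with nonzero `x` and error less than one is dominated by a best approximation -/
theorem INA_exists {Θ : Matrix (Fin 1) (Fin m) ℝ} (hΘ : Admissible Θ) {w : Pt m} (hw : w.1 ≠ 0)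
    (hl : |er (Θ 0) w| < 1) :
    ∃ u : Pt m, IsBest (sn m) (sn 1) Θ u.1 (fun _ => u.2) ∧ |er (Θ 0) u| ≤ |er (Θ 0) w| := by
  set S : Set (Pt m) := {u | u.1 ≠ 0 ∧ ‖xv u‖ ≤ ‖xv w‖ ∧ |er (Θ 0) u| ≤ |er (Θ 0) w|} with hS
  have hSf : S.Finite := (INA_finite (Θ 0) |er (Θ 0) w| ‖xv w‖).subset
    (fun u hu => ⟨hu.2.1, hu.2.2⟩)
  have hSn : S.Nonempty := ⟨w, hw, le_rfl, le_rfl⟩
  obtain ⟨m1, hm1, hmin1⟩ := Set.exists_min_image S (fun u => ‖xv u‖) hSf hSn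
  set S' : Set (Pt m) := {u | u ∈ S ∧ ‖xv u‖ ≤ ‖xv m1‖} with hS'
  obtain ⟨m2, hm2, hmin2⟩ := Set.exists_min_image S' (fun u => |er (Θ 0) u|)
    (hSf.subset fun u hu => hu.1) ⟨m1, hm1, le_rfl⟩
  obtain ⟨⟨a1, a2, a3⟩, a4⟩ := hm2
  have key : ∀ u : Pt m, ‖xv u‖ ≤ ‖xv m2‖ → |er (Θ 0) u| ≤ |er (Θ 0) m2| →
      u = 0 ∨ u = m2 ∨ u = -m2 := by
    intro u h1 h2
    by_cases hu : u.1 = 0
    · left
      exact INA_zero_of_fst hu (lt_of_le_of_lt (h2.trans a3) hl)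
    · right
      have h3 : u ∈ S' := ⟨⟨hu, h1.trans a2, h2.trans a3⟩, h1.trans a4⟩
      exact INA_inj hΘ (le_antisymm h2 (hmin2 u h3))
  refine ⟨m2, ⟨a1, fun x' y' h1 h2 => ?_⟩, a3⟩
  rw [INA_err, INA_err] at h2
  have hy : ∀ (a b : Fin 1 → ℤ), a 0 = b 0 → a = b := by
    intro a b hab
    ext i
    rw [Subsingleton.elim i 0]; exact hab
  rcases key (x', y' 0) h1 h2 with h4 | h4 | h4
  · left
    exact ⟨congrArg Prod.fst h4, hy _ _ (congrArg Prod.snd h4)⟩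
  · right; left
    exact ⟨congrArg Prod.fst h4, hy _ _ (congrArg Prod.snd h4)⟩
  · right; right
    exact ⟨congrArg Prod.fst h4, hy _ _ (congrArg Prod.snd h4)⟩

theorem INA_dirichlet (hm : 1 ≤ m) (θ : Fin m → ℝ) {ε : ℝ} (hε : 0 < ε) :
    ∃ w : Pt m, w.1 ≠ 0 ∧ |er θ w| < ε := by
  obtain ⟨n, hn⟩ := exists_nat_gt (1 / ε)
  have hn0 : 0 < n := by
    have : (0 : ℝ) < n := lt_trans (by positivity) hn
    exact_mod_cast this
  obtain ⟨j, k, hk0, hkn, h⟩ := Real.exists_int_int_abs_mul_sub_le (θ ⟨0, hm⟩) hn0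
  refine ⟨(Pi.single ⟨0, hm⟩ k, j), ?_, ?_⟩
  · intro h0
    have h1 : (Pi.single (⟨0, hm⟩ : Fin m) k : Fin m → ℤ) ⟨0, hm⟩ = 0 := congrFun h0 ⟨0, hm⟩
    rw [Pi.single_eq_same] at h1
    omega
  · have e : er θ (Pi.single ⟨0, hm⟩ k, j) = (k : ℝ) * θ ⟨0, hm⟩ - j := by
      show ∑ i, θ i * (((Pi.single (⟨0, hm⟩ : Fin m) k : Fin m → ℤ) i : ℤ) : ℝ) - (j : ℝ) = _
      rw [Finset.sum_eq_single ⟨0, hm⟩]
      · rw [Pi.single_eq_same]
        ring
      · intro b _ hb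
        rw [Pi.single_eq_of_ne hb]
        simp
      · intro h0
        exact absurd (Finset.mem_univ _) h0
    rw [e]
    refine lt_of_le_of_lt h ?_
    rw [div_lt_iff₀ (by positivity)]
    rw [div_lt_iff₀ hε] at hn
    nlinarith

theorem p_INA : Stmt_INA := by
  classical
  intro m hm Θ hΘ
  refine Set.infinite_of_forall_exists_gt fun R => ?_
  set S : Set (Pt m) := {u | ‖xv u‖ ≤ R ∧ |er (Θ 0) u| ≤ 1} \ {0} with hS
  have hSf : S.Finite := (INA_finite (Θ 0) 1 R).subset Set.sdiff_subset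
  obtain ⟨ε, hε, hεS⟩ : ∃ ε : ℝ, 0 < ε ∧ ∀ u ∈ S, ε ≤ |er (Θ 0) u| := by
    rcases S.eq_empty_or_nonempty with he | hne
    · exact ⟨1, one_pos, fun u hu => by rw [he] at hu; exact absurd hu (Set.notMem_empty u)⟩
    · obtain ⟨u, hu, hmin⟩ := Set.exists_min_image S (fun u => |er (Θ 0) u|) hSf hne
      exact ⟨|er (Θ 0) u|, abs_pos.mpr (fun h0 => hu.2 (INA_adm hΘ h0)), hmin⟩
  obtain ⟨w, hw0, hw⟩ := INA_dirichlet hm (Θ 0) (lt_min hε one_pos)
  obtain ⟨u, hu, hu2⟩ := INA_exists hΘ hw0 (hw.trans_le (min_le_right _ _))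
  refine ⟨len (sn m) u.1, ⟨u.1, fun _ => u.2, hu, rfl⟩, ?_⟩
  by_contra hcon
  push Not at hcon
  have h1 : u ∈ S := by
    refine ⟨⟨hcon, ?_⟩, ?_⟩
    · exact hu2.trans (hw.le.trans (min_le_right _ _))
    · intro h0
      exact hu.1 (by rw [Set.mem_singleton_iff.mp h0]; rfl)
  have h2 := hεS u h1
  have := hw.trans_le (min_le_left _ _)
  linarith

end Pool.LE
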