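import Pool.Agent.Work.MP_7453a1_le.Interface2
import Pool.Agent.Work.MP_7453a1_le.B_INA

set_option autoImplicit false

/-! # Block INB (helper73): infinitely many lengths, one linear form, every norm. -/

namespace Pool.LE

open Finset Filter
open Pool.Agent.Work.MP_7453a1_nt_norm (IsNorm)
open Pool.Agent.Work.MP_7453a1_nt_two (Admissible IsBest Lengths G g len err)

variable {m : ℕ}

theorem INB_finite {Nm : Seminorm ℝ (Fin m → ℝ)} (hNm : IsNorm Nm) (θ : Fin m → ℝ) (E R : ℝ) :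
    {w : Pt m | Nm (xv w) ≤ R ∧ |er θ w| ≤ E}.Finite := by
  obtain ⟨c, hc, h⟩ := Pool.Agent.Work.MP_7453a1_nt_norm.lower hNm
  refine (INA_finite θ E (R / c)).subset fun w hw => ⟨?_, hw.2⟩
  rw [le_div_iff₀ hc, mul_comm]
  exact (h _).trans hw.1

theorem INB_err (N₁ : Seminorm ℝ (Fin 1 → ℝ)) {Θ : Matrix (Fin 1) (Fin m) ℝ} (x : Fin m → ℤ)
    (y : Fin 1 → ℤ) : err N₁ Θ x y = |er (Θ 0) (x, y 0)| * N₁ (fun _ => 1) := by
  have e : (fun i => (∑ j, Θ i j * x j) - y i : Fin 1 → ℝ)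
      = er (Θ 0) (x, y 0) • (fun _ => (1 : ℝ)) := by
    ext i
    have : i = 0 := Subsingleton.elim _ _
    rw [this]
    unfold er
    simp
  unfold err
  rw [e, map_smul_eq_mul, Real.norm_eq_abs]

theorem INB_pos {N₁ : Seminorm ℝ (Fin 1 → ℝ)} (h : IsNorm N₁) : 0 < N₁ (fun _ => 1) := by
  refine lt_of_le_of_ne (apply_nonneg _ _) fun h0 => ?_
  have h1 := congrFun (h _ h0.symm) 0
  simp at h1

/-- every point with nonzero `x` and error less than one is dominated by a best approximation -/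
theorem INB_exists {Nm : Seminorm ℝ (Fin m → ℝ)} {N₁ : Seminorm ℝ (Fin 1 → ℝ)} (hNm : IsNorm Nm)
    (hN₁ : IsNorm N₁) {Θ : Matrix (Fin 1) (Fin m) ℝ} (hΘ : Admissible Θ) {w : Pt m}
    (hw : w.1 ≠ 0) (hl : |er (Θ 0) w| < 1) :
    ∃ u : Pt m, IsBest Nm N₁ Θ u.1 (fun _ => u.2) ∧ |er (Θ 0) u| ≤ |er (Θ 0) w| := by
  set S : Set (Pt m) := {u | u.1 ≠ 0 ∧ Nm (xv u) ≤ Nm (xv w) ∧ |er (Θ 0) u| ≤ |er (Θ 0) w|}
    with hS
  have hSf : S.Finite := (INB_finite hNm (Θ 0) |er (Θ 0) w| (Nm (xv w))).subset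
    (fun u hu => ⟨hu.2.1, hu.2.2⟩)
  have hSn : S.Nonempty := ⟨w, hw, le_rfl, le_rfl⟩
  obtain ⟨m1, hm1, hmin1⟩ := Set.exists_min_image S (fun u => Nm (xv u)) hSf hSn
  set S' : Set (Pt m) := {u | u ∈ S ∧ Nm (xv u) ≤ Nm (xv m1)} with hS'
  obtain ⟨m2, hm2, hmin2⟩ := Set.exists_min_image S' (fun u => |er (Θ 0) u|)
    (hSf.subset fun u hu => hu.1) ⟨m1, hm1, le_rfl⟩
  obtain ⟨⟨a1, a2, a3⟩, a4⟩ := hm2
  have key : ∀ u : Pt m, Nm (xv u) ≤ Nm (xv m2) → |er (Θ 0) u| ≤ |er (Θ 0) m2| →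
      u = 0 ∨ u = m2 ∨ u = -m2 := by
    intro u h1 h2
    by_cases hu : u.1 = 0
    · left
      exact INA_zero_of_fst hu (lt_of_le_of_lt (h2.trans a3) hl)
    · right
      have h3 : u ∈ S' := ⟨⟨hu, h1.trans a2, h2.trans a3⟩, h1.trans a4⟩
      exact INA_inj hΘ (le_antisymm h2 (hmin2 u h3))
  refine ⟨m2, ⟨a1, fun x' y' h1 h2 => ?_⟩, a3⟩
  rw [INB_err, INB_err] at h2
  have h2' := le_of_mul_le_mul_right h2 (INB_pos hN₁)
  have hy : ∀ (a b : Fin 1 → ℤ), a 0 = b 0 → a = b := by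
    intro a b hab
    ext i
    rw [Subsingleton.elim i 0]; exact hab
  rcases key (x', y' 0) h1 h2' with h4 | h4 | h4
  · left
    exact ⟨congrArg Prod.fst h4, hy _ _ (congrArg Prod.snd h4)⟩
  · right; left
    exact ⟨congrArg Prod.fst h4, hy _ _ (congrArg Prod.snd h4)⟩
  · right; right
    exact ⟨congrArg Prod.fst h4, hy _ _ (congrArg Prod.snd h4)⟩

theorem p_INB : Stmt_INB := by
  classical
  intro m hm Nm N₁ hNm hN₁ Θ hΘ
  refine Set.infinite_of_forall_exists_gt fun R => ?_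
  set S : Set (Pt m) := {u | Nm (xv u) ≤ R ∧ |er (Θ 0) u| ≤ 1} \ {0} with hS
  have hSf : S.Finite := (INB_finite hNm (Θ 0) 1 R).subset Set.sdiff_subset
  obtain ⟨ε, hε, hεS⟩ : ∃ ε : ℝ, 0 < ε ∧ ∀ u ∈ S, ε ≤ |er (Θ 0) u| := by
    rcases S.eq_empty_or_nonempty with he | hne
    · exact ⟨1, one_pos, fun u hu => by rw [he] at hu; exact absurd hu (Set.notMem_empty u)⟩
    · obtain ⟨u, hu, hmin⟩ := Set.exists_min_image S (fun u => |er (Θ 0) u|) hSf hne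
      exact ⟨|er (Θ 0) u|, abs_pos.mpr (fun h0 => hu.2 (INA_adm hΘ h0)), hmin⟩
  obtain ⟨w, hw0, hw⟩ := INA_dirichlet hm (Θ 0) (lt_min hε one_pos)
  obtain ⟨u, hu, hu2⟩ := INB_exists hNm hN₁ hΘ hw0 (hw.trans_le (min_le_right _ _))
  refine ⟨len Nm u.1, ⟨u.1, fun _ => u.2, hu, rfl⟩, ?_⟩
  by_contra hcon
  push Not at hcon
  have h1 : u ∈ S := by
    refine ⟨⟨hcon, ?_⟩, ?_⟩
    · exact hu2.trans (hw.le.trans (min_le_right _ _))
    · intro h0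
      exact hu.1 (by rw [Set.mem_singleton_iff.mp h0]; rfl)
  have h2 := hεS u h1
  have := hw.trans_le (min_le_left _ _)
  linarith

end Pool.LE
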