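import Pool.Agent.Work.MP_7453a1_le.Interface

set_option autoImplicit false

/-! # Block INI (helper89): the first frame -/

namespace Pool.LE

open Finset

/-- the first frame -/
def INI_F (m : ℕ) : Fr (m + 1) where
  v := fun k => (fun l => if k = l then 1 else 0, 0)
  f := (fun _ => 1, -2)

theorem INI_A (m : ℕ) (k l : Fin (m + 1)) : (INI_F m).A k l = if k = l then 1 else 0 := by
  unfold Fr.A INI_F
  by_cases h : k = l
  · simp [h]
  · simp [h]

theorem INI_sum (m : ℕ) (b : Fin (m + 1) → ℤ) :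
    ∑ k, b k • (INI_F m).v k = (b, (0 : ℤ)) := by
  apply Prod.ext
  · funext l
    simp [INI_F, Prod.fst_sum, Finset.sum_apply]
  · simp [INI_F, Prod.snd_sum]

theorem p_INI : Stmt_INI := by
  intro m
  refine ⟨INI_F m, fun _ => 0, ⟨⟨⟨?_, ?_⟩, ?_, ?_⟩, one_pos, ?_, ?_, ?_, ?_⟩⟩
  · refine ⟨(fun _ => 1, -1), ?_⟩
    have h := INI_sum m fun _ => 1
    simp only [one_smul] at h
    rw [h]
    apply Prod.ext
    · funext l
      simp [INI_F]
    · simp [INI_F]
  · intro z
    refine ⟨fun k => 2 * z.1 k + z.2, -z.2, ?_, ?_⟩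
    · intro k
      exact ⟨z.1 k + z.2, by ring⟩
    · rw [INI_sum]
      apply Prod.ext
      · funext l
        simp only [INI_F, Prod.fst_add, Prod.smul_fst, Pi.add_apply, Pi.smul_apply, smul_eq_mul]
        ring
      · simp only [INI_F, Prod.snd_add, Prod.smul_snd, smul_eq_mul]
        ring
  · intro k
    simp [er, INI_F]
  · simp [er, INI_F]
  · intro k
    rw [INI_A, if_pos rfl]
    norm_num
  · intro k
    rw [INI_A, if_pos rfl]
    norm_num
  · intro l
    have h1 : ∀ k ∈ univ.erase l, |(INI_F m).A k l| = 0 := by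
      intro k hk
      rw [INI_A, if_neg (Finset.ne_of_mem_erase hk), abs_zero]
    rw [Finset.sum_congr rfl h1]
    simp
  · intro l
    simp [Fr.a, INI_F]

end Pool.LE
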