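import Pool.Agent.Work.MP_7453a1_le.Interface3
import Pool.Agent.Work.MP_7453a1_nt_norm.Frame
import Pool.Agent.Work.MP_7453a1_ld.B_LAG

set_option autoImplicit false

/-! # Block LGN: the bound of Lagarias in the general notation (helper60) -/

namespace Pool.LE

open Finset Filter Topology
open Pool.Agent.Work.MP_7453a1_nt_two (Admissible IsBest Lengths G g len err M)
open Pool.Agent.Work.MP_7453a1_nt_norm (IsNorm IsBestDenominator)
open Pool.LD (LAG_half LAG_er)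

/-- the vector of an `n × 1` matrix -/
def LGN_col {n : ℕ} (Θ : Matrix (Fin n) (Fin 1) ℝ) : Fin n → ℝ := fun i => Θ i 0

theorem LGN_ext {α : Type} {a b : Fin 1 → α} (h : a 0 = b 0) : a = b := by
  ext i
  rw [Subsingleton.elim i 0]
  exact h

theorem LGN_len (N₁ : Seminorm ℝ (Fin 1 → ℝ)) (x : Fin 1 → ℤ) :
    len N₁ x = |(x 0 : ℝ)| * N₁ (fun _ => (1 : ℝ)) := by
  have e : (fun j => (x j : ℝ) : Fin 1 → ℝ) = (x 0 : ℝ) • (fun _ => (1 : ℝ)) := by
    apply LGN_ext; simp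
  unfold len
  rw [e, map_smul_eq_mul, Real.norm_eq_abs]

theorem LGN_pos (N₁ : Seminorm ℝ (Fin 1 → ℝ)) (h1 : IsNorm N₁) :
    0 < N₁ (fun _ => (1 : ℝ)) := by
  rcases (apply_nonneg N₁ (fun _ => (1 : ℝ))).lt_or_eq with h | h
  · exact h
  · exact absurd (congrFun (h1 _ h.symm) 0) one_ne_zero

theorem LGN_err {n : ℕ} (Nn : Seminorm ℝ (Fin n → ℝ)) {Θ : Matrix (Fin n) (Fin 1) ℝ}
    (x : Fin 1 → ℤ) (y : Fin n → ℤ) :
    err Nn Θ x y = Pool.Agent.Work.MP_7453a1_nt_norm.err Nn (LGN_col Θ) (x 0) y := by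
  unfold err Pool.Agent.Work.MP_7453a1_nt_norm.err
  congr 1
  ext i
  rw [Fin.sum_univ_one, mul_comm]
  rfl

theorem LGN_adm {n : ℕ} {Θ : Matrix (Fin n) (Fin 1) ℝ} (h : Admissible Θ) :
    Pool.Agent.Work.MP_7453a1_nt_norm.Admissible (LGN_col Θ) := by
  intro q hq p
  obtain ⟨i, hi⟩ := h (fun _ => q) (fun h0 => hq (congrFun h0 0)) p
  refine ⟨i, ?_⟩
  rw [Fin.sum_univ_one, mul_comm] at hi
  exact hi

theorem LGN_best {n : ℕ} {N₁ : Seminorm ℝ (Fin 1 → ℝ)} (h1 : IsNorm N₁)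
    (Nn : Seminorm ℝ (Fin n → ℝ)) {Θ : Matrix (Fin n) (Fin 1) ℝ} (x : Fin 1 → ℤ)
    (y : Fin n → ℤ) :
    IsBest N₁ Nn Θ x y ↔ Pool.Agent.Work.MP_7453a1_nt_norm.IsBest Nn (LGN_col Θ) (x 0) y := by
  have hk := LGN_pos N₁ h1
  unfold IsBest Pool.Agent.Work.MP_7453a1_nt_norm.IsBest
  refine and_congr ⟨fun h h0 => h (LGN_ext h0), fun h h0 => h (congrFun h0 0)⟩
    ⟨fun h q' p' h1 h2 => ?_, fun h x' y' h1 h2 => ?_⟩
  · rcases h (fun _ => q') p' (by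
      rw [LGN_len, LGN_len]
      refine mul_le_mul_of_nonneg_right ?_ hk.le
      exact_mod_cast h1) (by rw [LGN_err, LGN_err]; exact h2) with ⟨a, b⟩ | ⟨a, b⟩ | ⟨a, b⟩
    · left; exact ⟨congrFun a 0, b⟩
    · right; left; exact ⟨congrFun a 0, b⟩
    · right; right; exact ⟨congrFun a 0, b⟩
  · rw [LGN_len, LGN_len] at h1
    have h3 := le_of_mul_le_mul_right h1 hk
    rw [LGN_err, LGN_err] at h2
    rcases h (x' 0) y' (by exact_mod_cast h3) h2 with ⟨a, b⟩ | ⟨a, b⟩ | ⟨a, b⟩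
    · left; exact ⟨LGN_ext a, b⟩
    · right; left; exact ⟨LGN_ext a, b⟩
    · right; right; exact ⟨LGN_ext a, b⟩

theorem LGN_lengths {n : ℕ} {N₁ : Seminorm ℝ (Fin 1 → ℝ)} (h1 : IsNorm N₁)
    (Nn : Seminorm ℝ (Fin n → ℝ)) {Θ : Matrix (Fin n) (Fin 1) ℝ} (r : ℝ) :
    r ∈ Lengths N₁ Nn Θ ↔
    ∃ k : ℕ, IsBestDenominator Nn (LGN_col Θ) k ∧ (k : ℝ) * N₁ (fun _ => (1 : ℝ)) = r := by
  constructor
  · rintro ⟨x, y, h, rfl⟩
    rw [LGN_best h1] at h
    refine ⟨(x 0).natAbs, ⟨x 0, y, h, rfl⟩, ?_⟩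
    rw [LGN_len, Nat.cast_natAbs, Int.cast_abs]
  · rintro ⟨k, ⟨q, p, h, hk⟩, rfl⟩
    refine ⟨fun _ => q, p, (LGN_best h1 Nn _ _).mpr h, ?_⟩
    rw [LGN_len, ← hk, Nat.cast_natAbs, Int.cast_abs]

theorem LGN_M {n : ℕ} {N₁ : Seminorm ℝ (Fin 1 → ℝ)} {Nn : Seminorm ℝ (Fin n → ℝ)}
    (h1 : IsNorm N₁) (hn : IsNorm Nn) {Θ : Matrix (Fin n) (Fin 1) ℝ} (hΘ : Admissible Θ)
    (ν : ℕ) :
    M N₁ Nn Θ (ν + 1) =
      (Pool.Agent.Work.MP_7453a1_nt_norm.M Nn (LGN_col Θ) (ν + 1) : ℝ) *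
        N₁ (fun _ => (1 : ℝ)) := by
  classical
  have hk := LGN_pos N₁ h1
  have hinf := Pool.Agent.Work.MP_7453a1_nt_norm.infinite hn (LGN_adm hΘ)
  set p := IsBestDenominator Nn (LGN_col Θ) with hp
  have hM : ∀ j, Pool.Agent.Work.MP_7453a1_nt_norm.M Nn (LGN_col Θ) (j + 1) = Nat.nth p j :=
    fun j => rfl
  have key : ∀ (j : ℕ) (r0 : ℝ),
      (∀ k, p k → (r0 < (k : ℝ) * N₁ (fun _ => (1 : ℝ)) ↔ Nat.nth p j ≤ k)) →
      sInf {r | r ∈ Lengths N₁ Nn Θ ∧ r0 < r} = (Nat.nth p j : ℝ) * N₁ (fun _ => (1 : ℝ)) := by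
    intro j r0 h
    have hmem := Nat.nth_mem_of_infinite hinf j
    refine IsLeast.csInf_eq ⟨⟨(LGN_lengths h1 Nn _).mpr ⟨_, hmem, rfl⟩, (h _ hmem).mpr le_rfl⟩, ?_⟩
    rintro r ⟨hr, hr0⟩
    obtain ⟨k, hk1, rfl⟩ := (LGN_lengths h1 Nn _).mp hr
    have h1 := (h k hk1).mp hr0
    exact mul_le_mul_of_nonneg_right (by exact_mod_cast h1) hk.le
  induction ν with
  | zero =>
    rw [hM]
    refine key 0 0 fun k hpk => ⟨fun _ => ?_, fun _ => ?_⟩
    · have := Nat.nth_count hpk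
      rw [← this]
      exact (Nat.nth_le_nth hinf).mpr (Nat.zero_le _)
    · refine mul_pos ?_ hk
      obtain ⟨q, y, h, hq⟩ := hpk
      have h0 := h.1
      have : 0 < k := by omega
      exact_mod_cast this
  | succ ν ih =>
    rw [hM (ν + 1)]
    show sInf {r | r ∈ Lengths N₁ Nn Θ ∧ M N₁ Nn Θ (ν + 1) < r} = _
    rw [ih, hM ν]
    refine key (ν + 1) _ fun k hpk => ?_
    have hcount := Nat.nth_count hpk
    rw [mul_lt_mul_iff_left₀ hk, Nat.cast_lt]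
    conv_lhs => rw [← hcount]
    conv_rhs => rw [← hcount]
    rw [Nat.nth_lt_nth hinf, Nat.nth_le_nth hinf]
    omega

/-- exponential growth gives a lower bound for `G` -/
theorem LGN_G {n : ℕ} {N₁ : Seminorm ℝ (Fin 1 → ℝ)} {Nn : Seminorm ℝ (Fin n → ℝ)}
    {Θ : Matrix (Fin n) (Fin 1) ℝ} {t c : ℝ} (ht : 0 < t) (hc : 0 < c)
    (h : ∀ᶠ ν in atTop, c * t ^ ν ≤ M N₁ Nn Θ ν) : ENNReal.ofReal t ≤ G N₁ Nn Θ := by
  have hlim : Tendsto (fun ν : ℕ => ENNReal.ofReal (c ^ (1 / (ν : ℝ)) * t)) atTop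
      (𝓝 (ENNReal.ofReal t)) := by
    apply ENNReal.tendsto_ofReal
    have h1 : Tendsto (fun ν : ℕ => c ^ (1 / (ν : ℝ))) atTop (𝓝 (c ^ (0 : ℝ))) := by
      apply Tendsto.rpow tendsto_const_nhds tendsto_one_div_atTop_nhds_zero_nat
      left
      positivity
    rw [Real.rpow_zero] at h1
    simpa using h1.mul_const t
  rw [← hlim.liminf_eq]
  unfold G
  refine liminf_le_liminf ?_
  filter_upwards [eventually_ge_atTop 1, h] with ν hν hM
  apply ENNReal.ofReal_le_ofReal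
  have hν0 : (0 : ℝ) < ν := by exact_mod_cast hν
  calc c ^ (1 / (ν : ℝ)) * t = (c * t ^ ν) ^ (1 / (ν : ℝ)) := by
        rw [Real.mul_rpow (by positivity) (by positivity)]
        congr 1
        rw [one_div, Real.pow_rpow_inv_natCast ht.le (by omega)]
    _ ≤ (M N₁ Nn Θ ν : ℝ) ^ (1 / (ν : ℝ)) := Real.rpow_le_rpow (by positivity) hM (by positivity)

/-- the growth of the sequence of the best denominators (the proof of block LAG) -/
theorem LGN_growth {n : ℕ} {N : Seminorm ℝ (Fin n → ℝ)} (hN : IsNorm N) {Θ : Fin n → ℝ}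
    (hΘ : Pool.Agent.Work.MP_7453a1_nt_norm.Admissible Θ) :
    ∃ c : ℝ, 0 < c ∧ ∀ᶠ ν in atTop, c * ((3 : ℝ) ^ (1 / (2 : ℝ) ^ (n + 1))) ^ ν ≤
      (Pool.Agent.Work.MP_7453a1_nt_norm.M N Θ ν : ℝ) := by
  obtain ⟨ν₀, z, hν, hz1, hz2, hz3, hz4, hz5, hz6⟩ :=
    Pool.Agent.Work.MP_7453a1_nt_norm.frame hN hΘ
  obtain ⟨P, hP⟩ : ∃ P : ℕ, P = 2 ^ (n + 1) := ⟨_, rfl⟩
  have hP0 : 0 < P := by rw [hP]; positivity
  have hmono : ∀ k l, k ≤ l → (z k).1 ≤ (z l).1 := by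
    intro k l hkl
    rcases Nat.eq_or_lt_of_le hkl with h | h
    · rw [h]
    · exact (hz3 k l h).le
  -- tripling
  have hstep : ∀ k, 3 * (z k).1 ≤ (z (k + P)).1 := by
    intro k
    have hcard : Fintype.card (ZMod 2 × (Fin n → ZMod 2)) < Fintype.card (Fin (P + 1)) := by
      rw [Fintype.card_prod, Fintype.card_fun, ZMod.card, Fintype.card_fin, Fintype.card_fin, hP,
        pow_succ]
      omega
    obtain ⟨i, j, hij, he⟩ := Fintype.exists_ne_map_eq_of_card_lt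
      (fun i : Fin (P + 1) => (((z (k + i)).1 : ZMod 2), fun l => ((z (k + i)).2 l : ZMod 2))) hcard
    obtain ⟨i, j, hij, he⟩ : ∃ i j : Fin (P + 1), i < j ∧
        (((z (k + i)).1 : ZMod 2), fun l => ((z (k + i)).2 l : ZMod 2)) =
          (((z (k + j)).1 : ZMod 2), fun l => ((z (k + j)).2 l : ZMod 2)) := by
      rcases lt_or_gt_of_ne hij with h | h
      · exact ⟨i, j, h, he⟩
      · exact ⟨j, i, h, he.symm⟩
    have hij' : (i : ℕ) < j := hij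
    have hjP : (j : ℕ) ≤ P := by have := j.2; omega
    obtain ⟨w, hw⟩ := LAG_half (z (k + i)) (z (k + j)) (congrArg Prod.fst he)
      (fun l => congrFun (congrArg Prod.snd he) l)
    have hlt := hz3 (k + i) (k + j) (by omega)
    have hw1 : w.1 + w.1 = (z (k + j)).1 - (z (k + i)).1 := congrArg Prod.fst hw
    have hw0 : w ≠ 0 := by
      intro h0
      rw [h0] at hw1
      simp only [Prod.fst_zero] at hw1
      omega
    have her := LAG_er N Θ w _ _ hw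
    have hlt2 := hz4 (k + i) (k + j) (by omega)
    have hge : (z (k + i + 1)).1 ≤ w.1 := by
      by_contra hcon
      have h1 : |w.1| < (z (k + i + 1)).1 := by
        rw [abs_of_pos (by omega)]
        omega
      have h2 := hz6 (k + i) w hw0 h1
      linarith
    have h3 := hz3 (k + i) (k + i + 1) (by omega)
    have h4 := hmono (k + j) (k + P) (by omega)
    have h5 := hmono k (k + i) (by omega)
    omega
  have hpow : ∀ q r : ℕ, (3 : ℤ) ^ q ≤ (z (q * P + r)).1 := by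
    intro q r
    induction q with
    | zero =>
      have := hz2 (0 * P + r)
      simp only [pow_zero]
      omega
    | succ q ih =>
      have h1 := hstep (q * P + r)
      have h2 : (q + 1) * P + r = q * P + r + P := by ring
      rw [h2, pow_succ]
      omega
  refine ⟨(3 : ℝ) ^ (-1 - (ν₀ : ℝ) / P), by positivity, ?_⟩
  filter_upwards [eventually_ge_atTop ν₀] with ν hν'
  obtain ⟨k, rfl⟩ := Nat.exists_eq_add_of_le hν'
  have h1 : ((Pool.Agent.Work.MP_7453a1_nt_norm.M N Θ (ν₀ + k) : ℕ) : ℝ) = ((z k).1 : ℝ) := by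
    have := hz1 k
    exact_mod_cast this.symm
  rw [h1]
  have h2 : (3 : ℝ) ^ (k / P) ≤ ((z k).1 : ℝ) := by
    have h3 := hpow (k / P) (k % P)
    rw [Nat.div_add_mod'] at h3
    exact_mod_cast h3
  refine le_trans ?_ h2
  have hP' : (0 : ℝ) < P := by exact_mod_cast hP0
  have hPr : (P : ℝ) = 2 ^ (n + 1) := by rw [hP]; push_cast; rfl
  rw [← hPr, ← Real.rpow_natCast ((3 : ℝ) ^ (1 / (P : ℝ))) (ν₀ + k),
    ← Real.rpow_mul (by norm_num), ← Real.rpow_add (by norm_num), ← Real.rpow_natCast]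
  refine Real.rpow_le_rpow_of_exponent_le (by norm_num) ?_
  have h4 : (k : ℝ) < P * ((k / P : ℕ) : ℝ) + P := by
    have h5 : k < P * (k / P) + P := by
      have h6 := Nat.div_add_mod k P
      have h7 := Nat.mod_lt k hP0
      omega
    exact_mod_cast h5
  have h8 : (k : ℝ) / P < ((k / P : ℕ) : ℝ) + 1 := by
    rw [div_lt_iff₀ hP']
    linarith
  have h9 : -1 - (ν₀ : ℝ) / P + 1 / (P : ℝ) * ((ν₀ + k : ℕ) : ℝ) = (k : ℝ) / P - 1 := by
    push_cast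
    field_simp
    ring
  rw [h9]
  linarith

theorem p_LGN : Stmt_LGN := by
  intro n _ N₁ Nn h1 hn Θ hΘ
  obtain ⟨c, hc, h⟩ := LGN_growth hn (LGN_adm hΘ)
  have hk := LGN_pos N₁ h1
  refine LGN_G (c := c * N₁ (fun _ => (1 : ℝ))) (by positivity) (by positivity) ?_
  filter_upwards [h, eventually_ge_atTop 1] with ν hν h1ν
  obtain ⟨j, rfl⟩ : ∃ j, ν = j + 1 := ⟨ν - 1, by omega⟩
  rw [LGN_M h1 hn hΘ]
  have := mul_le_mul_of_nonneg_right hν hk.le
  linarith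

end Pool.LE
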