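import Pool.Agent.Work.MP_7453a1_le.Interface

set_option autoImplicit false

/-! # MP_7453a1, joint theorem: block LIM (helper21) -/

namespace Pool.LE

open Finset Filter
open Pool.Agent.Work.MP_7453a1_nt_two (Admissible IsBest Lengths G g len err)

theorem LIM_M_le {a b : ℕ} (Nm : Seminorm ℝ (Fin a → ℝ)) (Nn : Seminorm ℝ (Fin b → ℝ))
    (Θ : Matrix (Fin b) (Fin a) ℝ) (ν : ℕ) (r : ℝ) (hr : r ∈ Lengths Nm Nn Θ)
    (h : Pool.Agent.Work.MP_7453a1_nt_two.M Nm Nn Θ ν < r) :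
    Pool.Agent.Work.MP_7453a1_nt_two.M Nm Nn Θ (ν + 1) ≤ r := by
  refine csInf_le ⟨Pool.Agent.Work.MP_7453a1_nt_two.M Nm Nn Θ ν, ?_⟩ ⟨hr, h⟩
  rintro x ⟨-, hx⟩
  exact hx.le

theorem LIM_M_mono {a b : ℕ} (Nm : Seminorm ℝ (Fin a → ℝ)) (Nn : Seminorm ℝ (Fin b → ℝ))
    (Θ : Matrix (Fin b) (Fin a) ℝ) (hub : ∀ R : ℝ, ∃ r ∈ Lengths Nm Nn Θ, R < r) (ν : ℕ) :
    Pool.Agent.Work.MP_7453a1_nt_two.M Nm Nn Θ ν ≤
      Pool.Agent.Work.MP_7453a1_nt_two.M Nm Nn Θ (ν + 1) := by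
  obtain ⟨r, hr, h⟩ := hub (Pool.Agent.Work.MP_7453a1_nt_two.M Nm Nn Θ ν)
  refine le_csInf ⟨r, hr, h⟩ ?_
  rintro x ⟨-, hx⟩
  exact hx.le

theorem LIM_M_nonneg {a b : ℕ} (Nm : Seminorm ℝ (Fin a → ℝ)) (Nn : Seminorm ℝ (Fin b → ℝ))
    (Θ : Matrix (Fin b) (Fin a) ℝ) (hub : ∀ R : ℝ, ∃ r ∈ Lengths Nm Nn Θ, R < r) (ν : ℕ) :
    0 ≤ Pool.Agent.Work.MP_7453a1_nt_two.M Nm Nn Θ ν := by
  have h := monotone_nat_of_le_succ (LIM_M_mono Nm Nn Θ hub) (Nat.zero_le ν)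
  exact h

open Classical in
theorem LIM_count {a b : ℕ} (Nm : Seminorm ℝ (Fin a → ℝ)) (Nn : Seminorm ℝ (Fin b → ℝ))
    (Θ : Matrix (Fin b) (Fin a) ℝ) (T : Finset ℝ) (hT : ∀ r ∈ T, r ∈ Lengths Nm Nn Θ ∧ 0 < r)
    (ν : ℕ) :
    (T.filter fun r => r ≤ Pool.Agent.Work.MP_7453a1_nt_two.M Nm Nn Θ ν).card ≤ ν := by
  induction ν with
  | zero =>
    rw [Nat.le_zero, Finset.card_eq_zero, Finset.filter_eq_empty_iff]
    intro r hr h
    have h1 := (hT r hr).2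
    have h2 : r ≤ 0 := h
    linarith
  | succ ν ih =>
    have hsub : (T.filter fun r => r ≤ Pool.Agent.Work.MP_7453a1_nt_two.M Nm Nn Θ (ν + 1)) ⊆
        insert (Pool.Agent.Work.MP_7453a1_nt_two.M Nm Nn Θ (ν + 1))
          (T.filter fun r => r ≤ Pool.Agent.Work.MP_7453a1_nt_two.M Nm Nn Θ ν) := by
      intro r hr
      rw [Finset.mem_filter] at hr
      rw [Finset.mem_insert, Finset.mem_filter]
      by_cases h : r ≤ Pool.Agent.Work.MP_7453a1_nt_two.M Nm Nn Θ ν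
      · exact Or.inr ⟨hr.1, h⟩
      · left
        push Not at h
        exact le_antisymm hr.2 (LIM_M_le Nm Nn Θ ν r (hT r hr.1).1 h)
    exact (Finset.card_le_card hsub).trans
      ((Finset.card_insert_le _ _).trans (Nat.succ_le_succ ih))

open Classical in
theorem LIM_bound {a b : ℕ} (Nm : Seminorm ℝ (Fin a → ℝ)) (Nn : Seminorm ℝ (Fin b → ℝ))
    (Θ : Matrix (Fin b) (Fin a) ℝ) (T : Finset ℝ) (hT : ∀ r ∈ T, r ∈ Lengths Nm Nn Θ ∧ 0 < r)
    (ν : ℕ) (X : ℝ) (hX : ∀ r ∈ T, r ≤ X) (hν : ν + 1 ≤ T.card) :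
    Pool.Agent.Work.MP_7453a1_nt_two.M Nm Nn Θ (ν + 1) ≤ X := by
  by_contra hcon
  have h1 := LIM_count Nm Nn Θ T hT ν
  have h2 : (T.filter fun r => r ≤ Pool.Agent.Work.MP_7453a1_nt_two.M Nm Nn Θ ν) = T := by
    rw [Finset.filter_eq_self]
    intro r hr
    by_contra h
    push Not at h
    exact hcon ((LIM_M_le Nm Nn Θ ν r (hT r hr).1 h).trans (hX r hr))
  rw [h2] at h1
  omega

/-- BLOCK LIM -/
theorem p_LIM : Stmt_LIM := by
  classical
  intro a b Nm Nn Θ m K hK hT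
  choose T hT using hT
  have hK1 : 1 ≤ K := by linarith
  have hmono : ∀ i j : ℕ, i ≤ j → K ^ i ≤ K ^ j := fun i j h => pow_le_pow_right₀ hK1 h
  have hub : ∀ R : ℝ, ∃ r ∈ Lengths Nm Nn Θ, R < r := by
    intro R
    obtain ⟨s, hs⟩ := pow_unbounded_of_one_lt R (show (1 : ℝ) < 2 by norm_num)
    have hne : (T s).Nonempty := by
      rw [← Finset.card_pos]
      exact lt_of_lt_of_le (by positivity) (hT s).1
    obtain ⟨r, hr⟩ := hne
    obtain ⟨h1, h2, -⟩ := (hT s).2 r hr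
    refine ⟨r, h1, ?_⟩
    have h3 : (2 : ℝ) ^ (s + 1) ≤ K ^ (s + 1) := pow_le_pow_left₀ (by norm_num) hK _
    rw [pow_succ] at h3
    linarith
  refine ⟨hub, ?_⟩
  have hpos : 0 < 2 ^ m := by positivity
  have hM : ∀ t : ℕ, Pool.Agent.Work.MP_7453a1_nt_two.M Nm Nn Θ ((t + 1) * 2 ^ m) ≤
      K ^ (t + 1) := by
    intro t
    have hdis : ∀ s ∈ range (t + 1), ∀ s' ∈ range (t + 1), s ≠ s' → Disjoint (T s) (T s') := by
      have key : ∀ s s', s < s' → Disjoint (T s) (T s') := by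
        intro s s' hss
        rw [Finset.disjoint_left]
        intro r h1 h2
        have h3 := ((hT s).2 r h1).2.2
        have h4 := ((hT s').2 r h2).2.1
        have h5 := hmono (s + 1) s' (by omega)
        have h6 : 2 * K ^ s' ≤ K ^ (s' + 1) := by
          rw [pow_succ, mul_comm]
          exact mul_le_mul_of_nonneg_left hK (by positivity)
        linarith
      intro s _ s' _ hne
      rcases lt_or_gt_of_ne hne with h | h
      · exact key s s' h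
      · exact (key s' s h).symm
    have hcard : (t + 1) * 2 ^ m ≤ ((range (t + 1)).biUnion T).card := by
      rw [Finset.card_biUnion hdis]
      calc (t + 1) * 2 ^ m = ∑ _s ∈ range (t + 1), 2 ^ m := by
            rw [Finset.sum_const, Finset.card_range, smul_eq_mul]
        _ ≤ ∑ s ∈ range (t + 1), (T s).card := Finset.sum_le_sum fun s _ => (hT s).1
    obtain ⟨ν, hν⟩ : ∃ ν, (t + 1) * 2 ^ m = ν + 1 :=
      Nat.exists_eq_add_one.2 (Nat.mul_pos (Nat.succ_pos t) hpos)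
    rw [hν] at hcard ⊢
    refine LIM_bound Nm Nn Θ ((range (t + 1)).biUnion T) ?_ ν _ ?_ hcard
    · intro r hr
      rw [Finset.mem_biUnion] at hr
      obtain ⟨s, -, hr⟩ := hr
      obtain ⟨h1, h2, -⟩ := (hT s).2 r hr
      have h3 : 0 < K ^ (s + 1) := by positivity
      exact ⟨h1, by linarith⟩
    · intro r hr
      rw [Finset.mem_biUnion] at hr
      obtain ⟨s, hs, hr⟩ := hr
      rw [Finset.mem_range] at hs
      exact ((hT s).2 r hr).2.2.trans (hmono _ _ (by omega))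
  set f : ℕ → ENNReal := fun ν : ℕ =>
    ENNReal.ofReal (Pool.Agent.Work.MP_7453a1_nt_two.M Nm Nn Θ ν ^ (1 / (ν : ℝ))) with hf
  set φ : ℕ → ℕ := fun t => (t + 1) * 2 ^ m with hφ
  have hφt : Tendsto φ atTop atTop := by
    refine tendsto_atTop_mono (fun t => ?_) tendsto_id
    change t ≤ (t + 1) * 2 ^ m
    calc t ≤ t + 1 := Nat.le_succ t
      _ ≤ (t + 1) * 2 ^ m := Nat.le_mul_of_pos_right _ hpos
  have h1 : G Nm Nn Θ ≤ liminf (fun t => f (φ t)) atTop := by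
    have h2 : liminf f atTop ≤ liminf f (map φ atTop) := liminf_le_liminf_of_le hφt
    exact h2
  have hfg : ∀ t, f (φ t) ≤ ENNReal.ofReal (K ^ (1 / (2 : ℝ) ^ m)) := by
    intro t
    refine ENNReal.ofReal_le_ofReal ?_
    have h3 : Pool.Agent.Work.MP_7453a1_nt_two.M Nm Nn Θ (φ t) ^ (1 / ((φ t : ℕ) : ℝ)) ≤
        (K ^ (t + 1)) ^ (1 / ((φ t : ℕ) : ℝ)) :=
      Real.rpow_le_rpow (LIM_M_nonneg Nm Nn Θ hub _) (hM t) (by positivity)
    refine h3.trans (le_of_eq ?_)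
    rw [← Real.rpow_natCast, ← Real.rpow_mul (by linarith)]
    congr 1
    rw [hφ]
    push_cast
    have h4 : ((t : ℝ) + 1) ≠ 0 := by positivity
    have h5 : ((2 : ℝ) ^ m) ≠ 0 := by positivity
    field_simp
  calc G Nm Nn Θ ≤ liminf (fun t => f (φ t)) atTop := h1
    _ ≤ liminf (fun _ : ℕ => ENNReal.ofReal (K ^ (1 / (2 : ℝ) ^ m))) atTop :=
        liminf_le_liminf (Eventually.of_forall hfg)
    _ = ENNReal.ofReal (K ^ (1 / (2 : ℝ) ^ m)) := tendsto_const_nhds.liminf_eq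

end Pool.LE

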