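import Pool.Agent.Work.MP_7453a1_le.Interface
import Pool.Agent.Work.MP_7453a1_ld.B_LNM

set_option autoImplicit false

namespace Pool.LE

open Finset Filter
open Pool.LD (L pat Sg)

theorem MNB_er_sub {n : ℕ} (Θ Θ' : Fin n → ℝ) (w : Pt n) :
    er Θ' w - er Θ w = ∑ j, (Θ' j - Θ j) * (w.1 j : ℝ) := by
  unfold er
  rw [sub_sub_sub_cancel_right, ← Finset.sum_sub_distrib]
  refine Finset.sum_congr rfl fun j _ => ?_
  ring

/-- all observed errors change by at most `5/2 s / Λ` -/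
theorem MNB_diff {n : ℕ} {G : Fr n} {X s : ℝ} {Θ Θ' : Fin n → ℝ} (hX : 0 < X) (hL : 0 < L n)
    (hA : ∀ k l, |G.A k l| ≤ 8 / 5 * X)
    (h : ∑ l, |Θ' l - Θ l| ≤ 25 * s / (16 * (X * L n))) (k : Fin n) :
    |er Θ' (G.v k) - er Θ (G.v k)| ≤ 5 / 2 * s / L n := by
  rw [MNB_er_sub]
  have h1 : |∑ j, (Θ' j - Θ j) * ((G.v k).1 j : ℝ)| ≤ (∑ j, |Θ' j - Θ j|) * (8 / 5 * X) := by
    refine (Finset.abs_sum_le_sum_abs _ _).trans ?_
    rw [Finset.sum_mul]
    refine Finset.sum_le_sum fun j _ => ?_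
    rw [abs_mul]
    exact mul_le_mul_of_nonneg_left (hA k j) (abs_nonneg _)
  have h2 : (∑ j, |Θ' j - Θ j|) * (8 / 5 * X) ≤ 25 * s / (16 * (X * L n)) * (8 / 5 * X) :=
    mul_le_mul_of_nonneg_right h (by positivity)
  have h3 : 25 * s / (16 * (X * L n)) * (8 / 5 * X) = 5 / 2 * s / L n := by
    field_simp
    ring
  linarith

theorem MNB_le {n : ℕ} {G : Fr n} {D : ℝ} {Θ Θ' : Fin n → ℝ}
    (h : ∀ k, |er Θ' (G.v k) - er Θ (G.v k)| ≤ D) (hD : 0 ≤ D) (S : Finset (Fin n)) :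
    ∑ l ∈ S, |er Θ' (G.v l)| ≤ ∑ l ∈ S, |er Θ (G.v l)| + n * D := by
  have h1 : ∑ l ∈ S, |er Θ' (G.v l)| ≤ ∑ l ∈ S, (|er Θ (G.v l)| + D) := by
    refine Finset.sum_le_sum fun l _ => ?_
    have h2 := h l
    have h3 := abs_sub_abs_le_abs_sub (er Θ' (G.v l)) (er Θ (G.v l))
    linarith
  rw [Finset.sum_add_distrib, Finset.sum_const, nsmul_eq_mul] at h1
  have h4 : (S.card : ℝ) * D ≤ n * D := by
    refine mul_le_mul_of_nonneg_right ?_ hD
    have := Finset.card_le_univ S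
    rw [Fintype.card_fin] at this
    exact_mod_cast this
  linarith

theorem p_MNB : Stmt_MNB := by
  intro n G s₀ X Θ₀ Θ Θ' s s' hn hX hs hA hM hmv hs' hs's
  obtain ⟨hL1, hL2, _⟩ := Pool.LD.p_LNM n hn
  have hL : 0 < L n := by linarith
  have hn' : (1 : ℝ) ≤ (n : ℝ) := by exact_mod_cast hn
  set D : ℝ := 5 / 2 * s / L n with hD
  have hDp : 0 < D := by positivity
  have hdiff := MNB_diff hX hL hA hmv
  have hLn : 40000 * (n : ℝ) ≤ L n := by nlinarith
  have hDs : D * L n = 5 / 2 * s := by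
    rw [hD]; field_simp
  have hkey : ((n : ℝ) + 1) * D + s' / 2 ≤ s / 2 := by
    have h1 : ((n : ℝ) + 3 / 2) * D ≤ s / 2 := by
      have h2 : D * (40000 * (n : ℝ)) ≤ 5 / 2 * s := by
        rw [← hDs]
        exact mul_le_mul_of_nonneg_left hLn hDp.le
      nlinarith
    nlinarith
  have hs4 : s' ≤ s / 100 := by
    have h2 : D * 10000 ≤ 5 / 2 * s := by
      rw [← hDs]
      exact mul_le_mul_of_nonneg_left hL2 hDp.le
    linarith
  refine ⟨fun k hk => absurd hk (by omega), fun k hk => ?_, fun _ => ?_, ?_⟩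
  · have h2 := hM.sup k hk
    have h3 := MNB_le hdiff hDp.le (univ.filter (· < k))
    have h4 := (abs_le.1 (hdiff k)).1
    linarith
  · have h2 := hM.sum hn
    have h3 := MNB_le hdiff hDp.le (univ : Finset (Fin n))
    linarith
  · have h1 : ∑ l, |Θ' l - Θ₀ l| ≤ ∑ l, |Θ' l - Θ l| + ∑ l, |Θ l - Θ₀ l| := by
      rw [← Finset.sum_add_distrib]
      exact Finset.sum_le_sum fun l _ => abs_sub_le _ _ _
    have h2 : 25 * s / (16 * (X * L n)) + 2 * (s₀ - s) / (X * L n) ≤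
        2 * (s₀ - s') / (X * L n) := by
      have e1 : 25 * s / (16 * (X * L n)) = (25 / 16 * s) / (X * L n) := by
        field_simp
      rw [e1, ← add_div]
      apply div_le_div_of_nonneg_right _ (by positivity)
      linarith
    linarith [hM.mv]

end Pool.LE
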