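import Pool.Agent.Work.MP_7453a1_le.Interface2
import Pool.Agent.Work.MP_7453a1_nt_norm.Frame

set_option autoImplicit false

/-!
# Block PCK: packing by Haar measure (typed by helper77)
-/

namespace Pool.LE

open Finset Filter MeasureTheory
open scoped ENNReal Pointwise
open Pool.Agent.Work.MP_7453a1_nt_norm (IsNorm)

/-- the open ball -/
def PCK_U {m : ℕ} (N : Seminorm ℝ (Fin m → ℝ)) (c : Fin m → ℝ) (r : ℝ) : Set (Fin m → ℝ) :=
  {x | N (x - c) < r}

lemma PCK_open {m : ℕ} (N : Seminorm ℝ (Fin m → ℝ)) (c : Fin m → ℝ) (r : ℝ) :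
    IsOpen (PCK_U N c r) := by
  have h1 : Continuous fun x : Fin m → ℝ => N (x - c) :=
    (Pool.Agent.Work.MP_7453a1_nt_norm.continuous_N N).comp (continuous_id.sub continuous_const)
  exact isOpen_lt h1 continuous_const

lemma PCK_vol {m : ℕ} (N : Seminorm ℝ (Fin m → ℝ)) (c : Fin m → ℝ) {r : ℝ} (hr : 0 < r) :
    volume (PCK_U N c r) = ENNReal.ofReal (r ^ m) * volume (PCK_U N 0 1) := by
  have h1 : PCK_U N c r = (fun x => x - c) ⁻¹' (r • PCK_U N 0 1) := by
    ext x
    rw [Set.mem_preimage, Set.mem_smul_set_iff_inv_smul_mem₀ hr.ne']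
    simp only [PCK_U, Set.mem_ofPred_eq, sub_zero]
    rw [map_smul_eq_mul, norm_inv, Real.norm_of_nonneg hr.le, inv_mul_lt_iff₀ hr, mul_one]
  rw [h1]
  have h2 : (fun x => x - c) = fun x : Fin m → ℝ => x + (-c) := by funext x; rw [sub_eq_add_neg]
  rw [h2, measure_preimage_add_right, Measure.addHaar_smul]
  simp only [Module.finrank_fintype_fun_eq_card, Fintype.card_fin]
  rw [abs_of_nonneg (by positivity)]

lemma PCK_pos {m : ℕ} (N : Seminorm ℝ (Fin m → ℝ)) : volume (PCK_U N 0 1) ≠ 0 := by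
  refine ((PCK_open N 0 1).measure_pos volume ⟨0, ?_⟩).ne'
  simp [PCK_U]

lemma PCK_fin {m : ℕ} (N : Seminorm ℝ (Fin m → ℝ)) (hN : IsNorm N) :
    volume (PCK_U N 0 1) ≠ ∞ := by
  obtain ⟨c, hc, h⟩ := Pool.Agent.Work.MP_7453a1_nt_norm.lower hN
  have h1 : PCK_U N 0 1 ⊆ Metric.closedBall 0 (1 / c) := by
    intro x hx
    simp only [PCK_U, Set.mem_ofPred_eq, sub_zero] at hx
    rw [mem_closedBall_zero_iff, le_div_iff₀ hc, mul_comm]
    exact (h x).trans hx.le
  exact ((measure_mono h1).trans_lt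
    (isCompact_closedBall (0 : Fin m → ℝ) (1 / c)).measure_lt_top).ne

theorem p_PCK : Stmt_PCK := by
  intro m N hN a b ha hb S hS hd
  have hb2 : 0 < b / 2 := by positivity
  have hab : 0 < a + b / 2 := by positivity
  have hdis : (S : Set (Fin m → ℝ)).PairwiseDisjoint (fun x => PCK_U N x (b / 2)) := by
    intro x hx y hy hxy
    rw [Function.onFun, Set.disjoint_left]
    intro z hz hz'
    simp only [PCK_U, Set.mem_ofPred_eq] at hz hz'
    have h1 := hd x hx y hy hxy
    have h2 : N (x - y) ≤ N (z - y) + N (z - x) := by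
      have : x - y = (z - y) - (z - x) := by abel
      rw [this]; exact map_sub_le_add N _ _
    linarith
  have h1 : volume (⋃ x ∈ S, PCK_U N x (b / 2)) = ∑ x ∈ S, volume (PCK_U N x (b / 2)) :=
    measure_biUnion_finset hdis fun x _ => (PCK_open N x _).measurableSet
  have h2 : (⋃ x ∈ S, PCK_U N x (b / 2)) ⊆ PCK_U N 0 (a + b / 2) := by
    intro z hz
    simp only [Set.mem_iUnion] at hz
    obtain ⟨x, hx, hz⟩ := hz
    simp only [PCK_U, Set.mem_ofPred_eq, sub_zero] at hz ⊢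
    have h3 : N z ≤ N x + N (z - x) := by
      have : z = x + (z - x) := by abel
      calc N z = N (x + (z - x)) := by rw [← this]
        _ ≤ _ := map_add_le_add N _ _
    have := hS x hx
    linarith
  have h3 := measure_mono (μ := volume) h2
  rw [h1, PCK_vol N 0 hab] at h3
  have h4 : ∑ x ∈ S, volume (PCK_U N x (b / 2)) =
      (S.card : ℝ≥0∞) * ENNReal.ofReal ((b / 2) ^ m) * volume (PCK_U N 0 1) := by
    rw [Finset.sum_congr rfl fun x _ => PCK_vol N x hb2, Finset.sum_const, nsmul_eq_mul, mul_assoc]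
  rw [h4, ENNReal.mul_le_mul_iff_left (PCK_pos N) (PCK_fin N hN)] at h3
  have h5 : (S.card : ℝ) * (b / 2) ^ m ≤ (a + b / 2) ^ m := by
    have h6 : (S.card : ℝ≥0∞) * ENNReal.ofReal ((b / 2) ^ m) =
        ENNReal.ofReal ((S.card : ℝ) * (b / 2) ^ m) := by
      rw [ENNReal.ofReal_mul (by positivity), ENNReal.ofReal_natCast]
    rw [h6] at h3
    exact (ENNReal.ofReal_le_ofReal_iff (by positivity)).1 h3
  have h7 : (2 * a + b) ^ m = 2 ^ m * (a + b / 2) ^ m := by
    rw [← mul_pow]; congr 1; ring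
  have h8 : b ^ m = 2 ^ m * (b / 2) ^ m := by
    rw [← mul_pow]; congr 1; ring
  rw [h7, h8]
  have h9 : (0 : ℝ) < 2 ^ m := by positivity
  nlinarith

end Pool.LE
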