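import Pool.Agent.Work.MP_7453a1_le.Interface
import Pool.Agent.Work.MP_7453a1_ld.B_PAT
import Pool.Agent.Work.MP_7453a1_ld.B_LNM
import Pool.Agent.Work.MP_7453a1_ld.B_SEQ

set_option autoImplicit false

/-! # Block SEQ: the sequence of frames and its limit -/

namespace Pool.LE

open Finset Filter
open Pool.LD (L pat Sg)

theorem SEQ_diff {n : ℕ} {Θ Θ' : Fin n → ℝ} {w : Pt n} {b c : ℝ} (hb : ∀ j, |Θ j - Θ' j| ≤ b)
    (hb0 : 0 ≤ b) (hc : ∀ j, |(w.1 j : ℝ)| ≤ c) : |er Θ w - er Θ' w| ≤ n * (b * c) := by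
  have e1 : er Θ w - er Θ' w = ∑ j, (Θ j - Θ' j) * (w.1 j : ℝ) := by
    unfold er
    have : ∑ j, (Θ j - Θ' j) * (w.1 j : ℝ) =
        ∑ j, Θ j * (w.1 j : ℝ) - ∑ j, Θ' j * (w.1 j : ℝ) := by
      rw [← Finset.sum_sub_distrib]
      refine Finset.sum_congr rfl fun j _ => ?_
      ring
    rw [this]
    ring
  rw [e1]
  refine (Finset.abs_sum_le_sum_abs _ _).trans ?_
  have h1 : ∀ j ∈ (univ : Finset (Fin n)), |(Θ j - Θ' j) * (w.1 j : ℝ)| ≤ b * c := by
    intro j _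
    rw [abs_mul]
    exact mul_le_mul (hb j) (hc j) (abs_nonneg _) hb0
  refine (Finset.sum_le_sum h1).trans ?_
  rw [Finset.sum_const, card_univ, Fintype.card_fin, nsmul_eq_mul]

theorem SEQ_patabs {m : ℕ} (k l : Fin (m + 1)) : |pat m k l| ≤ 7 / 5 := by
  obtain ⟨p1, p2, -⟩ := Pool.LD.p_PAT m
  by_cases h : k = l
  · subst h
    rw [abs_of_nonneg (by linarith [(p1 k).1])]
    exact (p1 k).2
  · rw [abs_of_nonneg (p2 k l h).1]
    linarith [(p2 k l h).2]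

theorem SEQ_num (m : ℕ) : (10000 : ℝ) ≤ L (m + 1) ∧
    ((m : ℝ) + 1) ^ 2 * 40000 ≤ L (m + 1) ∧ 1 ≤ KE m := by
  obtain ⟨h1, h2, -⟩ := Pool.LD.p_LNM (m + 1) (by omega)
  push_cast at h1 h2
  refine ⟨h2, by linarith, ?_⟩
  unfold KE
  exact one_le_pow₀ (by linarith)

theorem SEQ_A {m : ℕ} {F : Fr (m + 1)} {Θ : Fin (m + 1) → ℝ} {X : ℝ} (hT : Tight m F Θ X)
    (k l : Fin (m + 1)) : |((F.v k).1 l : ℝ)| ≤ 8 / 5 * X := by
  obtain ⟨n1, n2, -⟩ := SEQ_num m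
  have hX := hT.pos
  have hL0 : 0 < L (m + 1) := by linarith
  have hm : (0 : ℝ) ≤ m := Nat.cast_nonneg m
  have h1 : |F.A k l - X * pat m k l| ≤ X / 10 := by
    refine (hT.cl k l).trans ?_
    have h2 : 4 * ((m : ℝ) + 1) / L (m + 1) ≤ 1 / 10 := by
      rw [div_le_iff₀ hL0]
      nlinarith
    have h3 := mul_le_mul_of_nonneg_right h2 hX.le
    linarith
  have h2 : |X * pat m k l| ≤ 7 / 5 * X := by
    rw [abs_mul, abs_of_pos hX]
    have := mul_le_mul_of_nonneg_left (SEQ_patabs k l) hX.le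
    linarith
  have h3 : ((F.v k).1 l : ℝ) = (F.A k l - X * pat m k l) + X * pat m k l := by
    unfold Fr.A
    ring
  rw [h3]
  refine (abs_add_le _ _).trans ?_
  linarith

theorem SEQ_clu {m : ℕ} {G : Fr (m + 1)} {Θ₁ Θ₂ Θ : Fin (m + 1) → ℝ} {X X₂ e₂ : ℝ}
    (hT : Tight m G Θ₁ X) (hM : Mon G (er Θ₁ G.f) X (m + 1) Θ₁ Θ₂ e₂) (he₂ : 0 < e₂)
    (hX₂ : X₂ = X * KE m)
    (h1 : ∀ j, |Θ j - Θ₁ j| ≤ 2 * er Θ₁ G.f / (X * L (m + 1)))
    (h2 : ∀ j, |Θ j - Θ₂ j| ≤ 2 * e₂ / (X₂ * L (m + 1))) : Clu m G X (er Θ₁ G.f) Θ := by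
  obtain ⟨n1, n2, n3⟩ := SEQ_num m
  have hX := hT.pos
  have he₁ : 0 < er Θ₁ G.f := hT.cen.pos
  set e₁ : ℝ := er Θ₁ G.f with he1
  have hL0 : 0 < L (m + 1) := by linarith
  have hm : (0 : ℝ) ≤ m := Nat.cast_nonneg m
  have hK0 : 0 < KE m := by linarith
  -- the error of f
  have hef : |er Θ G.f - e₁| ≤ e₁ / 1000 := by
    have h3 := SEQ_diff (Θ := Θ) (Θ' := Θ₁) (w := G.f) (c := 2 * X / L (m + 1)) h1
      (by positivity) hT.fs
    refine h3.trans ?_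
    have h4 : ((m + 1 : ℕ) : ℝ) * (2 * e₁ / (X * L (m + 1)) * (2 * X / L (m + 1))) =
        4 * ((m : ℝ) + 1) * e₁ / (L (m + 1) * L (m + 1)) := by
      push_cast
      field_simp
      ring
    rw [h4, div_le_iff₀ (by positivity)]
    have h5 : 4000 * ((m : ℝ) + 1) ≤ L (m + 1) * L (m + 1) := by nlinarith
    nlinarith
  -- the errors of the v
  obtain ⟨δ, hδ⟩ : ∃ δ : ℝ, δ = ((m + 1 : ℕ) : ℝ) * (2 * e₂ / (X₂ * L (m + 1)) * (8 / 5 * X)) :=
    ⟨_, rfl⟩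
  have hX₂0 : 0 < X₂ := by rw [hX₂]; positivity
  have hδ0 : 0 ≤ δ := by
    rw [hδ]
    positivity
  have hdiff : ∀ k, |er Θ (G.v k) - er Θ₂ (G.v k)| ≤ δ := by
    intro k
    rw [hδ]
    exact SEQ_diff h2 (by positivity) (fun j => SEQ_A hT k j)
  have hδs : ((m : ℝ) + 1) * δ ≤ e₂ / 1000 := by
    have h4 : ((m : ℝ) + 1) * δ = (16 / 5 * ((m : ℝ) + 1) ^ 2 * e₂) / (L (m + 1) * KE m) := by
      rw [hδ, hX₂]
      push_cast
      field_simp
      ring
    rw [h4, div_le_iff₀ (by positivity)]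
    have h5 : 16 / 5 * ((m : ℝ) + 1) ^ 2 ≤ L (m + 1) / 1000 := by linarith
    have h6 : L (m + 1) / 1000 ≤ L (m + 1) * KE m / 1000 := by
      have := mul_le_mul_of_nonneg_left n3 hL0.le
      linarith
    have h7 := mul_le_mul_of_nonneg_right (h5.trans h6) he₂.le
    linarith
  have habs : ∀ k, |er Θ (G.v k)| ≤ |er Θ₂ (G.v k)| + δ := by
    intro k
    have h3 := abs_sub_abs_le_abs_sub (er Θ (G.v k)) (er Θ₂ (G.v k))
    linarith [hdiff k]
  refine ⟨hT.cen.good, hX, he₁, hT.cl, hT.fs, hef, ?_, ?_⟩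
  · intro k
    have h3 := hM.sup k (by omega)
    have h4 : ∑ l ∈ univ.filter (· < k), |er Θ (G.v l)| ≤
        ∑ l ∈ univ.filter (· < k), |er Θ₂ (G.v l)| + m * δ := by
      refine (Finset.sum_le_sum fun l _ => habs l).trans ?_
      rw [Finset.sum_add_distrib, Finset.sum_const, nsmul_eq_mul]
      have h5 : (univ.filter (· < k)).card ≤ m := by
        have h6 : univ.filter (· < k) ⊆ univ.erase k := by
          intro l hl
          exact mem_erase.2 ⟨ne_of_lt (mem_filter.1 hl).2, mem_univ l⟩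
        have h7 := Finset.card_le_card h6
        rw [Finset.card_erase_of_mem (mem_univ k), card_univ, Fintype.card_fin] at h7
        exact h7
      have h8 : (((univ.filter (· < k)).card : ℕ) : ℝ) ≤ (m : ℝ) := by exact_mod_cast h5
      have h9 := mul_le_mul_of_nonneg_right h8 hδ0
      linarith
    have h5 := (abs_le.1 (hdiff k)).1
    linarith
  · have h3 := hM.sum (by omega)
    have h4 : ∑ k, |er Θ (G.v k)| ≤ ∑ k, |er Θ₂ (G.v k)| + (m + 1) * δ := by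
      refine (Finset.sum_le_sum fun l _ => habs l).trans ?_
      rw [Finset.sum_add_distrib, Finset.sum_const, card_univ, Fintype.card_fin, nsmul_eq_mul]
      push_cast
      exact le_rfl
    have h5 : 4 * e₁ / L (m + 1) ≤ e₁ / 1000 := by
      rw [div_le_iff₀ hL0]
      have := mul_le_mul_of_nonneg_left n1 he₁.le
      linarith
    linarith

theorem p_SEQ (hSTG : Stmt_STG) (hTGL : Stmt_TGL) (hINI : Stmt_INI) : Stmt_SEQ := by
  classical
  intro m
  obtain ⟨F0, Θ0, hF0⟩ := hINI m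
  obtain ⟨n1, n2, n3⟩ := SEQ_num m
  have hΛ0 : 0 < L (m + 1) := by linarith
  choose nF nΘ hn1 hn2 using
    fun p : {p : Fr (m + 1) × (Fin (m + 1) → ℝ) × ℝ // Loose p.1 p.2.1 p.2.2} =>
      hSTG m p.1.1 p.1.2.1 p.1.2.2 p.2
  let st : {p : Fr (m + 1) × (Fin (m + 1) → ℝ) × ℝ // Loose p.1 p.2.1 p.2.2} →
      {p : Fr (m + 1) × (Fin (m + 1) → ℝ) × ℝ // Loose p.1 p.2.1 p.2.2} :=
    fun p => ⟨(nF p, nΘ p, p.1.2.2 * KE m), hTGL m _ _ _ (hn1 p)⟩
  let S : ℕ → {p : Fr (m + 1) × (Fin (m + 1) → ℝ) × ℝ // Loose p.1 p.2.1 p.2.2} :=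
    fun s => Nat.rec ⟨(F0, Θ0, 1), hF0⟩ (fun _ p => st p) s
  obtain ⟨G, hG⟩ : ∃ G : ℕ → Fr (m + 1), G = fun s => (S s).1.1 := ⟨_, rfl⟩
  obtain ⟨T, hTd⟩ : ∃ T : ℕ → Fin (m + 1) → ℝ, T = fun s => (S s).1.2.1 := ⟨_, rfl⟩
  obtain ⟨X, hXd⟩ : ∃ X : ℕ → ℝ, X = fun s => (S s).1.2.2 := ⟨_, rfl⟩
  have hloose : ∀ s, Loose (G s) (T s) (X s) := by
    intro s
    rw [hG, hTd, hXd]
    exact (S s).2
  have hXs : ∀ s, X (s + 1) = X s * KE m := by
    intro s
    rw [hXd]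
  have hX0 : X 0 = 1 := by
    rw [hXd]
    rfl
  have hXK : ∀ s, X s = KE m ^ s := by
    intro s
    induction s with
    | zero => rw [hX0, pow_zero]
    | succ s ih => rw [hXs, ih, pow_succ]
  have htight : ∀ s, Tight m (G (s + 1)) (T (s + 1)) (X (s + 1)) := by
    intro s
    rw [hG, hTd, hXd]
    exact hn1 (S s)
  have hmon : ∀ s, Mon (G s) (er (T s) (G s).f) (X s) (m + 1) (T s) (T (s + 1))
      (er (T (s + 1)) (G (s + 1)).f) := by
    intro s
    rw [hG, hTd, hXd]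
    exact hn2 (S s)
  obtain ⟨e, he⟩ : ∃ e : ℕ → ℝ, e = fun s => er (T s) (G s).f := ⟨_, rfl⟩
  have he0 : ∀ s, 0 < e s := by
    intro s
    rw [he]
    exact (hloose s).cen.pos
  have hXpos : ∀ s, 0 < X s := fun s => (hloose s).pos
  have hXle : ∀ s, X s ≤ X (s + 1) := by
    intro s
    rw [hXs]
    have := mul_le_mul_of_nonneg_left n3 (hXpos s).le
    linarith
  have hmon' : ∀ s, Mon (G s) (e s) (X s) (m + 1) (T s) (T (s + 1)) (e (s + 1)) := by
    intro s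
    rw [he]
    exact hmon s
  have hes : ∀ s, e (s + 1) ≤ e s / 4 := by
    intro s
    have h1 := (hmon' s).sum (by omega)
    have h2 : 0 ≤ ∑ k, |er (T (s + 1)) ((G s).v k)| := Finset.sum_nonneg fun _ _ => abs_nonneg _
    have h3 : 4 * e s / L (m + 1) ≤ e s / 8 := by
      rw [div_le_iff₀ hΛ0]
      have := mul_le_mul_of_nonneg_left n1 (he0 s).le
      linarith [he0 s]
    linarith
  obtain ⟨b, hb⟩ : ∃ b : ℕ → ℝ, b = fun s => 2 * e s / (X s * L (m + 1)) := ⟨_, rfl⟩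
  have hb0 : ∀ s, 0 ≤ b s := by
    intro s
    rw [hb]
    have h1 := he0 s
    have h2 := hXpos s
    positivity
  have hb1 : ∀ s, b (s + 1) ≤ 2 * e (s + 1) / (X s * L (m + 1)) := by
    intro s
    rw [hb]
    have h1 := he0 (s + 1)
    have h2 := hXpos s
    refine div_le_div_of_nonneg_left (by positivity) (by positivity) ?_
    exact mul_le_mul_of_nonneg_right (hXle s) hΛ0.le
  have hb4 : ∀ s, 4 * b (s + 1) ≤ b s := by
    intro s
    have h1 := hb1 s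
    have h2 := hes s
    have h3 := hXpos s
    have h4 : 4 * (2 * e (s + 1) / (X s * L (m + 1))) ≤ b s := by
      rw [hb]
      have h5 : 4 * (2 * e (s + 1) / (X s * L (m + 1))) =
          2 * (4 * e (s + 1)) / (X s * L (m + 1)) := by ring
      rw [h5]
      refine div_le_div_of_nonneg_right ?_ (by positivity)
      linarith
    linarith
  have hlim : ∀ l, ∃ y, ∀ s, |y - T s l| ≤ b s := by
    intro l
    refine Pool.LD.SEQ_lim (fun s => T s l) b hb0 hb4 (fun s => ?_)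
    have h1 := (hmon' s).mv
    have h2 : |T (s + 1) l - T s l| ≤ ∑ l, |T (s + 1) l - T s l| :=
      Finset.single_le_sum (f := fun l => |T (s + 1) l - T s l|) (fun _ _ => abs_nonneg _)
        (mem_univ l)
    have h3 : 2 * (e s - e (s + 1)) / (X s * L (m + 1)) =
        b s - 2 * e (s + 1) / (X s * L (m + 1)) := by
      rw [hb]
      ring
    have h4 := hb1 s
    linarith
  choose Θ hΘ using hlim
  refine ⟨fun s => G (s + 1), fun s => e (s + 1), Θ, fun s => ?_⟩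
  have h1 := SEQ_clu (Θ := Θ) (Θ₂ := T (s + 2)) (X₂ := X (s + 2)) (e₂ := e (s + 2)) (htight s)
    (by rw [he]; exact hmon (s + 1)) (he0 (s + 2)) (hXs (s + 1))
    (fun j => by
      have h2 := hΘ j (s + 1)
      rw [hb, he] at h2
      exact h2)
    (fun j => by
      have h2 := hΘ j (s + 2)
      rw [hb] at h2
      exact h2)
  rw [← hXK (s + 1)]
  have h2 : e (s + 1) = er (T (s + 1)) (G (s + 1)).f := by rw [he]
  show Clu m (G (s + 1)) (X (s + 1)) (e (s + 1)) Θ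
  rw [h2]
  exact h1

end Pool.LE
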