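import Pool.Agent.Work.MP_7453a1_le.Interface

set_option autoImplicit false

namespace Pool.LE

open Finset Filter

theorem p_SLV : Stmt_SLV := by
  intro n i D T hD hDi hrow hTi hTi' hT
  let M : Matrix (Fin n) (Fin n) ℝ := Matrix.of fun l k => D k l
  have hdet : M.det ≠ 0 := by
    refine det_ne_zero_of_sum_row_lt_diag fun l => ?_
    have h1 := hrow l
    have h2 := hD l
    have h3 : ‖M l l‖ = D l l := by
      show ‖D l l‖ = D l l
      rw [Real.norm_eq_abs, abs_of_nonneg (by linarith)]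
    have h4 : ∑ k ∈ univ.erase l, ‖M l k‖ = ∑ k ∈ univ.erase l, |D k l| := rfl
    rw [h3, h4]
    linarith
  have hunit : IsUnit M.det := isUnit_iff_ne_zero.2 hdet
  let γ : Fin n → ℝ := M⁻¹.mulVec T
  have hγ : M.mulVec γ = T := by
    show M.mulVec (M⁻¹.mulVec T) = T
    rw [Matrix.mulVec_mulVec, Matrix.mul_nonsing_inv _ hunit, Matrix.one_mulVec]
  have hsum : ∀ l, ∑ k, γ k * D k l = T l := by
    intro l
    have h1 := congrFun hγ l
    rw [← h1]
    show ∑ k, γ k * D k l = ∑ k, D k l * γ k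
    exact Finset.sum_congr rfl fun k _ => mul_comm _ _
  -- the off-diagonal part
  have hoff : ∀ (l : Fin n) (Y : ℝ), (∀ k ∈ univ.erase l, |γ k| ≤ Y) → 0 ≤ Y →
      |T l - γ l * D l l| ≤ 4 / 25 * Y := by
    intro l Y hY hY0
    have h1 : T l - γ l * D l l = ∑ k ∈ univ.erase l, γ k * D k l := by
      rw [← hsum l, ← Finset.add_sum_erase univ _ (Finset.mem_univ l)]
      ring
    rw [h1]
    refine (Finset.abs_sum_le_sum_abs _ _).trans ?_
    calc ∑ k ∈ univ.erase l, |γ k * D k l| ≤ ∑ k ∈ univ.erase l, Y * |D k l| := by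
          refine Finset.sum_le_sum fun k hk => ?_
          rw [abs_mul]
          exact mul_le_mul_of_nonneg_right (hY k hk) (abs_nonneg _)
      _ = Y * ∑ k ∈ univ.erase l, |D k l| := by rw [Finset.mul_sum]
      _ ≤ Y * (4 / 25) := mul_le_mul_of_nonneg_left (hrow l) hY0
      _ = 4 / 25 * Y := by ring
  have hTabs : ∀ l, |T l| ≤ 71 / 50 := by
    intro l
    by_cases hl : l = i
    · rw [hl, abs_of_nonneg (by linarith)]
      exact hTi'
    · exact (hT l hl).trans (by norm_num)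
  have hne : (univ : Finset (Fin n)).Nonempty := ⟨i, Finset.mem_univ i⟩
  obtain ⟨l₀, -, hl₀⟩ := Finset.exists_max_image univ (fun l => |γ l|) hne
  have hY : |γ l₀| ≤ 71 / 32 := by
    have h1 := hoff l₀ |γ l₀| (fun k _ => hl₀ k (Finset.mem_univ k)) (abs_nonneg _)
    have h2 := hTabs l₀
    have h3 : |γ l₀ * D l₀ l₀| ≤ |T l₀| + 4 / 25 * |γ l₀| := by
      have h4 : γ l₀ * D l₀ l₀ = T l₀ - (T l₀ - γ l₀ * D l₀ l₀) := by ring
      calc |γ l₀ * D l₀ l₀| = |T l₀ - (T l₀ - γ l₀ * D l₀ l₀)| := by rw [← h4]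
        _ ≤ |T l₀| + |T l₀ - γ l₀ * D l₀ l₀| := abs_sub _ _
        _ ≤ _ := by linarith
    rw [abs_mul, abs_of_nonneg (by linarith [hD l₀] : 0 ≤ D l₀ l₀)] at h3
    have h5 : |γ l₀| * (4 / 5) ≤ |γ l₀| * D l₀ l₀ :=
      mul_le_mul_of_nonneg_left (hD l₀) (abs_nonneg _)
    linarith
  have hall : ∀ l, |γ l| ≤ 71 / 32 := fun l => (hl₀ l (Finset.mem_univ l)).trans hY
  have hsmall : ∀ l, l ≠ i → |γ l| ≤ 83 / 160 := by
    intro l hl
    have h1 := hoff l (71 / 32) (fun k _ => hall k) (by norm_num)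
    have h2 := hT l hl
    have h3 : |γ l * D l l| ≤ |T l| + 4 / 25 * (71 / 32) := by
      have h4 : γ l * D l l = T l - (T l - γ l * D l l) := by ring
      calc |γ l * D l l| = |T l - (T l - γ l * D l l)| := by rw [← h4]
        _ ≤ |T l| + |T l - γ l * D l l| := abs_sub _ _
        _ ≤ _ := by linarith
    rw [abs_mul, abs_of_nonneg (by linarith [hD l] : 0 ≤ D l l)] at h3
    have h5 : |γ l| * (4 / 5) ≤ |γ l| * D l l :=
      mul_le_mul_of_nonneg_left (hD l) (abs_nonneg _)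
    linarith
  have hi := hoff i (83 / 160) (fun k hk => hsmall k (Finset.ne_of_mem_erase hk)) (by norm_num)
  have hi2 := abs_le.1 hi
  have hDi0 := hD i
  have hpos : 0 < γ i := by
    by_contra hcon
    push Not at hcon
    have : γ i * D i i ≤ 0 := mul_nonpos_of_nonpos_of_nonneg hcon (by linarith)
    linarith [hi2.1, hi2.2]
  refine ⟨γ, hsum, fun l => (hall l).trans (by norm_num), ?_, ?_⟩
  · have h1 : γ i * D i i ≤ γ i * (8 / 5) := mul_le_mul_of_nonneg_left hDi hpos.le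
    linarith [hi2.1, hi2.2]
  · have h1 : γ i * (4 / 5) ≤ γ i * D i i := mul_le_mul_of_nonneg_left hDi0 hpos.le
    linarith [hi2.1, hi2.2]

end Pool.LE
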