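import Pool.Agent.Work.MP_7453a1_le.Interface
import Pool.Agent.Work.MP_7453a1_ld.B_PAT
import Pool.Agent.Work.MP_7453a1_ld.B_LNM

set_option autoImplicit false

/-! # Block STA: a step of the first half of a stage -/

namespace Pool.LE

open Finset Filter
open Pool.LD (L pat Sg)

theorem STA_row (m : ℕ) (G : Fr (m + 1)) (Θ₀ : Fin (m + 1) → ℝ) (X : ℝ) (hG : Loose G Θ₀ X)
    (B : Fin (m + 1) → Fin (m + 1) → ℝ)
    (hB : ∀ l i, |B l i| ≤ |G.A l i| / X + |pat m l i| + 2 * ((m : ℝ) + 1) / L (m + 1))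
    (i : Fin (m + 1)) : ∑ l ∈ univ.erase i, |B l i| ≤ 4 / 25 := by
  have hX := hG.pos
  obtain ⟨h1, h2, -⟩ := Pool.LD.p_LNM (m + 1) (by omega)
  push_cast at h1
  have hL0 : 0 < L (m + 1) := by linarith
  have hp := (Pool.LD.p_PAT m).2.2.2.1 i
  have e1 : ∑ l ∈ univ.erase i, |G.A l i| / X ≤ 1 / 10 := by
    rw [← Finset.sum_div, div_le_iff₀ hX]
    have := hG.off i
    linarith
  have e2 : ∑ l ∈ univ.erase i, (2 * ((m : ℝ) + 1) / L (m + 1)) ≤ 1 / 20000 := by
    rw [Finset.sum_const, Finset.card_erase_of_mem (Finset.mem_univ i), Finset.card_univ,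
      Fintype.card_fin, nsmul_eq_mul, Nat.add_sub_cancel, ← mul_div_assoc, div_le_iff₀ hL0]
    have : (0 : ℝ) ≤ m := Nat.cast_nonneg m
    nlinarith
  calc ∑ l ∈ univ.erase i, |B l i|
      ≤ ∑ l ∈ univ.erase i, (|G.A l i| / X + |pat m l i| + 2 * ((m : ℝ) + 1) / L (m + 1)) :=
        Finset.sum_le_sum fun l _ => hB l i
    _ = ∑ l ∈ univ.erase i, |G.A l i| / X + ∑ l ∈ univ.erase i, |pat m l i| +
        ∑ l ∈ univ.erase i, (2 * ((m : ℝ) + 1) / L (m + 1)) := by
        rw [Finset.sum_add_distrib, Finset.sum_add_distrib]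
    _ ≤ 4 / 25 := by linarith

theorem STA_A_ne {n : ℕ} (F : Fr n) (k : Fin n) (c : Fin n → ℤ) (l : Fin n) (h : l ≠ k)
    (i : Fin n) : (F.nxt k c).A l i = F.A l i := by
  show (((Function.update F.v k (∑ l, (2 * c l) • F.v l - F.f) l).1 i : ℤ) : ℝ) = ((F.v l).1 i : ℝ)
  rw [Function.update_of_ne h]

theorem STA_A_self {n : ℕ} (F : Fr n) (k : Fin n) (c : Fin n → ℤ) (i : Fin n) :
    (F.nxt k c).A k i = ∑ l, (2 * (c l : ℝ)) * F.A l i - F.a i := by
  unfold Fr.A Fr.nxt Fr.a
  simp only [Function.update_self, Prod.fst_sub, Pi.sub_apply, Prod.fst_sum, Finset.sum_apply,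
    Prod.smul_fst, Pi.smul_apply, smul_eq_mul]
  push_cast
  rfl

theorem p_STA (hSLV : Stmt_SLV) (hSTP : Stmt_STP) (hMNA : Stmt_MNA) : Stmt_STA := by
  intro m G Θ₀ X hG F Θ j hj hF
  have hX := hG.pos
  obtain ⟨hN1, hN2, -⟩ := Pool.LD.p_LNM (m + 1) (by omega)
  push_cast at hN1
  set Λ : ℝ := L (m + 1) with hΛ
  have hL0 : 0 < Λ := by linarith
  have hm0 : (0 : ℝ) ≤ m := Nat.cast_nonneg m
  have hmL : 2 * ((m : ℝ) + 1) / Λ ≤ 1 / 20000 := by
    rw [div_le_iff₀ hL0]
    nlinarith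
  have hmL0 : 0 ≤ 2 * ((m : ℝ) + 1) / Λ := by positivity
  obtain ⟨hP1, hP2, -, hP4, -⟩ := Pool.LD.p_PAT m
  obtain ⟨k, hk⟩ : ∃ k : Fin (m + 1), (k : ℕ) = m - j := ⟨⟨m - j, by omega⟩, rfl⟩
  have hkj : (k : ℕ) + j + 1 = m + 1 := by omega
  set S : Fin (m + 1) → ℝ := fun l =>
    if m + 1 ≤ (l : ℕ) + j then X * Λ ^ (m + 1 - (l : ℕ)) else X with hS
  have hS0 : ∀ l, 0 < S l := by
    intro l
    show 0 < (if m + 1 ≤ (l : ℕ) + j then X * Λ ^ (m + 1 - (l : ℕ)) else X)
    split_ifs
    · positivity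
    · exact hX
  have hSk : S k = X := if_neg (by omega)
  set X' : ℝ := X * Λ ^ (m + 1 - (k : ℕ)) with hX'
  have hke : m + 1 - (k : ℕ) = j + 1 := by omega
  have hX'0 : 0 < X' := by positivity
  have hΛ1 : (1 : ℝ) ≤ Λ := by linarith
  have hX'e : X' = X * Λ ^ j * Λ := by rw [hX', hke, pow_succ]; ring
  have hpj : 1 ≤ Λ ^ j := one_le_pow₀ hΛ1
  have hSle : ∀ l, S l ≤ X' / Λ := by
    intro l
    rw [hX'e, mul_div_assoc, div_self hL0.ne', mul_one]
    show (if m + 1 ≤ (l : ℕ) + j then X * Λ ^ (m + 1 - (l : ℕ)) else X) ≤ _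
    split_ifs with h
    · exact mul_le_mul_of_nonneg_left (pow_le_pow_right₀ hΛ1 (by omega)) hX.le
    · exact le_mul_of_one_le_right hX.le hpj
  have hXX' : X ≤ X' / Λ := by rw [← hSk]; exact hSle k
  have hXLX' : X * Λ ≤ X' := by rwa [le_div_iff₀ hL0] at hXX'
  -- the columns
  have hold : ∀ l : Fin (m + 1), (l : ℕ) + j < m + 1 → ∀ i, F.A l i = G.A l i := by
    intro l hl i
    unfold Fr.A
    rw [hF.old l hl]
  have hGA : ∀ l i, l ≠ i → |G.A l i| ≤ X / 10 := by
    intro l i hli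
    refine le_trans ?_ (hG.off i)
    exact Finset.single_le_sum (f := fun l => |G.A l i|) (fun _ _ => abs_nonneg _)
      (Finset.mem_erase.2 ⟨hli, Finset.mem_univ l⟩)
  have hGA2 : ∀ l i, |G.A l i| ≤ 3 / 2 * X := by
    intro l i
    by_cases hli : l = i
    · subst hli
      have e1 := hG.dl l
      have e2 := hG.du l
      rw [abs_le]
      constructor <;> linarith
    · have := hGA l i hli
      linarith
  have hnew : ∀ l : Fin (m + 1), m + 1 ≤ (l : ℕ) + j → ∀ i,
      |F.A l i / S l - pat m l i| ≤ 2 * ((m : ℝ) + 1) / Λ := by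
    intro l hl i
    have e1 := hF.new l hl i
    have e2 : S l = X * Λ ^ (m + 1 - (l : ℕ)) := if_pos hl
    rw [← hΛ, ← e2] at e1
    have e3 : F.A l i / S l - pat m l i = (F.A l i - S l * pat m l i) / S l := by
      have := (hS0 l).ne'
      field_simp
    rw [e3, abs_div, abs_of_pos (hS0 l), div_le_iff₀ (hS0 l)]
    exact e1
  have hD : ∀ l i, |F.A l i / S l| ≤ |G.A l i| / X + |pat m l i| + 2 * ((m : ℝ) + 1) / Λ := by
    intro l i
    by_cases hl : m + 1 ≤ (l : ℕ) + j
    · have e1 := hnew l hl i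
      have e2 : |F.A l i / S l| ≤ |F.A l i / S l - pat m l i| + |pat m l i| := by
        have := abs_add_le (F.A l i / S l - pat m l i) (pat m l i)
        rwa [sub_add_cancel] at this
      have e3 : 0 ≤ |G.A l i| / X := by positivity
      linarith
    · have e2 : S l = X := if_neg hl
      rw [hold l (by omega) i, e2, abs_div, abs_of_pos hX]
      have := abs_nonneg (pat m l i)
      linarith
  have hrow := STA_row m G Θ₀ X hG (fun l i => F.A l i / S l) hD
  have hdl : ∀ l, 4 / 5 ≤ F.A l l / S l := by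
    intro l
    by_cases hl : m + 1 ≤ (l : ℕ) + j
    · have e1 := (abs_le.1 (hnew l hl l)).1
      have e2 := (hP1 l).1
      linarith
    · have e2 : S l = X := if_neg hl
      rw [hold l (by omega) l, e2, le_div_iff₀ hX]
      have := hG.dl l
      linarith
  have hdu : ∀ l, F.A l l / S l ≤ 3 / 2 := by
    intro l
    by_cases hl : m + 1 ≤ (l : ℕ) + j
    · have e1 := (abs_le.1 (hnew l hl l)).2
      have e2 := (hP1 l).2
      linarith
    · have e2 : S l = X := if_neg hl
      rw [hold l (by omega) l, e2, div_le_iff₀ hX]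
      exact hG.du l
  -- the target
  have hfa : ∀ i, |F.a i| ≤ 2 / Λ * X' := by
    intro i
    have e1 := hF.fs i
    have e2 : 2 / Λ * X' = 2 * (X' / Λ) := by ring
    rw [e2]
    linarith
  have hfa' : ∀ i, |F.a i / X'| ≤ 1 / 5000 := by
    intro i
    rw [abs_div, abs_of_pos hX'0, div_le_iff₀ hX'0]
    refine (hfa i).trans (mul_le_mul_of_nonneg_right ?_ hX'0.le)
    rw [div_le_iff₀ hL0]
    linarith
  obtain ⟨γ, hγ1, hγ2, hγ3, hγ4⟩ := hSLV (m + 1) k (fun l i => F.A l i / S l)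
    (fun i => pat m k i + F.a i / X') hdl ((hdu k).trans (by norm_num)) hrow
    (by
      have e1 := (hP1 k).1
      have e2 := (abs_le.1 (hfa' k)).1
      show 99 / 100 ≤ pat m k k + F.a k / X'
      linarith)
    (by
      have e1 := (hP1 k).2
      have e2 := (abs_le.1 (hfa' k)).2
      show pat m k k + F.a k / X' ≤ 71 / 50
      linarith)
    (by
      intro l hl
      have e1 := hP2 k l (Ne.symm hl)
      have e2 := abs_le.1 (hfa' l)
      show |pat m k l + F.a l / X'| ≤ 3 / 50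
      rw [abs_le]
      constructor <;> linarith [e1.1, e1.2, e2.1, e2.2])
  set c : Fin (m + 1) → ℤ := fun l => round (X' * γ l / (2 * S l)) with hc
  set θ : Fin (m + 1) → ℝ := fun l => 2 * (c l : ℝ) - X' * γ l / S l with hθ
  have hθ1 : ∀ l, |θ l| ≤ 1 := by
    intro l
    have e1 := abs_sub_round (X' * γ l / (2 * S l))
    have e2 : θ l = -2 * (X' * γ l / (2 * S l) - (c l : ℝ)) := by
      show 2 * (c l : ℝ) - X' * γ l / S l = _
      have := (hS0 l).ne'
      field_simp
      ring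
    rw [e2, abs_mul, abs_neg, abs_two]
    linarith
  have hck : Λ / 2 - 1 ≤ 2 * (c k : ℝ) := by
    have e1 := (abs_le.1 (hθ1 k)).1
    have e2 : θ k = 2 * (c k : ℝ) - X' * γ k / S k := rfl
    have e3 : Λ / 2 ≤ X' * γ k / S k := by
      rw [hSk, le_div_iff₀ hX]
      nlinarith
    linarith
  have hck0 : 0 < c k := by
    have : (0 : ℝ) < (c k : ℝ) := by linarith
    exact_mod_cast this
  have hAk : ∀ i, |(F.nxt k c).A k i - X' * pat m k i| ≤ 2 * ((m : ℝ) + 1) / Λ * X' := by
    intro i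
    have e1 : (F.nxt k c).A k i - X' * pat m k i = ∑ l, θ l * F.A l i := by
      rw [STA_A_self]
      have e2 := hγ1 i
      have e3 : X' * ∑ l, γ l * (F.A l i / S l) = X' * pat m k i + F.a i := by
        rw [e2]
        show X' * (pat m k i + F.a i / X') = _
        rw [mul_add, mul_div_cancel₀ _ hX'0.ne']
      have e4 : ∑ l, (2 * (c l : ℝ)) * F.A l i =
          X' * ∑ l, γ l * (F.A l i / S l) + ∑ l, θ l * F.A l i := by
        rw [Finset.mul_sum, ← Finset.sum_add_distrib]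
        refine Finset.sum_congr rfl fun l _ => ?_
        have e5 : 2 * (c l : ℝ) = X' * γ l / S l + θ l := by
          show 2 * (c l : ℝ) = X' * γ l / S l + (2 * (c l : ℝ) - X' * γ l / S l)
          ring
        rw [e5]
        ring
      rw [e4, e3]
      ring
    have e6 : ∀ l, |θ l * F.A l i| ≤ X' / Λ * |F.A l i / S l| := by
      intro l
      rw [abs_mul]
      calc |θ l| * |F.A l i| ≤ 1 * |F.A l i| := mul_le_mul_of_nonneg_right (hθ1 l) (abs_nonneg _)
        _ = S l * |F.A l i / S l| := by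
          rw [abs_div, abs_of_pos (hS0 l), one_mul, mul_div_cancel₀ _ (hS0 l).ne']
        _ ≤ X' / Λ * |F.A l i / S l| := mul_le_mul_of_nonneg_right (hSle l) (abs_nonneg _)
    have e7 : ∑ l, |F.A l i / S l| ≤ 2 := by
      rw [← Finset.add_sum_erase _ _ (Finset.mem_univ i)]
      have e8 : |F.A i i / S i| ≤ 3 / 2 := by
        rw [abs_le]
        have := hdl i
        exact ⟨by linarith, hdu i⟩
      have := hrow i
      linarith
    rw [e1]
    calc |∑ l, θ l * F.A l i| ≤ ∑ l, |θ l * F.A l i| := Finset.abs_sum_le_sum_abs _ _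
      _ ≤ ∑ l, X' / Λ * |F.A l i / S l| := Finset.sum_le_sum fun l _ => e6 l
      _ = X' / Λ * ∑ l, |F.A l i / S l| := by rw [Finset.mul_sum]
      _ ≤ X' / Λ * 2 := mul_le_mul_of_nonneg_left e7 (by positivity)
      _ ≤ X' / Λ * (2 * ((m : ℝ) + 1)) := mul_le_mul_of_nonneg_left (by linarith) (by positivity)
      _ = _ := by ring
  -- the new sizes
  set S' : Fin (m + 1) → ℝ := Function.update S k X' with hS'
  have hS'k : S' k = X' := Function.update_self _ _ _
  have hS'l : ∀ l, l ≠ k → S' l = S l := fun l hl => Function.update_of_ne hl _ _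
  have hS'0 : ∀ l, 0 < S' l := by
    intro l
    by_cases hl : l = k
    · rw [hl, hS'k]; exact hX'0
    · rw [hS'l l hl]; exact hS0 l
  have hAk' : ∀ i, |(F.nxt k c).A k i / X' - pat m k i| ≤ 2 * ((m : ℝ) + 1) / Λ := by
    intro i
    have e3 : (F.nxt k c).A k i / X' - pat m k i = ((F.nxt k c).A k i - X' * pat m k i) / X' := by
      have := hX'0.ne'
      field_simp
    rw [e3, abs_div, abs_of_pos hX'0, div_le_iff₀ hX'0]
    exact hAk i
  have hD' : ∀ l i, |(F.nxt k c).A l i / S' l| ≤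
      |G.A l i| / X + |pat m l i| + 2 * ((m : ℝ) + 1) / Λ := by
    intro l i
    by_cases hl : l = k
    · rw [hl, hS'k]
      have e1 := hAk' i
      have e2 : |(F.nxt k c).A k i / X'| ≤ |(F.nxt k c).A k i / X' - pat m k i| + |pat m k i| := by
        have := abs_add_le ((F.nxt k c).A k i / X' - pat m k i) (pat m k i)
        rwa [sub_add_cancel] at this
      have e3 : 0 ≤ |G.A k i| / X := by positivity
      linarith
    · rw [STA_A_ne F k c l hl, hS'l l hl]
      exact hD l i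
  have hrow' := STA_row m G Θ₀ X hG (fun l i => (F.nxt k c).A l i / S' l) hD'
  have hdom : Dom (F.nxt k c) S' := by
    refine ⟨hS'0, ?_, ?_⟩
    · intro l
      by_cases hl : l = k
      · rw [hl, hS'k]
        have e1 := (abs_le.1 (hAk' k)).1
        have e2 := (hP1 k).1
        have e3 : 4 / 5 ≤ (F.nxt k c).A k k / X' := by linarith
        rwa [le_div_iff₀ hX'0] at e3
      · rw [STA_A_ne F k c l hl, hS'l l hl]
        have := hdl l
        rwa [le_div_iff₀ (hS0 l)] at this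
    · intro i
      refine le_trans (le_of_eq ?_) (hrow' i)
      refine Finset.sum_congr rfl fun l _ => ?_
      rw [abs_div, abs_of_pos (hS'0 l)]
  have hη : 2 / Λ ≤ 1 / 5000 := by
    rw [div_le_iff₀ hL0]; linarith
  obtain ⟨Θ', hcen', hs', hmv⟩ := hSTP (m + 1) F Θ hF.cen k c S' (2 / Λ) hck0 hdom
    (by positivity) (by linarith) (fun l => by rw [hS'k]; exact hfa l)
  have hs0 := hF.cen.pos
  have hs'0 : 0 < er Θ' (F.v k) := hcen'.pos
  have hFk : F.v k = G.v k := hF.old k (by omega)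
  have hsle : er Θ' (F.v k) ≤ 5 / 2 * er Θ F.f / Λ := by
    rw [le_div_iff₀ hL0]
    have e1 := (abs_le.1 hs').2
    have e2 : 2 * (c k : ℝ) * er Θ' (F.v k) ≤ (1 + 2 * (1 / 5000)) * er Θ F.f := by
      have : 2 * (2 / Λ) * er Θ F.f ≤ 2 * (1 / 5000) * er Θ F.f :=
        mul_le_mul_of_nonneg_right (by linarith) hs0.le
      linarith
    have e3 : (49 / 100 * Λ) * er Θ' (F.v k) ≤ 2 * (c k : ℝ) * er Θ' (F.v k) :=
      mul_le_mul_of_nonneg_right (by linarith) hs'0.le
    nlinarith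
  have hmv' : ∑ l, |Θ' l - Θ l| ≤ 25 * er Θ F.f / (16 * (X * L (m + 1))) := by
    refine hmv.trans ?_
    rw [hS'k, div_mul_eq_mul_div]
    refine div_le_div_of_nonneg_left (by positivity) (by positivity) ?_
    exact mul_le_mul_of_nonneg_left hXLX' (by norm_num)
  have hzero : ∀ l : Fin (m + 1), (l : ℕ) + j + 1 < m + 1 → er Θ' (G.v l) = 0 := by
    intro l hl
    have hlk : l ≠ k := fun h => by rw [h] at hl; omega
    have e1 := hcen'.zero l
    have e2 : (F.nxt k c).v l = G.v l := by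
      show Function.update F.v k _ l = G.v l
      rw [Function.update_of_ne hlk, hF.old l (by omega)]
    rwa [e2] at e1
  have hmon := hMNA (m + 1) G (er Θ₀ G.f) X j Θ₀ Θ Θ' (er Θ F.f) (er Θ' (F.v k)) (by omega) hX hs0
    (fun a b => (hGA2 a b).trans (by linarith)) hF.mon hmv' hs'0 hsle hzero
    (fun l hl => by
      have : l = k := Fin.ext (by omega)
      rw [this, hFk])
  refine ⟨F.nxt k c, Θ', hcen', ?_, ?_, ?_, hmon⟩
  · intro l hl
    have hlk : l ≠ k := fun h => by rw [h] at hl; omega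
    show Function.update F.v k _ l = G.v l
    rw [Function.update_of_ne hlk, hF.old l (by omega)]
  · intro l hl i
    by_cases hlk : l = k
    · rw [hlk]
      exact hAk i
    · have : (l : ℕ) ≠ k := fun h => hlk (Fin.ext h)
      rw [STA_A_ne F k c l hlk]
      exact hF.new l (by omega) i
  · intro l
    show |(((F.v k).1 l : ℤ) : ℝ)| ≤ 2 * X
    rw [hFk]
    have := hGA2 k l
    unfold Fr.A at this
    linarith

end Pool.LE
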