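import Pool.Agent.Work.MP_7453a1_le.Interface
import Pool.Agent.Work.MP_7453a1_ld.B_PAT
import Pool.Agent.Work.MP_7453a1_ld.B_LNM

set_option autoImplicit false

namespace Pool.LE

open Finset Filter
open Pool.LD (L pat Sg)

theorem STB_Ak {n : ℕ} (F : Fr n) (k : Fin n) (c : ℤ) (i : Fin n) :
    (F.nxt k (Pi.single k c)).A k i = 2 * (c : ℝ) * F.A k i - F.a i := by
  have h : ∑ l, (2 * (Pi.single k c : Fin n → ℤ) l) • F.v l = (2 * c) • F.v k := by
    rw [Finset.sum_eq_single k]
    · rw [Pi.single_eq_same]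
    · intro l _ hl
      rw [Pi.single_eq_of_ne hl, mul_zero, zero_smul]
    · intro h
      exact absurd (Finset.mem_univ k) h
  have h2 : (F.nxt k (Pi.single k c)).v k = (2 * c) • F.v k - F.f := by
    show Function.update F.v k (∑ l, (2 * (Pi.single k c : Fin n → ℤ) l) • F.v l - F.f) k = _
    rw [Function.update_self, h]
  unfold Fr.A Fr.a
  rw [h2]
  have h3 : (((2 * c) • F.v k - F.f).1 i : ℤ) = 2 * c * (F.v k).1 i - F.f.1 i := by
    simp
  rw [h3]
  push_cast
  ring

theorem STB_Al {n : ℕ} (F : Fr n) (k : Fin n) (c : Fin n → ℤ) (l i : Fin n) (h : l ≠ k) :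
    (F.nxt k c).A l i = F.A l i := by
  have h2 : (F.nxt k c).v l = F.v l := by
    show Function.update F.v k (∑ l, (2 * c l) • F.v l - F.f) l = _
    rw [Function.update_of_ne h]
  unfold Fr.A
  rw [h2]

theorem p_STB (hSTP : Stmt_STP) (hMNB : Stmt_MNB) : Stmt_STB := by
  intro m G Θ₀ X hG F Θ j hj hB
  obtain ⟨hp1, hp2, -, hp4, -, -, -⟩ := Pool.LD.p_PAT m
  obtain ⟨hl1, hl2, -⟩ := Pool.LD.p_LNM (m + 1) (by omega)
  have hX := hG.pos
  set Λ := L (m + 1) with hΛ
  have hΛ0 : 0 < Λ := by linarith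
  have hΛ1 : 1 ≤ Λ := by linarith
  set nn : ℝ := (m : ℝ) + 1 with hnn
  have hnn1 : 1 ≤ nn := by
    rw [hnn]
    have : (0 : ℝ) ≤ m := Nat.cast_nonneg m
    linarith
  have hcast : ((m + 1 : ℕ) : ℝ) = nn := by push_cast; rfl
  rw [hcast] at hl1
  have hq : 4 * nn ^ 2 / Λ ≤ 1 / 10000 := by
    rw [div_le_iff₀ hΛ0]
    nlinarith
  have hq1 : 4 * nn / Λ ≤ 1 / 10000 := by
    refine le_trans ?_ hq
    apply div_le_div_of_nonneg_right _ hΛ0.le
    nlinarith
  set k : Fin (m + 1) := ⟨j, hj⟩ with hk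
  have hkj : (k : ℕ) = j := rfl
  set c : ℤ := 5000 * 4 ^ (m + 1) * (10000 * 4 ^ (m + 1)) ^ j with hc
  have hc0 : 0 < c := by rw [hc]; positivity
  have hc2 : 2 * (c : ℝ) = Λ ^ (j + 1) := by
    rw [hc, hΛ]
    unfold L
    push_cast
    ring
  set F' := F.nxt k (Pi.single k c) with hF'
  set X' := X * Λ ^ (m + 2) with hX'
  have hX'0 : 0 < X' := by positivity
  have hpow : Λ ^ (m + 2) = Λ ^ (m + 1) * Λ := pow_succ Λ (m + 1)
  set S : Fin (m + 1) → ℝ := fun l => if l ≤ k then X' else X * Λ ^ (m + 1 - (l : ℕ)) with hS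
  have hSpos : ∀ l, 0 < S l := by
    intro l
    simp only [hS]
    split_ifs
    · exact hX'0
    · positivity
  have hSk : S k = X' := by
    simp only [hS, le_refl, if_true]
  -- the new vectors
  have hA : ∀ l i, |F'.A l i - S l * pat m l i| ≤ 4 * nn / Λ * S l := by
    intro l i
    rcases lt_trichotomy l k with h | h | h
    · rw [hF', STB_Al F k _ l i h.ne]
      have hSl : S l = X' := by simp only [hS, h.le, if_true]
      rw [hSl]
      exact hB.done l h i
    · subst h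
      rw [hSk, hF', STB_Ak, hc2]
      have h1 := hB.todo k (le_of_eq hkj.symm) i
      rw [hkj] at h1
      have h2 : |F.a i| ≤ 2 * X * Λ ^ (m + 1) := hB.fs i
      have h3 : Λ ^ (j + 1) * Λ ^ (m + 1 - j) = Λ ^ (m + 2) := by
        rw [← pow_add]
        congr 1
        omega
      have h4 : Λ ^ (j + 1) * F.A k i - F.a i - X' * pat m k i =
          Λ ^ (j + 1) * (F.A k i - X * Λ ^ (m + 1 - j) * pat m k i) - F.a i := by
        rw [hX', ← h3]
        ring
      rw [h4]
      have h5 : |Λ ^ (j + 1) * (F.A k i - X * Λ ^ (m + 1 - j) * pat m k i)| ≤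
          2 * nn / Λ * X' := by
        rw [abs_mul, abs_of_pos (by positivity : (0 : ℝ) < Λ ^ (j + 1))]
        calc Λ ^ (j + 1) * |F.A k i - X * Λ ^ (m + 1 - j) * pat m k i| ≤
            Λ ^ (j + 1) * (2 * nn / Λ * (X * Λ ^ (m + 1 - j))) := by gcongr
          _ = 2 * nn / Λ * (X * (Λ ^ (j + 1) * Λ ^ (m + 1 - j))) := by ring
          _ = 2 * nn / Λ * X' := by rw [h3]
      have h6 : |F.a i| ≤ 2 / Λ * X' := by
        refine h2.trans (le_of_eq ?_)
        rw [hX', hpow]
        field_simp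
      calc |Λ ^ (j + 1) * (F.A k i - X * Λ ^ (m + 1 - j) * pat m k i) - F.a i| ≤
          |Λ ^ (j + 1) * (F.A k i - X * Λ ^ (m + 1 - j) * pat m k i)| + |F.a i| := abs_sub _ _
        _ ≤ 2 * nn / Λ * X' + 2 / Λ * X' := add_le_add h5 h6
        _ = (2 * nn + 2) / Λ * X' := by ring
        _ ≤ 4 * nn / Λ * X' := by
          apply mul_le_mul_of_nonneg_right _ hX'0.le
          apply div_le_div_of_nonneg_right _ hΛ0.le
          linarith
    · rw [hF', STB_Al F k _ l i h.ne']
      have hSl : S l = X * Λ ^ (m + 1 - (l : ℕ)) := by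
        simp only [hS, not_le.2 h, if_false]
      rw [hSl]
      have hlj : j ≤ (l : ℕ) := le_of_lt h
      refine (hB.todo l hlj i).trans ?_
      apply mul_le_mul_of_nonneg_right _ (by positivity)
      apply div_le_div_of_nonneg_right _ hΛ0.le
      linarith
  have hDom : Dom F' S := by
    refine ⟨hSpos, ?_, ?_⟩
    · intro l
      have h1 := (abs_le.1 (hA l l)).1
      have h2 := (hp1 l).1
      have h3 := hSpos l
      have h4 : 4 * nn / Λ * S l ≤ 1 / 10000 * S l := mul_le_mul_of_nonneg_right hq1 h3.le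
      have h5 : S l * 1 ≤ S l * pat m l l := mul_le_mul_of_nonneg_left h2 h3.le
      linarith
    · intro l
      have h1 : ∀ i ∈ univ.erase l, |F'.A i l| / S i ≤ |pat m i l| + 4 * nn / Λ := by
        intro i _
        rw [div_le_iff₀ (hSpos i)]
        have h2 := hA i l
        have h3 : |F'.A i l| ≤ |F'.A i l - S i * pat m i l| + |S i * pat m i l| := by
          have := abs_add_le (F'.A i l - S i * pat m i l) (S i * pat m i l)
          rwa [sub_add_cancel] at this
        rw [abs_mul, abs_of_pos (hSpos i)] at h3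
        linarith
      calc ∑ i ∈ univ.erase l, |F'.A i l| / S i ≤
          ∑ i ∈ univ.erase l, (|pat m i l| + 4 * nn / Λ) := Finset.sum_le_sum h1
        _ = ∑ i ∈ univ.erase l, |pat m i l| + (univ.erase l).card • (4 * nn / Λ) := by
          rw [Finset.sum_add_distrib, Finset.sum_const]
        _ ≤ 1 / 20 + nn * (4 * nn / Λ) := by
          apply add_le_add (hp4 l)
          rw [nsmul_eq_mul]
          apply mul_le_mul_of_nonneg_right _ (by positivity)
          rw [Finset.card_erase_of_mem (Finset.mem_univ l), Finset.card_univ, Fintype.card_fin,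
            Nat.add_sub_cancel, hnn]
          linarith
        _ = 1 / 20 + 4 * nn ^ 2 / Λ := by ring
        _ ≤ 4 / 25 := by linarith
  have hη0 : 0 ≤ 2 / Λ := by positivity
  have hη1 : 2 / Λ ≤ 1 / 100 := by
    rw [div_le_iff₀ hΛ0]
    linarith
  have hfs : ∀ l, |F.a l| ≤ 2 / Λ * S k := by
    intro l
    refine (show |F.a l| ≤ 2 * X * Λ ^ (m + 1) from hB.fs l).trans (le_of_eq ?_)
    rw [hSk, hX', hpow]
    field_simp
  obtain ⟨Θ', hcen, he, hsum⟩ := hSTP (m + 1) F Θ hB.cen k (Pi.single k c) S (2 / Λ)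
    (by rw [Pi.single_eq_same]; exact hc0) hDom hη0 hη1 hfs
  rw [Pi.single_eq_same, hc2] at he
  have hs := hB.cen.pos
  set s := er Θ F.f with hsdef
  set s' := er Θ' (F.v k) with hs'
  have hΛj : Λ ≤ Λ ^ (j + 1) := by
    calc Λ = Λ ^ 1 := (pow_one Λ).symm
      _ ≤ Λ ^ (j + 1) := pow_le_pow_right₀ hΛ1 (by omega)
  have hes : 2 * (2 / Λ) * s ≤ 1 / 50 * s := by
    apply mul_le_mul_of_nonneg_right _ hs.le
    linarith
  obtain ⟨he1, he2⟩ := abs_le.1 he
  have hs'0 : 0 < s' := by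
    have h1 : 0 < Λ ^ (j + 1) * s' := by linarith
    exact (pos_iff_pos_of_mul_pos h1).1 (by positivity)
  have hs'1 : s' ≤ 5 / 2 * s / Λ := by
    rw [le_div_iff₀ hΛ0]
    have h1 : Λ * s' ≤ Λ ^ (j + 1) * s' := mul_le_mul_of_nonneg_right hΛj hs'0.le
    linarith
  have hGA : ∀ k l, |G.A k l| ≤ 8 / 5 * X := by
    intro a b
    by_cases h : a = b
    · subst h
      have h1 := hG.dl a
      have h2 := hG.du a
      rw [abs_le]
      constructor <;> linarith
    · have h1 := hG.off b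
      have h2 : |G.A a b| ≤ ∑ k ∈ univ.erase b, |G.A k b| :=
        Finset.single_le_sum (f := fun k => |G.A k b|) (fun i _ => abs_nonneg _)
          (Finset.mem_erase.2 ⟨h, Finset.mem_univ a⟩)
      linarith
  have hmon : Mon G (er Θ₀ G.f) X (m + 1) Θ₀ Θ' s' := by
    refine hMNB (m + 1) G (er Θ₀ G.f) X Θ₀ Θ Θ' s s' (by omega) hX hs hGA hB.mon ?_ hs'0 hs'1
    refine hsum.trans ?_
    rw [hSk, hX', div_mul_eq_mul_div]
    apply div_le_div_of_nonneg_left (by positivity) (by positivity)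
    have h1 : Λ ≤ Λ ^ (m + 2) := by
      calc Λ = Λ ^ 1 := (pow_one Λ).symm
        _ ≤ Λ ^ (m + 2) := pow_le_pow_right₀ hΛ1 (by omega)
    have h2 : X * Λ ≤ X * Λ ^ (m + 2) := mul_le_mul_of_nonneg_left h1 hX.le
    linarith
  refine ⟨F', Θ', hcen, ?_, ?_, ?_, hmon⟩
  · intro l hl i
    have hlk : l ≤ k := Nat.lt_succ_iff.1 hl
    have hSl : S l = X' := by simp only [hS, hlk, if_true]
    have := hA l i
    rw [hSl] at this
    exact this
  · intro l hl i
    have hlk : l ≠ k := by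
      intro h
      rw [h, hkj] at hl
      omega
    rw [hF', STB_Al F k _ l i hlk]
    exact hB.todo l (by omega) i
  · intro l
    show |F.A k l| ≤ 2 * X * Λ ^ (m + 1)
    have h1 := hB.todo k (le_of_eq hkj.symm) l
    rw [hkj] at h1
    have h2 : |pat m k l| ≤ 7 / 5 := by
      by_cases h : k = l
      · rw [← h, abs_of_nonneg (by linarith [(hp1 k).1])]
        exact (hp1 k).2
      · obtain ⟨h3, h4⟩ := hp2 k l h
        rw [abs_of_nonneg h3]
        linarith
    have h3 : |F.A k l| ≤ |F.A k l - X * Λ ^ (m + 1 - j) * pat m k l| +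
        |X * Λ ^ (m + 1 - j) * pat m k l| := by
      have := abs_add_le (F.A k l - X * Λ ^ (m + 1 - j) * pat m k l)
        (X * Λ ^ (m + 1 - j) * pat m k l)
      rwa [sub_add_cancel] at this
    rw [abs_mul, abs_of_pos (by positivity : (0 : ℝ) < X * Λ ^ (m + 1 - j))] at h3
    have h4 : 2 * nn / Λ ≤ 1 / 10000 := by
      refine le_trans ?_ hq1
      apply div_le_div_of_nonneg_right _ hΛ0.le
      linarith
    have h5 : X * Λ ^ (m + 1 - j) ≤ X * Λ ^ (m + 1) := by
      apply mul_le_mul_of_nonneg_left _ hX.le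
      exact pow_le_pow_right₀ hΛ1 (by omega)
    have h6 : X * Λ ^ (m + 1 - j) * |pat m k l| ≤ X * Λ ^ (m + 1 - j) * (7 / 5) :=
      mul_le_mul_of_nonneg_left h2 (by positivity)
    have h7 : 2 * nn / Λ * (X * Λ ^ (m + 1 - j)) ≤ 1 / 10000 * (X * Λ ^ (m + 1 - j)) :=
      mul_le_mul_of_nonneg_right h4 (by positivity)
    have h8 : 0 < X * Λ ^ (m + 1 - j) := by positivity
    calc |F.A k l| ≤ 2 * (X * Λ ^ (m + 1 - j)) := by linarith
      _ ≤ 2 * (X * Λ ^ (m + 1)) := by linarith
      _ = 2 * X * Λ ^ (m + 1) := by ring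

end Pool.LE
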