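import Pool.Agent.Work.MP_7453a1_le.Interface

set_option autoImplicit false

/-! # Block STP (helper20) -/

namespace Pool.LE

open Finset

theorem STP_er {n : ℕ} (Θ ξ : Fin n → ℝ) (s : ℝ) (w : Pt n) :
    er (fun j => Θ j + s * ξ j) w = er Θ w + s * ∑ j, ξ j * (w.1 j : ℝ) := by
  unfold er
  have h : ∑ j, (Θ j + s * ξ j) * (w.1 j : ℝ) =
      ∑ j, Θ j * (w.1 j : ℝ) + s * ∑ j, ξ j * (w.1 j : ℝ) := by
    rw [Finset.mul_sum, ← Finset.sum_add_distrib]
    refine Finset.sum_congr rfl fun j _ => ?_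
    ring
  simp only
  rw [h]
  ring

theorem STP_er_nxt {n : ℕ} (F : Fr n) (Θ : Fin n → ℝ) (k : Fin n) (c : Fin n → ℤ)
    (h0 : ∀ l, er Θ (F.v l) = 0) : er Θ ((F.nxt k c).v k) = - er Θ F.f := by
  have h1 : (F.nxt k c).v k = ∑ l, (2 * c l) • F.v l - F.f := by simp [Fr.nxt]
  have h2 : ∀ l, ∑ j, Θ j * ((F.v l).1 j : ℝ) = ((F.v l).2 : ℝ) := by
    intro l
    have := h0 l
    unfold er at this
    linarith
  rw [h1]
  unfold er
  have h3 : ∀ j, (((∑ l, (2 * c l) • F.v l - F.f).1 j : ℤ) : ℝ) =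
      ∑ l, 2 * (c l : ℝ) * ((F.v l).1 j : ℝ) - (F.f.1 j : ℝ) := by
    intro j
    simp [Prod.fst_sum, Finset.sum_apply]
  have h4 : (((∑ l, (2 * c l) • F.v l - F.f).2 : ℤ) : ℝ) =
      ∑ l, 2 * (c l : ℝ) * ((F.v l).2 : ℝ) - (F.f.2 : ℝ) := by
    simp [Prod.snd_sum]
  simp only [h3]
  rw [h4]
  have h5 : ∑ j, Θ j * (∑ l, 2 * (c l : ℝ) * ((F.v l).1 j : ℝ) - (F.f.1 j : ℝ)) =
      ∑ l, 2 * (c l : ℝ) * ((F.v l).2 : ℝ) - ∑ j, Θ j * (F.f.1 j : ℝ) := by
    simp only [mul_sub]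
    rw [Finset.sum_sub_distrib]
    congr 1
    simp only [Finset.mul_sum]
    rw [Finset.sum_comm]
    refine Finset.sum_congr rfl fun l _ => ?_
    rw [← h2 l, Finset.mul_sum]
    refine Finset.sum_congr rfl fun j _ => ?_
    ring
  rw [h5]
  ring

theorem p_STP (hGOD : Stmt_GOD) (hDUA : Stmt_DUA) : Stmt_STP := by
  intro n F Θ hC k c S η hck hD hη0 hη1 ha
  set s := er Θ F.f with hs
  have hspos : 0 < s := hC.pos
  obtain ⟨ξ, h1, h2, h3⟩ := hDUA n (F.nxt k c) S hD k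
  have hSk : 0 < S k := hD.pos k
  have hvl : ∀ l, l ≠ k → (F.nxt k c).v l = F.v l := by
    intro l hl
    simp [Fr.nxt, hl]
  have hf : (F.nxt k c).f = F.v k := rfl
  have hA : ∀ l, l ≠ k → ∀ j, (F.nxt k c).A l j = F.A l j := by
    intro l hl j
    unfold Fr.A
    rw [hvl l hl]
  have hAk : ∀ j, (F.nxt k c).A k j = ∑ l, 2 * (c l : ℝ) * F.A l j - F.a j := by
    intro j
    unfold Fr.A Fr.a
    simp [Fr.nxt, Prod.fst_sum, Finset.sum_apply]
  set x := ∑ j, ξ j * F.A k j with hx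
  set y := ∑ j, ξ j * F.a j with hy
  have hxy : 2 * (c k : ℝ) * x = 1 + y := by
    have e1 : ∑ j, ξ j * (F.nxt k c).A k j =
        ∑ l, 2 * (c l : ℝ) * ∑ j, ξ j * F.A l j - y := by
      simp only [hAk, mul_sub]
      rw [Finset.sum_sub_distrib]
      congr 1
      simp only [Finset.mul_sum]
      rw [Finset.sum_comm]
      refine Finset.sum_congr rfl fun l _ => Finset.sum_congr rfl fun j _ => ?_
      ring
    have e2 : ∑ l, 2 * (c l : ℝ) * ∑ j, ξ j * F.A l j = 2 * (c k : ℝ) * x := by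
      rw [← Finset.add_sum_erase univ _ (Finset.mem_univ k)]
      have : ∑ l ∈ univ.erase k, 2 * (c l : ℝ) * ∑ j, ξ j * F.A l j = 0 := by
        refine Finset.sum_eq_zero fun l hl => ?_
        have hlk := Finset.ne_of_mem_erase hl
        have e3 := h1 l hlk
        simp only [hA l hlk] at e3
        rw [e3, mul_zero]
      rw [this, add_zero]
    rw [h2, e2] at e1
    linarith
  have hyb : |y| ≤ 25 / 16 * η := by
    have e1 : |y| ≤ ∑ j, |ξ j| * (η * S k) := by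
      rw [hy]
      refine (Finset.abs_sum_le_sum_abs _ _).trans (Finset.sum_le_sum fun j _ => ?_)
      rw [abs_mul]
      exact mul_le_mul_of_nonneg_left (ha j) (abs_nonneg _)
    rw [← Finset.sum_mul] at e1
    have e2 : (∑ j, |ξ j|) * (η * S k) ≤ 25 / (16 * S k) * (η * S k) :=
      mul_le_mul_of_nonneg_right h3 (by positivity)
    have e3 : 25 / (16 * S k) * (η * S k) = 25 / 16 * η := by
      field_simp
    linarith
  have hck' : (0 : ℝ) < (c k : ℝ) := by exact_mod_cast hck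
  have hxpos : 0 < x := by
    have e1 := (abs_le.1 hyb).1
    have e2 : 0 < 2 * (c k : ℝ) * x := by rw [hxy]; linarith
    by_contra hcon
    push Not at hcon
    have : 2 * (c k : ℝ) * x ≤ 0 := mul_nonpos_of_nonneg_of_nonpos (by positivity) hcon
    linarith
  have her : ∀ w : Pt n, er (fun j => Θ j + s * ξ j) w = er Θ w + s * ∑ j, ξ j * (w.1 j : ℝ) :=
    STP_er Θ ξ s
  have hfk : er (fun j => Θ j + s * ξ j) (F.v k) = s * x := by
    rw [her, hC.zero k, zero_add]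
    rfl
  refine ⟨fun j => Θ j + s * ξ j, ⟨hGOD n F k c hC.good, ?_, ?_⟩, ?_, ?_⟩
  · intro l
    by_cases hl : l = k
    · rw [hl, her, STP_er_nxt F Θ k c hC.zero, ← hs]
      have : ∑ j, ξ j * (((F.nxt k c).v k).1 j : ℝ) = 1 := h2
      rw [this]
      ring
    · rw [hvl l hl, her, hC.zero l]
      have e1 := h1 l hl
      simp only [hA l hl] at e1
      have e2 : ∑ j, ξ j * ((F.v l).1 j : ℝ) = 0 := e1
      rw [e2]
      ring
  · rw [hf, hfk]
    exact mul_pos hspos hxpos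
  · rw [hfk]
    have e1 : 2 * (c k : ℝ) * (s * x) - s = s * y := by
      have : 2 * (c k : ℝ) * (s * x) = s * (2 * (c k : ℝ) * x) := by ring
      rw [this, hxy]
      ring
    rw [e1, abs_mul, abs_of_pos hspos]
    nlinarith [abs_nonneg y]
  · have e1 : ∀ l, |(fun j => Θ j + s * ξ j) l - Θ l| = s * |ξ l| := by
      intro l
      simp only [add_sub_cancel_left]
      rw [abs_mul, abs_of_pos hspos]
    simp only [e1]
    rw [← Finset.mul_sum, mul_comm]
    exact mul_le_mul_of_nonneg_right h3 hspos.le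

end Pool.LE
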