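import Pool.Agent.Work.MP_7453a1_le.Interface
import Pool.Agent.Work.MP_7453a1_ld.B_PAT
import Pool.Agent.Work.MP_7453a1_ld.B_LNM

set_option autoImplicit false

/-! # Block TGL: the output of a stage is an input of a stage -/

namespace Pool.LE

open Finset Filter
open Pool.LD (L pat Sg)

theorem p_TGL : Stmt_TGL := by
  intro m F Θ X hT
  obtain ⟨p1, p2, -, p4, -, -, -⟩ := Pool.LD.p_PAT m
  obtain ⟨l1, l2, -⟩ := Pool.LD.p_LNM (m + 1) (by omega)
  have hX := hT.pos
  have hL : 0 < L (m + 1) := by linarith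
  have hn : (1 : ℝ) ≤ ((m + 1 : ℕ) : ℝ) := by
    exact_mod_cast Nat.succ_le_succ (Nat.zero_le m)
  obtain ⟨δ, hδ⟩ : ∃ δ : ℝ, δ = 4 * ((m : ℝ) + 1) / L (m + 1) := ⟨_, rfl⟩
  have hδn : ((m + 1 : ℕ) : ℝ) * δ ≤ 1 / 10000 := by
    rw [hδ]
    push_cast
    rw [mul_div_assoc', div_le_div_iff₀ hL (by norm_num)]
    push_cast at l1
    nlinarith
  have hδ0 : 0 ≤ δ := by
    rw [hδ]
    positivity
  have hδ1 : δ ≤ 1 / 10000 := by nlinarith
  have hcl : ∀ k l, |F.A k l - X * pat m k l| ≤ δ * X := by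
    intro k l
    rw [hδ]
    exact hT.cl k l
  have hδX : δ * X ≤ 1 / 10000 * X := mul_le_mul_of_nonneg_right hδ1 hX.le
  refine ⟨hT.cen, hX, fun k => ?_, fun k => ?_, fun l => ?_, fun l => ?_⟩
  · have h1 := (abs_le.1 (hcl k k)).1
    have h2 := mul_le_mul_of_nonneg_left (p1 k).1 hX.le
    linarith
  · have h1 := (abs_le.1 (hcl k k)).2
    have h2 := mul_le_mul_of_nonneg_left (p1 k).2 hX.le
    linarith
  · have h1 : ∀ k ∈ univ.erase l, |F.A k l| ≤ X * |pat m k l| + δ * X := by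
      intro k _
      have e : F.A k l = X * pat m k l + (F.A k l - X * pat m k l) := by ring
      calc |F.A k l| = |X * pat m k l + (F.A k l - X * pat m k l)| := by rw [← e]
        _ ≤ |X * pat m k l| + |F.A k l - X * pat m k l| := abs_add_le _ _
        _ ≤ X * |pat m k l| + δ * X := by
            rw [abs_mul, abs_of_pos hX]
            exact add_le_add le_rfl (hcl k l)
    refine (Finset.sum_le_sum h1).trans ?_
    rw [Finset.sum_add_distrib, ← Finset.mul_sum, Finset.sum_const, nsmul_eq_mul]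
    have h2 := mul_le_mul_of_nonneg_left (p4 l) hX.le
    have h3 : ((univ.erase l).card : ℝ) ≤ ((m + 1 : ℕ) : ℝ) := by
      have : (univ.erase l).card ≤ (univ : Finset (Fin (m + 1))).card := Finset.card_erase_le
      rw [Finset.card_univ, Fintype.card_fin] at this
      exact_mod_cast this
    have h4 : ((univ.erase l).card : ℝ) * (δ * X) ≤ ((m + 1 : ℕ) : ℝ) * (δ * X) :=
      mul_le_mul_of_nonneg_right h3 (mul_nonneg hδ0 hX.le)
    have h5 : ((m + 1 : ℕ) : ℝ) * (δ * X) ≤ 1 / 10000 * X := by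
      rw [← mul_assoc]
      exact mul_le_mul_of_nonneg_right hδn hX.le
    linarith
  · refine (hT.fs l).trans ?_
    rw [div_le_iff₀ hL]
    nlinarith

end Pool.LE
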