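import Pool.Agent.Work.MP_7453a1_le.Interface

set_option autoImplicit false

/-!
# Block WA: the number of best approximation lengths in a window
-/

namespace Pool.LE

open Finset
open Pool.Agent.Work.MP_7453a1_nt_two (Admissible IsBest Lengths G g len err)

/-- the sign of a Boolean -/
def WA_sg (b : Bool) : ℤ := if b then 1 else -1

lemma WA_sg_cases (b : Bool) : WA_sg b = 1 ∨ WA_sg b = -1 := by
  cases b <;> simp [WA_sg]

lemma WA_len_neg {m : ℕ} (x : Fin m → ℤ) : len (sn m) (-x) = len (sn m) x := by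
  unfold len
  have h : (fun j => (((-x) j : ℤ) : ℝ)) = -(fun j => (x j : ℝ)) := by
    funext j
    simp
  rw [h, map_neg_eq_map]

lemma WA_err_neg {m n : ℕ} (Θ : Matrix (Fin n) (Fin m) ℝ) (x : Fin m → ℤ) (y : Fin n → ℤ) :
    err (sn n) Θ (-x) (-y) = err (sn n) Θ x y := by
  unfold err
  have h : (fun i => (∑ j, Θ i j * (((-x) j : ℤ) : ℝ)) - (((-y) i : ℤ) : ℝ)) =
      -(fun i => (∑ j, Θ i j * (x j : ℝ)) - (y i : ℝ)) := by
    funext i
    simp only [Pi.neg_apply, Int.cast_neg, mul_neg, Finset.sum_neg_distrib]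
    ring
  rw [h, map_neg_eq_map]

lemma WA_best_neg {m n : ℕ} {Θ : Matrix (Fin n) (Fin m) ℝ} {x : Fin m → ℤ} {y : Fin n → ℤ}
    (h : IsBest (sn m) (sn n) Θ x y) : IsBest (sn m) (sn n) Θ (-x) (-y) := by
  refine ⟨neg_ne_zero.mpr h.1, fun x' y' h1 h2 => ?_⟩
  rw [WA_len_neg] at h1
  rw [WA_err_neg] at h2
  rcases h.2 x' y' h1 h2 with h3 | h3 | h3
  · exact Or.inl h3
  · right
    right
    rw [neg_neg, neg_neg]
    exact h3
  · right
    left
    exact h3

lemma WA_best_sg {m n : ℕ} {Θ : Matrix (Fin n) (Fin m) ℝ} {x : Fin m → ℤ} {y : Fin n → ℤ}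
    (h : IsBest (sn m) (sn n) Θ x y) (b : Bool) :
    IsBest (sn m) (sn n) Θ (WA_sg b • x) (WA_sg b • y) := by
  rcases WA_sg_cases b with hb | hb
  · rw [hb, one_smul, one_smul]
    exact h
  · rw [hb, neg_one_smul, neg_one_smul]
    exact WA_best_neg h

lemma WA_len_sg {m : ℕ} (x : Fin m → ℤ) (b : Bool) :
    len (sn m) (WA_sg b • x) = len (sn m) x := by
  rcases WA_sg_cases b with hb | hb
  · rw [hb, one_smul]
  · rw [hb, neg_one_smul, WA_len_neg]

lemma WA_err_sg {m n : ℕ} (Θ : Matrix (Fin n) (Fin m) ℝ) (x : Fin m → ℤ) (y : Fin n → ℤ)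
    (b : Bool) : err (sn n) Θ (WA_sg b • x) (WA_sg b • y) = err (sn n) Θ x y := by
  rcases WA_sg_cases b with hb | hb
  · rw [hb, one_smul, one_smul]
  · rw [hb, neg_one_smul, neg_one_smul, WA_err_neg]

lemma WA_err_coord {m n : ℕ} (Θ : Matrix (Fin n) (Fin m) ℝ) (x : Fin m → ℤ) (y : Fin n → ℤ)
    (i : Fin n) : |(∑ j, Θ i j * (x j : ℝ)) - (y i : ℝ)| ≤ err (sn n) Θ x y := by
  have h := norm_le_pi_norm (fun i => (∑ j, Θ i j * (x j : ℝ)) - (y i : ℝ)) i
  rw [Real.norm_eq_abs] at h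
  exact h

lemma WA_len_coord {m : ℕ} (x : Fin m → ℤ) (j : Fin m) : |(x j : ℝ)| ≤ len (sn m) x := by
  have h := norm_le_pi_norm (fun j => (x j : ℝ)) j
  rw [Real.norm_eq_abs] at h
  exact h

lemma WA_err_nonneg {m n : ℕ} (Θ : Matrix (Fin n) (Fin m) ℝ) (x : Fin m → ℤ) (y : Fin n → ℤ) :
    0 ≤ err (sn n) Θ x y := apply_nonneg _ _

/-- two numbers of the same sign -/
lemma WA_sign {a b c : ℝ} (h : 0 ≤ a ↔ 0 ≤ b) (ha : |a| ≤ c) (hb : |b| ≤ c) : |b - a| ≤ c := by
  have ha' := abs_le.mp ha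
  have hb' := abs_le.mp hb
  rw [abs_le]
  rcases le_or_gt 0 a with h0 | h0
  · have h1 := h.mp h0
    constructor <;> linarith [ha'.1, ha'.2, hb'.1, hb'.2]
  · have h1 : b < 0 := by
      by_contra hcon
      push Not at hcon
      exact absurd (h.mpr hcon) (not_le.mpr h0)
    constructor <;> linarith [ha'.1, ha'.2, hb'.1, hb'.2]

lemma WA_key {m n : ℕ} {Θ : Matrix (Fin n) (Fin m) ℝ} {R : ℝ} (hR : 0 < R)
    {x x' : Fin m → ℤ} {y y' : Fin n → ℤ}
    (hb : IsBest (sn m) (sn n) Θ x y) (hRx : R ≤ len (sn m) x)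
    (he : err (sn n) Θ x' y' ≤ err (sn n) Θ x y)
    (hx : ∀ j, |(x' j : ℝ) - (x j : ℝ)| < R)
    (hs : ∀ i, (0 ≤ (∑ j, Θ i j * (x j : ℝ)) - (y i : ℝ) ↔
      0 ≤ (∑ j, Θ i j * (x' j : ℝ)) - (y' i : ℝ))) :
    x' = x ∧ y' = y := by
  have hlen : len (sn m) (x' - x) < R := by
    have h : ‖(fun j => (((x' - x) j : ℤ) : ℝ))‖ < R := by
      refine (pi_norm_lt_iff hR).mpr fun j => ?_
      rw [Real.norm_eq_abs, Pi.sub_apply, Int.cast_sub]
      exact hx j
    exact h
  have herr : err (sn n) Θ (x' - x) (y' - y) ≤ err (sn n) Θ x y := by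
    have h : ‖(fun i => (∑ j, Θ i j * (((x' - x) j : ℤ) : ℝ)) - (((y' - y) i : ℤ) : ℝ))‖ ≤
        err (sn n) Θ x y := by
      refine (pi_norm_le_iff_of_nonneg (WA_err_nonneg Θ x y)).mpr fun i => ?_
      have e : (∑ j, Θ i j * (((x' - x) j : ℤ) : ℝ)) - (((y' - y) i : ℤ) : ℝ) =
          ((∑ j, Θ i j * (x' j : ℝ)) - (y' i : ℝ)) - ((∑ j, Θ i j * (x j : ℝ)) - (y i : ℝ)) := by
        simp only [Pi.sub_apply, Int.cast_sub, mul_sub, Finset.sum_sub_distrib]
        ring
      rw [Real.norm_eq_abs, e]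
      exact WA_sign (hs i) (WA_err_coord Θ x y i) ((WA_err_coord Θ x' y' i).trans he)
    exact h
  rcases hb.2 _ _ (hlen.le.trans hRx) herr with h | h | h
  · exact ⟨sub_eq_zero.mp h.1, sub_eq_zero.mp h.2⟩
  · rw [h.1] at hlen
    linarith
  · rw [h.1, WA_len_neg] at hlen
    linarith

theorem p_WA : Stmt_WA := by
  classical
  intro m n Θ hm hn R hR T hT
  by_contra hcon
  push Not at hcon
  have hch : ∀ r : ℝ, ∃ (x : Fin m → ℤ) (y : Fin n → ℤ),
      r ∈ T → IsBest (sn m) (sn n) Θ x y ∧ len (sn m) x = r := by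
    intro r
    by_cases h : r ∈ T
    · obtain ⟨x, y, h1, h2⟩ := (hT r h).1
      exact ⟨x, y, fun _ => ⟨h1, h2⟩⟩
    · exact ⟨0, 0, fun h' => absurd h' h⟩
  choose X Y hXY using hch
  let px : ℝ × Bool → Fin m → ℤ := fun p => WA_sg p.2 • X p.1
  let py : ℝ × Bool → Fin n → ℤ := fun p => WA_sg p.2 • Y p.1
  have hbest : ∀ p : ℝ × Bool, p.1 ∈ T → IsBest (sn m) (sn n) Θ (px p) (py p) :=
    fun p hp => WA_best_sg (hXY p.1 hp).1 p.2
  have hlen : ∀ p : ℝ × Bool, p.1 ∈ T → len (sn m) (px p) = p.1 := by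
    intro p hp
    rw [show px p = WA_sg p.2 • X p.1 from rfl, WA_len_sg]
    exact (hXY p.1 hp).2
  let E : ℝ × Bool → Fin n → ℝ := fun p i => (∑ j, Θ i j * (px p j : ℝ)) - (py p i : ℝ)
  let f : ℝ × Bool → (Fin m → ℤ) × (Fin n → Bool) := fun p =>
    (fun j => ⌊(px p j : ℝ) / R⌋, fun i => decide (0 ≤ E p i))
  let tgt : Finset ((Fin m → ℤ) × (Fin n → Bool)) :=
    Fintype.piFinset (fun _ : Fin m => Finset.Icc (-2 : ℤ) 1) ×ˢ (Finset.univ : Finset (Fin n → Bool))
  have htgt : tgt.card = 4 ^ m * 2 ^ n := by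
    simp [tgt, Finset.card_product, Fintype.card_piFinset]
  have hsrc : (T ×ˢ (Finset.univ : Finset Bool)).card = T.card * 2 := by
    simp [Finset.card_product]
  have hpow : 4 ^ m * 2 ^ n = 2 ^ (2 * m + n - 1) * 2 := by
    rw [← pow_succ, show 2 * m + n - 1 + 1 = 2 * m + n by omega, pow_add, pow_mul]
    norm_num
  have hmaps : ∀ p ∈ T ×ˢ (Finset.univ : Finset Bool), f p ∈ tgt := by
    intro p hp
    have hpT : p.1 ∈ T := (Finset.mem_product.mp hp).1
    simp only [tgt, Finset.mem_product, Finset.mem_univ, and_true, Fintype.mem_piFinset,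
      Finset.mem_Icc]
    intro j
    have h1 : |(px p j : ℝ)| < 2 * R := by
      have h2 := WA_len_coord (px p) j
      rw [hlen p hpT] at h2
      exact lt_of_le_of_lt h2 (hT p.1 hpT).2.2
    have h3 := abs_lt.mp h1
    constructor
    · refine Int.le_floor.mpr ?_
      rw [le_div_iff₀ hR]
      push_cast
      linarith [h3.1]
    · have h4 : ⌊(px p j : ℝ) / R⌋ < 2 := by
        refine Int.floor_lt.mpr ?_
        rw [div_lt_iff₀ hR]
        push_cast
        linarith [h3.2]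
      change ⌊(px p j : ℝ) / R⌋ ≤ 1
      omega
  have hcard : tgt.card < (T ×ˢ (Finset.univ : Finset Bool)).card := by
    rw [htgt, hsrc, hpow]
    exact Nat.mul_lt_mul_of_pos_right hcon (by norm_num)
  obtain ⟨p, hp, q, hq, hpq, hf⟩ := Finset.exists_ne_map_eq_of_card_lt_of_maps_to hcard hmaps
  have hmain : ∀ p q : ℝ × Bool, p.1 ∈ T → q.1 ∈ T → p.1 ≤ q.1 → f p = f q → p = q := by
    intro p q hp hq hle hf
    have hf1 : ∀ j, ⌊(px p j : ℝ) / R⌋ = ⌊(px q j : ℝ) / R⌋ := fun j =>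
      congrFun (congrArg Prod.fst hf) j
    have hf2 : ∀ i, decide (0 ≤ E p i) = decide (0 ≤ E q i) := fun i =>
      congrFun (congrArg Prod.snd hf) i
    have hx : ∀ j, |(px q j : ℝ) - (px p j : ℝ)| < R := by
      intro j
      have h1 := Int.abs_sub_lt_one_of_floor_eq_floor (hf1 j)
      rw [← sub_div, abs_div, abs_of_pos hR, div_lt_one hR, abs_sub_comm] at h1
      exact h1
    have hs : ∀ i, (0 ≤ E p i ↔ 0 ≤ E q i) := fun i => decide_eq_decide.mp (hf2 i)
    have he : err (sn n) Θ (px q) (py q) ≤ err (sn n) Θ (px p) (py p) := by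
      rcases lt_or_eq_of_le hle with hlt | heq
      · by_contra hc
        push Not at hc
        have hl : len (sn m) (px p) ≤ len (sn m) (px q) := by
          rw [hlen p hp, hlen q hq]
          exact hle
        rcases (hbest q hq).2 _ _ hl hc.le with h | h | h
        · exact (hbest p hp).1 h.1
        · have h5 := hlen p hp
          rw [h.1, hlen q hq] at h5
          linarith
        · have h5 := hlen p hp
          rw [h.1, WA_len_neg, hlen q hq] at h5
          linarith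
      · rw [show px q = WA_sg q.2 • X q.1 from rfl, show py q = WA_sg q.2 • Y q.1 from rfl,
          show px p = WA_sg p.2 • X p.1 from rfl, show py p = WA_sg p.2 • Y p.1 from rfl,
          WA_err_sg, WA_err_sg, heq]
    obtain ⟨h6, -⟩ := WA_key hR (hbest p hp) (by rw [hlen p hp]; exact (hT p.1 hp).2.1) he hx hs
    have h7 : p.1 = q.1 := by rw [← hlen p hp, ← hlen q hq, h6]
    have h8 : p.2 = q.2 := by
      have h9 : WA_sg q.2 • X q.1 = WA_sg p.2 • X q.1 := by
        have h10 : WA_sg q.2 • X q.1 = WA_sg p.2 • X p.1 := h6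
        rw [h10, h7]
      have h11 : X q.1 ≠ 0 := (hXY q.1 hq).1.1
      obtain ⟨j, hj⟩ := Function.ne_iff.mp h11
      have h12 := congrFun h9 j
      simp only [Pi.smul_apply, smul_eq_mul] at h12
      have h13 : WA_sg q.2 = WA_sg p.2 := mul_right_cancel₀ hj h12
      revert h13
      cases p.2 <;> cases q.2 <;> simp [WA_sg]
    exact Prod.ext h7 h8
  have hpT : p.1 ∈ T := (Finset.mem_product.mp hp).1
  have hqT : q.1 ∈ T := (Finset.mem_product.mp hq).1
  rcases le_total p.1 q.1 with h | h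
  · exact hpq (hmain p q hpT hqT h hf)
  · exact hpq (hmain q p hqT hpT h hf.symm).symm

end Pool.LE
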