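import Pool.Agent.Work.MP_7453a1_le.Interface2

set_option autoImplicit false

/-! # Block WD (helper73): the number of lengths in a window, every norm. -/

namespace Pool.LE

open Finset Filter
open Pool.Agent.Work.MP_7453a1_nt_norm (IsNorm)
open Pool.Agent.Work.MP_7453a1_nt_two (Admissible IsBest Lengths G g len err)

/-- the sign of a Boolean -/
def WD_sg (b : Bool) : ℤ := if b then 1 else -1

lemma WD_sg_cases (b : Bool) : WD_sg b = 1 ∨ WD_sg b = -1 := by
  cases b <;> simp [WD_sg]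

lemma WD_len_neg {m : ℕ} (Nm : Seminorm ℝ (Fin m → ℝ)) (x : Fin m → ℤ) :
    len Nm (-x) = len Nm x := by
  unfold len
  have h : (fun j => (((-x) j : ℤ) : ℝ)) = -(fun j => (x j : ℝ)) := by
    funext j
    simp
  rw [h, map_neg_eq_map]

lemma WD_err_neg {m n : ℕ} (Nn : Seminorm ℝ (Fin n → ℝ)) (Θ : Matrix (Fin n) (Fin m) ℝ)
    (x : Fin m → ℤ) (y : Fin n → ℤ) : err Nn Θ (-x) (-y) = err Nn Θ x y := by
  unfold err
  have h : (fun i => (∑ j, Θ i j * (((-x) j : ℤ) : ℝ)) - (((-y) i : ℤ) : ℝ)) =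
      -(fun i => (∑ j, Θ i j * (x j : ℝ)) - (y i : ℝ)) := by
    funext i
    simp only [Pi.neg_apply, Int.cast_neg, mul_neg, Finset.sum_neg_distrib]
    ring
  rw [h, map_neg_eq_map]

lemma WD_len_sg {m : ℕ} (Nm : Seminorm ℝ (Fin m → ℝ)) (x : Fin m → ℤ) (b : Bool) :
    len Nm (WD_sg b • x) = len Nm x := by
  rcases WD_sg_cases b with hb | hb
  · rw [hb, one_smul]
  · rw [hb, neg_one_smul, WD_len_neg]

lemma WD_err_sg {m n : ℕ} (Nn : Seminorm ℝ (Fin n → ℝ)) (Θ : Matrix (Fin n) (Fin m) ℝ)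
    (x : Fin m → ℤ) (y : Fin n → ℤ) (b : Bool) :
    err Nn Θ (WD_sg b • x) (WD_sg b • y) = err Nn Θ x y := by
  rcases WD_sg_cases b with hb | hb
  · rw [hb, one_smul, one_smul]
  · rw [hb, neg_one_smul, neg_one_smul, WD_err_neg]

lemma WD_len2 {m : ℕ} (Nm : Seminorm ℝ (Fin m → ℝ)) {a w : Fin m → ℤ} (h : ∀ j, 2 * w j = a j) :
    len Nm a = 2 * len Nm w := by
  unfold len
  have e : (fun j => (a j : ℝ)) = (2 : ℝ) • fun j => (w j : ℝ) := by
    funext j
    rw [Pi.smul_apply, smul_eq_mul, ← h j]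
    push_cast
    ring
  rw [e, map_smul_eq_mul, Real.norm_eq_abs, abs_two]

lemma WD_err2 {m n : ℕ} (Nn : Seminorm ℝ (Fin n → ℝ)) (Θ : Matrix (Fin n) (Fin m) ℝ)
    {a w : Fin m → ℤ} {b v : Fin n → ℤ} (h : ∀ j, 2 * w j = a j) (h' : ∀ i, 2 * v i = b i) :
    err Nn Θ a b = 2 * err Nn Θ w v := by
  unfold err
  have e : (fun i => (∑ j, Θ i j * (a j : ℝ)) - (b i : ℝ)) =
      (2 : ℝ) • fun i => (∑ j, Θ i j * (w j : ℝ)) - (v i : ℝ) := by
    funext i
    rw [Pi.smul_apply, smul_eq_mul, mul_sub, Finset.mul_sum, ← h' i]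
    push_cast
    congr 1
    refine Finset.sum_congr rfl fun j _ => ?_
    rw [← h j]
    push_cast
    ring
  rw [e, map_smul_eq_mul, Real.norm_eq_abs, abs_two]

lemma WD_err_sub {m n : ℕ} (Nn : Seminorm ℝ (Fin n → ℝ)) (Θ : Matrix (Fin n) (Fin m) ℝ)
    (x x' : Fin m → ℤ) (y y' : Fin n → ℤ) :
    err Nn Θ (x - x') (y - y') ≤ err Nn Θ x y + err Nn Θ x' y' := by
  unfold err
  have e : (fun i => (∑ j, Θ i j * (((x - x') j : ℤ) : ℝ)) - (((y - y') i : ℤ) : ℝ)) =
      (fun i => (∑ j, Θ i j * (x j : ℝ)) - (y i : ℝ)) -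
        fun i => (∑ j, Θ i j * (x' j : ℝ)) - (y' i : ℝ) := by
    funext i
    simp only [Pi.sub_apply, Int.cast_sub, mul_sub, Finset.sum_sub_distrib]
    ring
  rw [e]
  exact map_sub_le_add Nn _ _

/-- a longer best approximation has a smaller error -/
lemma WD_lt {m n : ℕ} {Nm : Seminorm ℝ (Fin m → ℝ)} {Nn : Seminorm ℝ (Fin n → ℝ)}
    {Θ : Matrix (Fin n) (Fin m) ℝ} {x x' : Fin m → ℤ} {y y' : Fin n → ℤ} (hx : x ≠ 0)
    (h : IsBest Nm Nn Θ x' y') (hl : len Nm x < len Nm x') :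
    err Nn Θ x' y' < err Nn Θ x y := by
  by_contra hc
  push Not at hc
  rcases h.2 x y hl.le hc with h | h | h
  · exact hx h.1
  · rw [h.1] at hl
    exact lt_irrefl _ hl
  · rw [h.1, WD_len_neg] at hl
    exact lt_irrefl _ hl

/-- the half difference of two congruent best approximations is long -/
lemma WD_key {m n : ℕ} {Nm : Seminorm ℝ (Fin m → ℝ)} {Nn : Seminorm ℝ (Fin n → ℝ)}
    {Θ : Matrix (Fin n) (Fin m) ℝ} {x x' : Fin m → ℤ} {y y' : Fin n → ℤ}
    (h : IsBest Nm Nn Θ x y) (h' : IsBest Nm Nn Θ x' y') (hl : len Nm x < len Nm x')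
    (hx : ∀ j, (2 : ℤ) ∣ x' j - x j) (hy : ∀ i, (2 : ℤ) ∣ y' i - y i) (s s' : Bool) :
    2 * len Nm x ≤ len Nm (WD_sg s • x - WD_sg s' • x') := by
  have hx2 : ∀ j, (2 : ℤ) ∣ (WD_sg s • x - WD_sg s' • x') j := by
    intro j
    have h1 := hx j
    simp only [Pi.sub_apply, Pi.smul_apply, smul_eq_mul]
    rcases WD_sg_cases s with hs | hs <;> rcases WD_sg_cases s' with hs' | hs' <;>
      rw [hs, hs'] <;> omega
  have hy2 : ∀ i, (2 : ℤ) ∣ (WD_sg s • y - WD_sg s' • y') i := by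
    intro i
    have h1 := hy i
    simp only [Pi.sub_apply, Pi.smul_apply, smul_eq_mul]
    rcases WD_sg_cases s with hs | hs <;> rcases WD_sg_cases s' with hs' | hs' <;>
      rw [hs, hs'] <;> omega
  choose w hw using hx2
  choose v hv using hy2
  have e1 := WD_len2 Nm (fun j => (hw j).symm)
  have e2 := WD_err2 Nn Θ (fun j => (hw j).symm) (fun i => (hv i).symm)
  have e3 := WD_err_sub Nn Θ (WD_sg s • x) (WD_sg s' • x') (WD_sg s • y) (WD_sg s' • y')
  rw [WD_err_sg, WD_err_sg] at e3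
  have e4 := WD_lt (y := y) h.1 h' hl
  have e5 : err Nn Θ w v < err Nn Θ x y := by linarith
  rw [e1]
  by_contra hc
  push Not at hc
  have e6 : len Nm w ≤ len Nm x := by linarith
  rcases h.2 w v e6 e5.le with h1 | h1 | h1
  · have h2 : WD_sg s • x = WD_sg s' • x' := by
      funext j
      have h3 := hw j
      rw [h1.1] at h3
      simp only [Pi.sub_apply, Pi.zero_apply, mul_zero] at h3
      linarith
    have h4 := congrArg (len Nm) h2
    rw [WD_len_sg, WD_len_sg] at h4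
    linarith
  · rw [h1.1, h1.2] at e5
    exact lt_irrefl _ e5
  · rw [h1.1, h1.2, WD_err_neg] at e5
    exact lt_irrefl _ e5

theorem p_WD (hP : Stmt_PCK) : Stmt_WD := by
  classical
  intro m n Nm Nn hNm hNn Θ hm hn R hR T hT
  have hch : ∀ r : ℝ, ∃ (x : Fin m → ℤ) (y : Fin n → ℤ),
      r ∈ T → IsBest Nm Nn Θ x y ∧ len Nm x = r := by
    intro r
    by_cases h : r ∈ T
    · obtain ⟨x, y, h1, h2⟩ := (hT r h).1
      exact ⟨x, y, fun _ => ⟨h1, h2⟩⟩
    · exact ⟨0, 0, fun h' => absurd h' h⟩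
  choose X Y hXY using hch
  let f : ℝ → (Fin m → ZMod 2) × (Fin n → ZMod 2) := fun r =>
    (fun j => (X r j : ZMod 2), fun i => (Y r i : ZMod 2))
  -- distances inside a class
  have hdist : ∀ r r' : ℝ, r ∈ T → r' ∈ T → f r = f r' → ∀ s s' : Bool, (r, s) ≠ (r', s') →
      2 * R ≤ len Nm (WD_sg s • X r - WD_sg s' • X r') := by
    have hlt : ∀ r r' : ℝ, r ∈ T → r' ∈ T → f r = f r' → r < r' → ∀ s s' : Bool,
        2 * R ≤ len Nm (WD_sg s • X r - WD_sg s' • X r') := by
      intro r r' hr hr' hf hlt s s'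
      have h1 : ∀ j, (2 : ℤ) ∣ X r' j - X r j := by
        intro j
        have h2 : (X r j : ZMod 2) = (X r' j : ZMod 2) := congrFun (congrArg Prod.fst hf) j
        exact_mod_cast (ZMod.intCast_eq_intCast_iff_dvd_sub _ _ 2).1 h2
      have h3 : ∀ i, (2 : ℤ) ∣ Y r' i - Y r i := by
        intro i
        have h2 : (Y r i : ZMod 2) = (Y r' i : ZMod 2) := congrFun (congrArg Prod.snd hf) i
        exact_mod_cast (ZMod.intCast_eq_intCast_iff_dvd_sub _ _ 2).1 h2
      have h4 := WD_key (hXY r hr).1 (hXY r' hr').1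
        (by rw [(hXY r hr).2, (hXY r' hr').2]; exact hlt) h1 h3 s s'
      rw [(hXY r hr).2] at h4
      linarith [(hT r hr).2.1]
    intro r r' hr hr' hf s s' hne
    rcases lt_trichotomy r r' with h | h | h
    · exact hlt r r' hr hr' hf h s s'
    · subst h
      have hs : s ≠ s' := fun h => hne (by rw [h])
      have h5 : ∀ j, 2 * (WD_sg s • X r) j = (WD_sg s • X r - WD_sg s' • X r) j := by
        intro j
        simp only [Pi.sub_apply, Pi.smul_apply, smul_eq_mul]
        cases s <;> cases s' <;> simp [WD_sg] at hs ⊢ <;> ring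
      rw [WD_len2 Nm h5, WD_len_sg, (hXY r hr).2]
      linarith [(hT r hr).2.1]
    · have h6 := hlt r' r hr' hr hf.symm h s' s
      have h7 : WD_sg s • X r - WD_sg s' • X r' = -(WD_sg s' • X r' - WD_sg s • X r) := by
        abel
      rw [h7, WD_len_neg]
      exact h6
  -- the size of a class
  have hclass : ∀ c : (Fin m → ZMod 2) × (Fin n → ZMod 2),
      2 * (T.filter fun r => f r = c).card ≤ 3 ^ m := by
    intro c
    let pt : ℝ × Bool → Fin m → ℝ := fun p j => ((WD_sg p.2 • X p.1) j : ℝ)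
    have hsub : ∀ p q : ℝ × Bool, pt p - pt q =
        fun j => (((WD_sg p.2 • X p.1 - WD_sg q.2 • X q.1) j : ℤ) : ℝ) := by
      intro p q
      funext j
      simp only [pt, Pi.sub_apply, Int.cast_sub]
    have hd : ∀ p ∈ (T.filter fun r => f r = c) ×ˢ (univ : Finset Bool),
        ∀ q ∈ (T.filter fun r => f r = c) ×ˢ (univ : Finset Bool), p ≠ q →
        2 * R ≤ Nm (pt p - pt q) := by
      intro p hp q hq hpq
      obtain ⟨hp1, hp2⟩ := Finset.mem_filter.1 (Finset.mem_product.1 hp).1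
      obtain ⟨hq1, hq2⟩ := Finset.mem_filter.1 (Finset.mem_product.1 hq).1
      rw [hsub]
      exact hdist p.1 q.1 hp1 hq1 (hp2.trans hq2.symm) p.2 q.2 hpq
    have hinj : Set.InjOn pt ((T.filter fun r => f r = c) ×ˢ (univ : Finset Bool) :
        Finset (ℝ × Bool)) := by
      intro p hp q hq hpq
      by_contra hne
      have h1 := hd p hp q hq hne
      rw [hpq, sub_self, map_zero] at h1
      linarith
    have h2 := hP m Nm hNm (2 * R) (2 * R) (by linarith) (by linarith)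
      (((T.filter fun r => f r = c) ×ˢ (univ : Finset Bool)).image pt) ?_ ?_
    · rw [Finset.card_image_of_injOn hinj, Finset.card_product, Finset.card_univ,
        Fintype.card_bool] at h2
      have h3 : (2 * (2 * R) + 2 * R) ^ m = 3 ^ m * (2 * R) ^ m := by
        rw [← mul_pow]
        congr 1
        ring
      rw [h3] at h2
      have h4 := le_of_mul_le_mul_right h2 (pow_pos (by linarith) m)
      rw [mul_comm]
      exact_mod_cast h4
    · intro x hx
      obtain ⟨p, hp, rfl⟩ := Finset.mem_image.1 hx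
      obtain ⟨hp1, hp2⟩ := Finset.mem_filter.1 (Finset.mem_product.1 hp).1
      have h5 : Nm (pt p) = p.1 := by
        have h6 : len Nm (WD_sg p.2 • X p.1) = p.1 := by
          rw [WD_len_sg]
          exact (hXY p.1 hp1).2
        exact h6
      rw [h5]
      exact (hT p.1 hp1).2.2.le
    · intro x hx y hy hxy
      obtain ⟨p, hp, rfl⟩ := Finset.mem_image.1 hx
      obtain ⟨q, hq, rfl⟩ := Finset.mem_image.1 hy
      exact hd p hp q hq fun h => hxy (by rw [h])
  have h1 : T.card = ∑ c : (Fin m → ZMod 2) × (Fin n → ZMod 2),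
      (T.filter fun r => f r = c).card :=
    Finset.card_eq_sum_card_fiberwise fun r _ => Finset.mem_coe.2 (Finset.mem_univ _)
  have h2 : 2 * T.card ≤ 2 ^ m * 2 ^ n * 3 ^ m := by
    rw [h1, Finset.mul_sum]
    refine (Finset.sum_le_card_nsmul _ _ _ fun c _ => hclass c).trans (le_of_eq ?_)
    rw [Finset.card_univ, Fintype.card_prod, Fintype.card_fun, Fintype.card_fun, Fintype.card_fin,
      Fintype.card_fin, ZMod.card, smul_eq_mul]
  have h3 : 2 ^ m * 2 ^ n = 2 * 2 ^ (m + n - 1) := by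
    rw [← pow_add, ← pow_succ', show m + n - 1 + 1 = m + n by omega]
  rw [h3, mul_assoc] at h2
  exact Nat.le_of_mul_le_mul_left h2 (by norm_num)

end Pool.LE
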