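import Pool.Agent.Work.MP_7453a1_le.Interface2

set_option autoImplicit false

/-! # Block WE: one window of errors, all norms -/

namespace Pool.LE

open Finset Filter
open Pool.Agent.Work.MP_7453a1_nt_norm (IsNorm)
open Pool.Agent.Work.MP_7453a1_nt_two (Admissible IsBest Lengths G g len err)

/-- the error vector -/
noncomputable def WE_E {m n : ℕ} (Θ : Matrix (Fin n) (Fin m) ℝ) (x : Fin m → ℤ) (y : Fin n → ℤ) :
    Fin n → ℝ := fun i => (∑ j, Θ i j * x j) - y i

theorem WE_E_neg {m n : ℕ} (Θ : Matrix (Fin n) (Fin m) ℝ) (x : Fin m → ℤ) (y : Fin n → ℤ) :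
    WE_E Θ (-x) (-y) = -WE_E Θ x y := by
  funext i
  simp only [WE_E, Pi.neg_apply, Int.cast_neg, mul_neg, Finset.sum_neg_distrib]
  ring

theorem WE_err_neg {m n : ℕ} (Nn : Seminorm ℝ (Fin n → ℝ)) (Θ : Matrix (Fin n) (Fin m) ℝ)
    (x : Fin m → ℤ) (y : Fin n → ℤ) : err Nn Θ (-x) (-y) = err Nn Θ x y := by
  show Nn (WE_E Θ (-x) (-y)) = Nn (WE_E Θ x y)
  rw [WE_E_neg, map_neg_eq_map]

theorem WE_len_neg {m : ℕ} (Nm : Seminorm ℝ (Fin m → ℝ)) (x : Fin m → ℤ) :
    len Nm (-x) = len Nm x := by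
  have h : (fun j => ((-x) j : ℤ) : Fin m → ℝ) = -(fun j => (x j : ℤ) : Fin m → ℝ) := by
    funext j
    simp
  show Nm _ = Nm _
  rw [h, map_neg_eq_map]

theorem WE_dist {m n : ℕ} (Nm : Seminorm ℝ (Fin m → ℝ)) (Nn : Seminorm ℝ (Fin n → ℝ))
    (Θ : Matrix (Fin n) (Fin m) ℝ) (x x' : Fin m → ℤ) (y y' : Fin n → ℤ)
    (hB : IsBest Nm Nn Θ x' y') (hlt : len Nm x < len Nm x')
    (hx : ∀ j, (2 : ℤ) ∣ x j - x' j) (hy : ∀ i, (2 : ℤ) ∣ y i - y' i) (δ : ℤ)
    (hδ : δ = 1 ∨ δ = -1) :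
    2 * err Nn Θ x' y' ≤ Nn (WE_E Θ x y + (δ : ℝ) • WE_E Θ x' y') := by
  have hW : ∀ j, ∃ w : ℤ, x j + δ * x' j = 2 * w := by
    intro j
    obtain ⟨u, hu⟩ := hx j
    rcases hδ with h | h
    · exact ⟨u + x' j, by rw [h]; linarith⟩
    · exact ⟨u, by rw [h]; linarith⟩
  have hV : ∀ i, ∃ w : ℤ, y i + δ * y' i = 2 * w := by
    intro i
    obtain ⟨u, hu⟩ := hy i
    rcases hδ with h | h
    · exact ⟨u + y' i, by rw [h]; linarith⟩
    · exact ⟨u, by rw [h]; linarith⟩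
  choose W hW using hW
  choose V hV using hV
  have hδn : ‖(δ : ℝ)‖ = 1 := by
    rcases hδ with h | h <;> simp [h]
  have e1 : (fun j => (x j : ℝ)) + (δ : ℝ) • (fun j => (x' j : ℝ)) =
      (2 : ℝ) • fun j => (W j : ℝ) := by
    funext j
    have := congrArg (fun t : ℤ => (t : ℝ)) (hW j)
    push_cast at this
    simpa using this
  have e2 : WE_E Θ x y + (δ : ℝ) • WE_E Θ x' y' = (2 : ℝ) • WE_E Θ W V := by
    funext i
    have h1 := congrArg (fun t : ℤ => (t : ℝ)) (hV i)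
    push_cast at h1
    have h2 : (∑ j, Θ i j * (x j : ℝ)) + (δ : ℝ) * (∑ j, Θ i j * (x' j : ℝ)) =
        2 * ∑ j, Θ i j * (W j : ℝ) := by
      rw [Finset.mul_sum, Finset.mul_sum, ← Finset.sum_add_distrib]
      refine Finset.sum_congr rfl fun j _ => ?_
      have := congrArg (fun t : ℤ => (t : ℝ)) (hW j)
      push_cast at this
      linear_combination (Θ i j) * this
    show ((∑ j, Θ i j * (x j : ℝ)) - (y i : ℝ)) + (δ : ℝ) * ((∑ j, Θ i j * (x' j : ℝ)) - (y' i : ℝ)) =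
      2 * ((∑ j, Θ i j * (W j : ℝ)) - (V i : ℝ))
    linear_combination h2 - h1
  have e3 : 2 * len Nm W ≤ len Nm x + len Nm x' := by
    have h1 : 2 * len Nm W = Nm ((2 : ℝ) • fun j => (W j : ℝ)) := by
      rw [map_smul_eq_mul]
      simp [len]
    rw [h1, ← e1]
    refine (map_add_le_add Nm _ _).trans ?_
    rw [map_smul_eq_mul, hδn, one_mul]
    exact le_rfl
  have e4 : Nn (WE_E Θ x y + (δ : ℝ) • WE_E Θ x' y') = 2 * err Nn Θ W V := by
    rw [e2, map_smul_eq_mul, Real.norm_eq_abs, abs_two]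
    rfl
  rw [e4]
  have hWlt : len Nm W < len Nm x' := by linarith
  by_contra hcon
  push Not at hcon
  have h5 : err Nn Θ W V ≤ err Nn Θ x' y' := by linarith
  rcases hB.2 W V hWlt.le h5 with h | h | h
  · have h6 : x = fun j => -δ * x' j := by
      funext j
      have := hW j
      rw [h.1] at this
      simp only [Pi.zero_apply, mul_zero] at this
      linarith
    have h7 : len Nm x = len Nm x' := by
      rcases hδ with h8 | h8
      · have : x = -x' := by
          rw [h6, h8]; funext j; simp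
        rw [this, WE_len_neg]
      · have : x = x' := by
          rw [h6, h8]; funext j; simp
        rw [this]
    exact hlt.ne h7
  · rw [h.1] at hWlt
    exact lt_irrefl _ hWlt
  · rw [h.1, WE_len_neg] at hWlt
    exact lt_irrefl _ hWlt

/-- signs -/
def WE_s (ε : Bool) : ℤ := if ε then 1 else -1

theorem p_WE (hPCK : Stmt_PCK) : Stmt_WE := by
  intro m n Nm Nn _hNm hNn Θ hm _hn T x x' y y' hB hB' hT hcard
  by_contra hcon
  push Not at hcon
  set ζ := err Nn Θ x y with hζ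
  set ζ' := err Nn Θ x' y' with hζ'
  have hζ0 : 0 ≤ ζ := apply_nonneg Nn _
  have hζ'0 : 0 < ζ' := by linarith
  choose X Y hXY hXr using fun r : T => (hT r.1 r.2).1
  -- the errors are at most `ζ` and at least `ζ'`
  have hup : ∀ r : T, err Nn Θ (X r) (Y r) ≤ ζ := by
    intro r
    by_contra h
    push Not at h
    have h1 : len Nm x ≤ len Nm (X r) := by rw [hXr r]; exact (hT r.1 r.2).2.1
    rcases (hXY r).2 x y h1 h.le with h2 | h2 | h2
    · exact hB.1 h2.1
    · rw [hζ, h2.1, h2.2] at h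
      exact lt_irrefl _ h
    · rw [hζ, h2.1, h2.2, WE_err_neg] at h
      exact lt_irrefl _ h
  have hlo : ∀ r : T, ζ' ≤ err Nn Θ (X r) (Y r) := by
    intro r
    by_contra h
    push Not at h
    have h1 : len Nm (X r) ≤ len Nm x' := by rw [hXr r]; exact (hT r.1 r.2).2.2
    rcases hB'.2 (X r) (Y r) h1 h.le with h2 | h2 | h2
    · exact (hXY r).1 h2.1
    · rw [h2.1, h2.2] at h
      exact lt_irrefl _ h
    · rw [h2.1, h2.2, WE_err_neg] at h
      exact lt_irrefl _ h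
  -- the classes
  let cls : T → (Fin m → ZMod 2) × (Fin n → ZMod 2) := fun r =>
    (fun j => ((X r j : ℤ) : ZMod 2), fun i => ((Y r i : ℤ) : ZMod 2))
  have hpig : ∃ c ∈ (univ : Finset ((Fin m → ZMod 2) × (Fin n → ZMod 2))),
      3 ^ n < 2 * ((univ : Finset T).filter fun r => cls r = c).card := by
    by_contra hne
    push Not at hne
    have h1 : (univ : Finset T).card = ∑ c ∈ (univ : Finset ((Fin m → ZMod 2) × (Fin n → ZMod 2))),
        ((univ : Finset T).filter fun r => cls r = c).card :=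
      Finset.card_eq_sum_card_fiberwise fun _ _ => Finset.mem_coe.2 (Finset.mem_univ _)
    have h2 : 2 * (univ : Finset T).card ≤ 2 ^ (m + n) * 3 ^ n := by
      rw [h1, Finset.mul_sum]
      refine (Finset.sum_le_sum hne).trans (le_of_eq ?_)
      rw [Finset.sum_const, Finset.card_univ, smul_eq_mul, Fintype.card_prod, Fintype.card_fun,
        Fintype.card_fun, Fintype.card_fin, Fintype.card_fin, ZMod.card, ← pow_add]
    rw [Finset.card_univ, Fintype.card_coe] at h2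
    have h3 : 2 ^ (m + n) = 2 * 2 ^ (m + n - 1) := by
      rw [← pow_succ']
      congr 1
      omega
    rw [h3] at h2
    nlinarith
  obtain ⟨c, -, hc⟩ := hpig
  set C := (univ : Finset T).filter fun r => cls r = c with hC
  -- the vectors
  let v : T × Bool → Fin n → ℝ := fun p => ((WE_s p.2 : ℤ) : ℝ) • WE_E Θ (X p.1) (Y p.1)
  have hs1 : ∀ ε, WE_s ε = 1 ∨ WE_s ε = -1 := by
    intro ε; cases ε <;> simp [WE_s]
  have hsn : ∀ ε, ‖((WE_s ε : ℤ) : ℝ)‖ = 1 := by
    intro ε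
    rcases hs1 ε with h | h <;> simp [h]
  have hcls : ∀ r ∈ C, ∀ r' ∈ C, (∀ j, (2 : ℤ) ∣ X r j - X r' j) ∧ ∀ i, (2 : ℤ) ∣ Y r i - Y r' i := by
    intro r hr r' hr'
    have h1 : cls r = cls r' := by
      rw [(Finset.mem_filter.1 hr).2, (Finset.mem_filter.1 hr').2]
    refine ⟨fun j => ?_, fun i => ?_⟩
    · have h2 : ((X r j : ℤ) : ZMod 2) = ((X r' j : ℤ) : ZMod 2) := congrFun (congrArg Prod.fst h1) j
      exact (ZMod.intCast_eq_intCast_iff_dvd_sub _ _ 2).1 h2.symm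
    · have h2 : ((Y r i : ℤ) : ZMod 2) = ((Y r' i : ℤ) : ZMod 2) := congrFun (congrArg Prod.snd h1) i
      exact (ZMod.intCast_eq_intCast_iff_dvd_sub _ _ 2).1 h2.symm
  have hlt : ∀ r ∈ C, ∀ r' ∈ C, (r : ℝ) < r' → ∀ ε ε', 2 * ζ' ≤ Nn (v (r, ε) - v (r', ε')) := by
    intro r hr r' hr' hrr ε ε'
    have h1 := hcls r hr r' hr'
    have h2 : len Nm (X r) < len Nm (X r') := by rw [hXr, hXr]; exact hrr
    have hδ : -(WE_s ε * WE_s ε') = 1 ∨ -(WE_s ε * WE_s ε') = -1 := by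
      rcases hs1 ε with h | h <;> rcases hs1 ε' with h' | h' <;> simp [h, h']
    have h3 := WE_dist Nm Nn Θ (X r) (X r') (Y r) (Y r') (hXY r') h2 h1.1 h1.2 _ hδ
    have h4 : v (r, ε) - v (r', ε') = ((WE_s ε : ℤ) : ℝ) • (WE_E Θ (X r) (Y r) +
        ((-(WE_s ε * WE_s ε') : ℤ) : ℝ) • WE_E Θ (X r') (Y r')) := by
      show ((WE_s ε : ℤ) : ℝ) • WE_E Θ (X r) (Y r) - ((WE_s ε' : ℤ) : ℝ) • WE_E Θ (X r') (Y r') = _
      rw [smul_add, smul_smul, sub_eq_add_neg, ← neg_smul]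
      congr 2
      rcases hs1 ε with h | h <;> simp [h]
    rw [h4, map_smul_eq_mul, hsn, one_mul]
    have := hlo r'
    linarith
  have hne : ∀ p ∈ C ×ˢ (univ : Finset Bool), ∀ q ∈ C ×ˢ (univ : Finset Bool), p ≠ q →
      2 * ζ' ≤ Nn (v p - v q) := by
    rintro ⟨r, ε⟩ hp ⟨r', ε'⟩ hq hpq
    have hr := (Finset.mem_product.1 hp).1
    have hr' := (Finset.mem_product.1 hq).1
    rcases lt_trichotomy (r : ℝ) r' with h | h | h
    · exact hlt r hr r' hr' h ε ε'
    · have hrr : r = r' := Subtype.ext h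
      subst hrr
      have hεε : ε ≠ ε' := fun h => hpq (by rw [h])
      have h1 : v (r, ε) - v (r, ε') = (2 * ((WE_s ε : ℤ) : ℝ)) • WE_E Θ (X r) (Y r) := by
        show ((WE_s ε : ℤ) : ℝ) • WE_E Θ (X r) (Y r) - ((WE_s ε' : ℤ) : ℝ) • WE_E Θ (X r) (Y r) = _
        rw [← sub_smul]
        congr 1
        cases ε <;> cases ε' <;> simp_all [WE_s] <;> norm_num
      rw [h1, map_smul_eq_mul, norm_mul, hsn]
      have := hlo r
      have h2 : Nn (WE_E Θ (X r) (Y r)) = err Nn Θ (X r) (Y r) := rfl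
      rw [h2]
      norm_num
      exact this
    · have := hlt r' hr' r hr h ε' ε
      rwa [map_sub_rev] at this
  have hinj : Set.InjOn v (C ×ˢ (univ : Finset Bool) : Finset (T × Bool)) := by
    intro p hp q hq hpq
    by_contra h
    have := hne p hp q hq h
    rw [hpq, sub_self, map_zero] at this
    linarith
  classical
  have hS := hPCK n Nn hNn (2 * ζ') (2 * ζ') (by linarith) (by linarith)
    ((C ×ˢ (univ : Finset Bool)).image v)
    (by
      intro z hz
      obtain ⟨p, hp, rfl⟩ := Finset.mem_image.1 hz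
      show Nn (((WE_s p.2 : ℤ) : ℝ) • WE_E Θ (X p.1) (Y p.1)) ≤ _
      rw [map_smul_eq_mul, hsn, one_mul]
      have h1 := hup p.1
      have h2 : Nn (WE_E Θ (X p.1) (Y p.1)) = err Nn Θ (X p.1) (Y p.1) := rfl
      rw [h2]
      linarith)
    (by
      intro z hz z' hz' hzz
      obtain ⟨p, hp, rfl⟩ := Finset.mem_image.1 hz
      obtain ⟨q, hq, rfl⟩ := Finset.mem_image.1 hz'
      exact hne p hp q hq fun h => hzz (by rw [h]))
  rw [Finset.card_image_of_injOn hinj, Finset.card_product, Finset.card_univ, Fintype.card_bool] at hS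
  have h1 : (2 * (2 * ζ') + 2 * ζ') ^ n = 3 ^ n * (2 * ζ') ^ n := by
    rw [← mul_pow]
    congr 1
    ring
  rw [h1] at hS
  have h2 : (0 : ℝ) < (2 * ζ') ^ n := by positivity
  have h3 := le_of_mul_le_mul_right hS h2
  have h4 : C.card * 2 ≤ 3 ^ n := by exact_mod_cast h3
  omega

end Pool.LE
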