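import Pool.Agent.Work.MP_7453a1_le.Interface2

set_option autoImplicit false

/-!
# Block WF: the pigeonhole principle for sums of best approximations, all norms
(typed by helper70, after the block WC of helper4)
-/

namespace Pool.LE

open Finset Filter
open Pool.Agent.Work.MP_7453a1_nt_norm (IsNorm)
open Pool.Agent.Work.MP_7453a1_nt_two (Admissible IsBest Lengths G g len err)

theorem WF_d {W : Type} [AddCommGroup W] [Module ℝ W] (N : Seminorm ℝ W) (δ : ℤ)
    (h : δ = 0 ∨ δ = 1 ∨ δ = -1) (v : W) : N (δ • v) ≤ N v := by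
  rcases h with h | h | h <;> subst h <;> simp

theorem WF_d' {W : Type} [AddCommGroup W] [Module ℝ W] (N : Seminorm ℝ W) (δ : ℤ)
    (h : δ = 0 ∨ δ = 1 ∨ δ = -1) (h0 : δ ≠ 0) (v : W) : N (δ • v) = N v := by
  rcases h with h | h | h
  · exact absurd h h0
  · subst h; simp
  · subst h; simp

theorem WF_sum {W : Type} [AddCommGroup W] [Module ℝ W] (N : Seminorm ℝ W) {ι : Type}
    (s : Finset ι) (f : ι → W) : N (∑ i ∈ s, f i) ≤ ∑ i ∈ s, N (f i) :=
  Finset.le_sum_of_subadditive N (map_zero N).le (map_add_le_add N) s f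

theorem WF_tail (e : ℕ → ℝ) (P : ℕ) (h : ∀ b, b < P → 2 * e (b + 1) ≤ e b) :
    ∀ k b, b + k = P → ∑ i ∈ Finset.Ioc b P, e i ≤ (1 - 1 / 2 ^ k) * e b := by
  intro k
  induction k with
  | zero =>
    intro b hb
    have hb' : b = P := by omega
    subst hb'
    simp
  | succ k ih =>
    intro b hb
    have h1 := ih (b + 1) (by omega)
    have h2 := h b (by omega)
    rw [← Finset.sum_Ioc_consecutive e (Nat.le_succ b) (by omega : b + 1 ≤ P),
      Nat.Ioc_succ_singleton, Finset.sum_singleton]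
    have h3 : (0 : ℝ) ≤ 1 - 1 / 2 ^ (k + 1) := by
      have : (1 : ℝ) / 2 ^ (k + 1) ≤ 1 := by
        rw [div_le_one (by positivity)]
        exact one_le_pow₀ (by norm_num)
      linarith
    have h4 : (1 : ℝ) / 2 ^ k = 2 * (1 / 2 ^ (k + 1)) := by
      rw [pow_succ]; field_simp
    rw [h4] at h1
    nlinarith [mul_le_mul_of_nonneg_left h2 h3]

theorem WF_gen {Z : Type} [AddCommGroup Z] (m n : ℕ) (Nm : Seminorm ℝ (Fin m → ℝ))
    (Nn : Seminorm ℝ (Fin n → ℝ)) (hNm : IsNorm Nm) (hPCK : Stmt_PCK)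
    (X : Z →+ (Fin m → ℝ)) (E : Z →+ (Fin n → ℝ)) (R : ℝ) (hR : 0 < R) (P : ℕ) (hP1 : 1 ≤ P)
    (hP : (4 * P + 1) ^ m < 2 ^ P) (z : ℕ → Z)
    (hX : ∀ b, b ≤ P → Nm (X (z b)) < 2 * R)
    (hE : ∀ b, b < P → 2 * Nn (E (z (b + 1))) ≤ Nn (E (z b)))
    (hpos : ∀ b, b < P → 0 < Nn (E (z b))) (hzP : z P ≠ 0)
    (hbest : ∀ w : Z, Nm (X w) < R → Nn (E w) ≤ Nn (E (z 0)) → w = 0) : False := by
  classical
  have hsum : ∀ S ∈ (Finset.Ioc 0 P).powerset, Nm (X (∑ b ∈ S, z b)) ≤ 2 * P * R := by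
    intro S hS
    rw [Finset.mem_powerset] at hS
    calc Nm (X (∑ b ∈ S, z b)) ≤ ∑ b ∈ S, Nm (X (z b)) := by
          rw [map_sum]
          exact WF_sum Nm _ _
      _ ≤ ∑ b ∈ Finset.Ioc 0 P, Nm (X (z b)) :=
          Finset.sum_le_sum_of_subset_of_nonneg hS (fun _ _ _ => apply_nonneg _ _)
      _ ≤ ∑ b ∈ Finset.Ioc 0 P, 2 * R := by
          apply Finset.sum_le_sum
          intro b hb
          exact (hX b (Finset.mem_Ioc.1 hb).2).le
      _ = 2 * P * R := by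
          rw [Finset.sum_const, Nat.card_Ioc, nsmul_eq_mul, Nat.sub_zero]; ring
  obtain ⟨S, hS, S', hS', hne, hcl⟩ : ∃ S ∈ (Finset.Ioc 0 P).powerset,
      ∃ S' ∈ (Finset.Ioc 0 P).powerset, S ≠ S' ∧
        Nm (X (∑ b ∈ S, z b) - X (∑ b ∈ S', z b)) < R := by
    by_contra hcon
    push Not at hcon
    have hinj : Set.InjOn (fun S : Finset ℕ => X (∑ b ∈ S, z b))
        ((Finset.Ioc 0 P).powerset : Set (Finset ℕ)) := by
      intro S hS S' hS' he
      by_contra hne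
      have h1 := hcon S hS S' hS' hne
      have h2 : X (∑ b ∈ S, z b) = X (∑ b ∈ S', z b) := he
      rw [h2, sub_self, map_zero] at h1
      exact absurd hR (not_lt.2 h1)
    have h1 := hPCK m Nm hNm (2 * P * R) R (by positivity) hR
      ((Finset.Ioc 0 P).powerset.image (fun S : Finset ℕ => X (∑ b ∈ S, z b))) (by
        intro x hx
        rw [Finset.mem_image] at hx
        obtain ⟨S, hS, rfl⟩ := hx
        exact hsum S hS) (by
        intro x hx y hy hxy
        rw [Finset.mem_image] at hx hy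
        obtain ⟨S, hS, rfl⟩ := hx
        obtain ⟨S', hS', rfl⟩ := hy
        refine hcon S hS S' hS' (fun h => hxy ?_)
        rw [h])
    rw [Finset.card_image_of_injOn hinj, Finset.card_powerset, Nat.card_Ioc, Nat.sub_zero] at h1
    have h2 : (2 * (2 * (P : ℝ) * R) + R) ^ m = (4 * (P : ℝ) + 1) ^ m * R ^ m := by
      rw [← mul_pow]; congr 1; ring
    rw [h2] at h1
    have h3 := le_of_mul_le_mul_right h1 (pow_pos hR m)
    have h4 : ((4 * (P : ℝ) + 1) ^ m) < 2 ^ P := by exact_mod_cast hP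
    push_cast at h3
    linarith
  rw [Finset.mem_powerset] at hS hS'
  set δ : ℕ → ℤ := fun b => (if b ∈ S then 1 else 0) - (if b ∈ S' then 1 else 0) with hδ
  have hδ3 : ∀ b, δ b = 0 ∨ δ b = 1 ∨ δ b = -1 := by
    intro b
    simp only [hδ]
    split_ifs <;> simp
  have hin : ∀ S₀ : Finset ℕ, S₀ ⊆ Finset.Ioc 0 P →
      ∑ b ∈ Finset.Ioc 0 P, (if b ∈ S₀ then (1 : ℤ) else 0) • z b = ∑ b ∈ S₀, z b := by
    intro S₀ hS₀
    simp only [ite_smul, one_smul, zero_smul]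
    rw [Finset.sum_ite_mem, Finset.inter_eq_right.2 hS₀]
  have hw : ∑ b ∈ Finset.Ioc 0 P, δ b • z b = ∑ b ∈ S, z b - ∑ b ∈ S', z b := by
    rw [← hin S hS, ← hin S' hS', ← Finset.sum_sub_distrib]
    exact Finset.sum_congr rfl (fun b _ => sub_smul _ _ _)
  have hw0 : ∑ b ∈ Finset.Ioc 0 P, δ b • z b = 0 := by
    apply hbest
    · rw [hw, map_sub]
      exact hcl
    · rw [map_sum]
      calc Nn (∑ b ∈ Finset.Ioc 0 P, E (δ b • z b)) ≤ ∑ b ∈ Finset.Ioc 0 P, Nn (E (δ b • z b)) :=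
            WF_sum Nn _ _
        _ ≤ ∑ b ∈ Finset.Ioc 0 P, Nn (E (z b)) := by
            apply Finset.sum_le_sum
            intro b _
            rw [map_zsmul]
            exact WF_d Nn _ (hδ3 b) _
        _ ≤ (1 - 1 / 2 ^ P) * Nn (E (z 0)) := WF_tail (fun b => Nn (E (z b))) P hE P 0 (by omega)
        _ ≤ Nn (E (z 0)) := by
            have h1 : (0 : ℝ) < 1 / 2 ^ P := by positivity
            nlinarith [apply_nonneg Nn (E (z 0))]
  have hD : ((Finset.Ioc 0 P).filter (fun b => δ b ≠ 0)).Nonempty := by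
    by_contra hcon
    rw [Finset.not_nonempty_iff_eq_empty, Finset.filter_eq_empty_iff] at hcon
    apply hne
    ext b
    by_cases hb : b ∈ Finset.Ioc 0 P
    · have h1 := hcon hb
      simp only [hδ, not_not] at h1
      by_cases h2 : b ∈ S <;> by_cases h3 : b ∈ S' <;> simp [h2, h3] at h1 ⊢
    · exact ⟨fun h => absurd (hS h) hb, fun h => absurd (hS' h) hb⟩
  obtain ⟨b, hbD, hbmin⟩ := ((Finset.Ioc 0 P).filter (fun b => δ b ≠ 0)).exists_min_image id hD
  rw [Finset.mem_filter, Finset.mem_Ioc] at hbD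
  obtain ⟨⟨hb0, hbP⟩, hδb⟩ := hbD
  obtain ⟨k, rfl⟩ : ∃ k, b = k + 1 := ⟨b - 1, by omega⟩
  have hz0 : ∑ i ∈ Finset.Ioc 0 k, δ i • z i = 0 := by
    apply Finset.sum_eq_zero
    intro i hi
    rw [Finset.mem_Ioc] at hi
    by_cases h : δ i = 0
    · rw [h, zero_smul]
    · have h1 := hbmin i (Finset.mem_filter.2 ⟨Finset.mem_Ioc.2 ⟨hi.1, by omega⟩, h⟩)
      simp only [id] at h1
      omega
  have hsplit : δ (k + 1) • z (k + 1) + ∑ i ∈ Finset.Ioc (k + 1) P, δ i • z i = 0 := by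
    rw [← Finset.sum_Ioc_consecutive _ (Nat.zero_le k) (by omega : k ≤ P), hz0, zero_add,
      ← Finset.sum_Ioc_consecutive _ (Nat.le_succ k) hbP, Nat.Ioc_succ_singleton,
      Finset.sum_singleton] at hw0
    exact hw0
  rcases Nat.lt_or_ge (k + 1) P with hk | hk
  · have h1 : Nn (E (z (k + 1))) ≤ ∑ i ∈ Finset.Ioc (k + 1) P, Nn (E (z i)) := by
      have h2 : E (δ (k + 1) • z (k + 1)) = - ∑ i ∈ Finset.Ioc (k + 1) P, E (δ i • z i) := by
        rw [← map_sum, ← map_neg]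
        exact congrArg E (eq_neg_of_add_eq_zero_left hsplit)
      calc Nn (E (z (k + 1))) = Nn (E (δ (k + 1) • z (k + 1))) := by
            rw [map_zsmul, WF_d' Nn _ (hδ3 _) hδb]
        _ = Nn (∑ i ∈ Finset.Ioc (k + 1) P, E (δ i • z i)) := by rw [h2, map_neg_eq_map]
        _ ≤ ∑ i ∈ Finset.Ioc (k + 1) P, Nn (E (δ i • z i)) := WF_sum Nn _ _
        _ ≤ ∑ i ∈ Finset.Ioc (k + 1) P, Nn (E (z i)) := by
            apply Finset.sum_le_sum
            intro i _
            rw [map_zsmul]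
            exact WF_d Nn _ (hδ3 i) _
    have h3 := WF_tail (fun b => Nn (E (z b))) P hE (P - (k + 1)) (k + 1) (by omega)
    have h4 := hpos (k + 1) hk
    have h5 : (0 : ℝ) < 1 / 2 ^ (P - (k + 1)) := by positivity
    nlinarith [mul_pos h5 h4]
  · have hkP : k + 1 = P := by omega
    rw [hkP, Finset.Ioc_self, Finset.sum_empty, add_zero] at hsplit
    rw [hkP] at hδb
    apply hzP
    rcases hδ3 P with h | h | h
    · exact absurd h hδb
    · rw [h, one_smul] at hsplit; exact hsplit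
    · rw [h, neg_smul, one_smul, neg_eq_zero] at hsplit; exact hsplit

theorem WF_num (m : ℕ) (hm : 1 ≤ m) : (4 * (8 * m ^ 2) + 1) ^ m < 2 ^ (8 * m ^ 2) := by
  have h1 : m < 2 ^ m := Nat.lt_two_pow_self
  have h2 : 4 * (8 * m ^ 2) + 1 < 2 ^ (8 * m) := by
    have h3 : m ^ 2 < (2 ^ m) ^ 2 := Nat.pow_lt_pow_left h1 (by norm_num)
    have h4 : (2 : ℕ) ^ (8 * m) = (2 ^ m) ^ 2 * (2 ^ m) ^ 6 := by
      rw [← pow_mul, ← pow_mul, ← pow_add]; congr 1; ring
    have h5 : 2 ≤ 2 ^ m := by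
      calc 2 = 2 ^ 1 := by norm_num
        _ ≤ 2 ^ m := Nat.pow_le_pow_right (by norm_num) hm
    have h6 : 2 ^ 6 ≤ (2 ^ m) ^ 6 := Nat.pow_le_pow_left h5 6
    rw [h4]
    calc 4 * (8 * m ^ 2) + 1 = m ^ 2 * 32 + 1 := by ring
      _ < (2 ^ m) ^ 2 * 2 ^ 6 := by norm_num; omega
      _ ≤ (2 ^ m) ^ 2 * (2 ^ m) ^ 6 := Nat.mul_le_mul_left _ h6
  calc (4 * (8 * m ^ 2) + 1) ^ m < (2 ^ (8 * m)) ^ m := Nat.pow_lt_pow_left h2 (by omega)
    _ = 2 ^ (8 * m ^ 2) := by rw [← pow_mul]; congr 1; ring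

/-- the length vector -/
noncomputable def WF_X (m n : ℕ) : (Fin m → ℤ) × (Fin n → ℤ) →+ (Fin m → ℝ) where
  toFun z := fun j => (z.1 j : ℝ)
  map_zero' := by funext j; simp
  map_add' a b := by funext j; simp

/-- the error vector -/
noncomputable def WF_E {m n : ℕ} (Θ : Matrix (Fin n) (Fin m) ℝ) :
    (Fin m → ℤ) × (Fin n → ℤ) →+ (Fin n → ℝ) where
  toFun z := fun i => (∑ j, Θ i j * z.1 j) - z.2 i
  map_zero' := by funext j; simp
  map_add' a b := by
    funext j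
    simp only [Prod.fst_add, Prod.snd_add, Pi.add_apply, Int.cast_add, mul_add,
      Finset.sum_add_distrib]
    ring

theorem WF_neg {m : ℕ} (Nm : Seminorm ℝ (Fin m → ℝ)) (x : Fin m → ℤ) :
    len Nm (-x) = len Nm x := by
  show Nm (fun j => (((-x) j : ℤ) : ℝ)) = Nm (fun j => ((x j : ℤ) : ℝ))
  rw [show (fun j => (((-x) j : ℤ) : ℝ)) = -(fun j => ((x j : ℤ) : ℝ)) from by
    funext j; simp, map_neg_eq_map]

theorem WF_lt {m n : ℕ} (Nm : Seminorm ℝ (Fin m → ℝ)) (Nn : Seminorm ℝ (Fin n → ℝ))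
    (Θ : Matrix (Fin n) (Fin m) ℝ) (x x' : Fin m → ℤ) (y y' : Fin n → ℤ)
    (h : IsBest Nm Nn Θ x y) (h' : IsBest Nm Nn Θ x' y')
    (hl : len Nm x < len Nm x') : err Nn Θ x' y' < err Nn Θ x y := by
  by_contra hcon
  push Not at hcon
  rcases h'.2 x y hl.le hcon with h1 | h1 | h1
  · exact h.1 h1.1
  · rw [h1.1] at hl; exact lt_irrefl _ hl
  · rw [h1.1, WF_neg] at hl
    exact lt_irrefl _ hl

theorem p_WF (hPCK : Stmt_PCK) (hWE : Stmt_WE) : Stmt_WF := by
  intro m n Nm Nn hNm hNn Θ hm hn R hR T hT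
  by_contra hcon
  push Not at hcon
  set Q : ℕ := 2 ^ (m + n - 1) * 3 ^ n with hQ
  set P : ℕ := 8 * m ^ 2 with hP
  have hQ0 : 0 < Q := by positivity
  have hP1 : 1 ≤ P := by
    have : 0 < m ^ 2 := by positivity
    omega
  have hbQ : ∀ b, b ≤ P → b * Q < T.card := fun b hb =>
    (Nat.mul_le_mul_right Q hb).trans_lt hcon
  let f : ℕ → ℝ := fun i => if h : i < T.card then T.orderEmbOfFin rfl ⟨i, h⟩ else 0
  have hfm : ∀ i, i < T.card → f i ∈ T := by
    intro i hi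
    simp only [f, dif_pos hi]
    exact Finset.orderEmbOfFin_mem T rfl _
  have hfs : ∀ i j, i < j → j < T.card → f i < f j := by
    intro i j hij hj
    have hi : i < T.card := hij.trans hj
    simp only [f, dif_pos hi, dif_pos hj]
    exact (T.orderEmbOfFin rfl).strictMono hij
  have hfle : ∀ i j, i ≤ j → j < T.card → f i ≤ f j := by
    intro i j hij hj
    rcases hij.lt_or_eq with h | h
    · exact (hfs i j h hj).le
    · rw [h]
  have hz : ∀ b, ∃ z : (Fin m → ℤ) × (Fin n → ℤ), b ≤ P →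
      IsBest Nm Nn Θ z.1 z.2 ∧ len Nm z.1 = f (b * Q) := by
    intro b
    by_cases hb : b ≤ P
    · obtain ⟨x, y, h1, h2⟩ := (hT _ (hfm _ (hbQ b hb))).1
      exact ⟨(x, y), fun _ => ⟨h1, h2⟩⟩
    · exact ⟨0, fun h => absurd h hb⟩
  choose z hz using hz
  have hlen : ∀ b, b < P → len Nm (z b).1 < len Nm (z (b + 1)).1 := by
    intro b hb
    rw [(hz b hb.le).2, (hz (b + 1) hb).2]
    apply hfs _ _ _ (hbQ _ hb)
    show b * Q < (b + 1) * Q
    rw [add_mul, one_mul]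
    omega
  refine WF_gen m n Nm Nn hNm hPCK (WF_X m n) (WF_E Θ) R hR P hP1 (WF_num m hm) z ?_ ?_ ?_ ?_ ?_
  · intro b hb
    have h1 := (hT _ (hfm _ (hbQ b hb))).2.2
    rw [← (hz b hb).2] at h1
    exact h1
  · intro b hb
    have h1 := hWE m n Nm Nn hNm hNn Θ hm hn ((Finset.Icc (b * Q) ((b + 1) * Q)).image f)
      (z b).1 (z (b + 1)).1
      (z b).2 (z (b + 1)).2 (hz b hb.le).1 (hz (b + 1) hb).1 (by
        intro r hr
        rw [Finset.mem_image] at hr
        obtain ⟨i, hi, rfl⟩ := hr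
        rw [Finset.mem_Icc] at hi
        have hi' : i < T.card := hi.2.trans_lt (hbQ _ hb)
        refine ⟨(hT _ (hfm _ hi')).1, ?_, ?_⟩
        · rw [(hz b hb.le).2]
          exact hfle _ _ hi.1 hi'
        · rw [(hz (b + 1) hb).2]
          exact hfle _ _ hi.2 (hbQ _ hb)) (by
        rw [Finset.card_image_of_injOn, Nat.card_Icc]
        · rw [add_mul, one_mul]
          omega
        · intro i hi j hj hij
          rw [Finset.coe_Icc, Set.mem_Icc] at hi hj
          rcases lt_trichotomy i j with h | h | h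
          · exact absurd hij (hfs i j h (hj.2.trans_lt (hbQ _ hb))).ne
          · exact h
          · exact absurd hij (hfs j i h (hi.2.trans_lt (hbQ _ hb))).ne')
    exact h1
  · intro b hb
    have h1 := WF_lt Nm Nn Θ _ _ _ _ (hz b hb.le).1 (hz (b + 1) hb).1 (hlen b hb)
    have h2 : 0 ≤ err Nn Θ (z (b + 1)).1 (z (b + 1)).2 := apply_nonneg _ _
    exact lt_of_le_of_lt h2 h1
  · intro h
    apply (hz P le_rfl).1.1
    rw [h]
    rfl
  · intro w hw1 hw2
    have hz0 := hz 0 (Nat.zero_le _)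
    have h1 : R ≤ len Nm (z 0).1 := by
      rw [hz0.2]
      exact (hT _ (hfm _ (hbQ 0 (Nat.zero_le _)))).2.1
    have hw3 : len Nm w.1 < R := hw1
    rcases hz0.1.2 w.1 w.2 (hw3.le.trans h1) hw2 with h2 | h2 | h2
    · exact Prod.ext h2.1 h2.2
    · rw [h2.1] at hw3
      exact absurd hw3 (not_lt.2 h1)
    · rw [h2.1, WF_neg] at hw3
      exact absurd hw3 (not_lt.2 h1)

end Pool.LE
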