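import Pool.Agent.Work.MP_7453a1_le.HandIn3
import Pool.Agent.Work.MP_7453a1_le.B_GOD
import Pool.Agent.Work.MP_7453a1_le.B_DUA
import Pool.Agent.Work.MP_7453a1_le.B_SLV
import Pool.Agent.Work.MP_7453a1_le.B_STP
import Pool.Agent.Work.MP_7453a1_le.B_MNA
import Pool.Agent.Work.MP_7453a1_le.B_MNB
import Pool.Agent.Work.MP_7453a1_le.B_STA
import Pool.Agent.Work.MP_7453a1_le.B_STB
import Pool.Agent.Work.MP_7453a1_le.B_STG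
import Pool.Agent.Work.MP_7453a1_le.B_TGL
import Pool.Agent.Work.MP_7453a1_le.B_INI
import Pool.Agent.Work.MP_7453a1_le.B_SEQ
import Pool.Agent.Work.MP_7453a1_le.B_CEC
import Pool.Agent.Work.MP_7453a1_le.B_CLU
import Pool.Agent.Work.MP_7453a1_le.B_CNT
import Pool.Agent.Work.MP_7453a1_le.B_BRG
import Pool.Agent.Work.MP_7453a1_le.B_LIM
import Pool.Agent.Work.MP_7453a1_le.B_ADM
import Pool.Agent.Work.MP_7453a1_le.B_NUM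
import Pool.Agent.Work.MP_7453a1_le.B_FIN
import Pool.Agent.Work.MP_7453a1_le.B_WA
import Pool.Agent.Work.MP_7453a1_le.B_GRO
import Pool.Agent.Work.MP_7453a1_le.B_CVM
import Pool.Agent.Work.MP_7453a1_le.B_PCK
import Pool.Agent.Work.MP_7453a1_le.B_WD
import Pool.Agent.Work.MP_7453a1_le.B_WE
import Pool.Agent.Work.MP_7453a1_le.B_WF
import Pool.Agent.Work.MP_7453a1_le.B_GRN
import Pool.Agent.Work.MP_7453a1_le.B_INB
import Pool.Agent.Work.MP_7453a1_le.B_CVN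
import Pool.Agent.Work.MP_7453a1_le.B_LGN

set_option autoImplicit false

/-! # The joint theorem: composition of the blocks -/

namespace Pool.LE

theorem q_STP : Stmt_STP := p_STP p_GOD p_DUA
theorem q_STA : Stmt_STA := p_STA p_SLV q_STP p_MNA
theorem q_STB : Stmt_STB := p_STB q_STP p_MNB
theorem q_STG : Stmt_STG := p_STG q_STA q_STB
theorem q_SEQ : Stmt_SEQ := p_SEQ q_STG p_TGL p_INI
theorem q_CLU : Stmt_CLU := p_CLU p_CEC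
theorem q_CNT : Stmt_CNT := p_CNT q_CLU
theorem q_FIN : Stmt_FIN := p_FIN q_SEQ q_CNT p_BRG p_LIM p_ADM p_NUM
theorem q_WD : Stmt_WD := p_WD p_PCK
theorem q_WE : Stmt_WE := p_WE p_PCK
theorem q_WF : Stmt_WF := p_WF p_PCK q_WE

open Pool.Agent.Work.MP_7453a1_nt_norm (IsNorm)
open Pool.Agent.Work.MP_7453a1_nt_two (Admissible Lengths G g)

theorem main (m n : ℕ) (hm : 1 ≤ m) (hn : 1 ≤ n) :
    (∀ (Nm : Seminorm ℝ (Fin m → ℝ)) (Nn : Seminorm ℝ (Fin n → ℝ)), IsNorm Nm → IsNorm Nn →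
      (∀ Θ : Matrix (Fin n) (Fin m) ℝ, (Lengths Nm Nn Θ).Infinite →
        ENNReal.ofReal ((2 : ℝ) ^ (1 / ((2 : ℝ) ^ (m + n - 1) * 3 ^ m))) ≤ G Nm Nn Θ ∧
        ENNReal.ofReal ((2 : ℝ) ^ (1 / (8 * (m : ℝ) ^ 2 * (2 ^ (m + n - 1) * 3 ^ n)))) ≤ G Nm Nn Θ) ∧
      (m = 1 ∨ n = 1 →
        (∀ Θ : Matrix (Fin n) (Fin m) ℝ, Admissible Θ → (Lengths Nm Nn Θ).Infinite) ∧
        ENNReal.ofReal ((2 : ℝ) ^ (1 / (24 * (max m n : ℝ) ^ 2 * 2 ^ (max m n)))) ≤ g Nm Nn) ∧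
      (m = 1 → ENNReal.ofReal ((3 : ℝ) ^ (1 / (2 : ℝ) ^ (n + 1))) ≤ g Nm Nn)) ∧
    (∀ (Nm : Seminorm ℝ (Fin m → ℝ)) (Nn : Seminorm ℝ (Fin n → ℝ)), (∀ x, Nm x = ‖x‖) → (∀ x, Nn x = ‖x‖) →
      IsNorm Nm ∧ IsNorm Nn ∧
      (∀ Θ : Matrix (Fin n) (Fin m) ℝ, (Lengths Nm Nn Θ).Infinite →
        ENNReal.ofReal ((2 : ℝ) ^ (1 / (2 : ℝ) ^ (2 * m + n - 1))) ≤ G Nm Nn Θ) ∧
      (m = 1 ∨ n = 1 →
        g Nm Nn ≤ ENNReal.ofReal (Real.exp (50 * (max m n : ℝ) ^ 3 / 2 ^ (max m n))) ∧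
        ∃ Θ : Matrix (Fin n) (Fin m) ℝ, Admissible Θ ∧
          G Nm Nn Θ ≤ ENNReal.ofReal (Real.exp (50 * (max m n : ℝ) ^ 3 / 2 ^ (max m n))))) :=
  joint3 p_WA p_GRO q_WD q_WF p_GRN p_INB p_CVN p_CVM q_FIN p_LGN m n hm hn

end Pool.LE
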