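import Pool.Agent.Work.MP_7453a1_le.Interface2
import Pool.Agent.Work.MP_7453a1_nt_norm.Frame

set_option autoImplicit false

namespace Pool.LE

open Finset Filter
open Pool.Agent.Work.MP_7453a1_nt_two (Admissible IsBest Lengths G g len err)
open Pool.Agent.Work.MP_7453a1_nt_norm (IsNorm IsBestDenominator)

/-- the vector of an `n × 1` matrix -/
def CVN_col {n : ℕ} (Θ : Matrix (Fin n) (Fin 1) ℝ) : Fin n → ℝ := fun i => Θ i 0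

theorem CVN_ext {α : Type} {a b : Fin 1 → α} (h : a 0 = b 0) : a = b := by
  ext i
  rw [Subsingleton.elim i 0]
  exact h

theorem CVN_len (N₁ : Seminorm ℝ (Fin 1 → ℝ)) (x : Fin 1 → ℤ) :
    len N₁ x = |(x 0 : ℝ)| * N₁ (fun _ => (1 : ℝ)) := by
  have e : (fun j => (x j : ℝ) : Fin 1 → ℝ) = (x 0 : ℝ) • (fun _ => (1 : ℝ)) := by
    apply CVN_ext; simp
  unfold len
  rw [e, map_smul_eq_mul, Real.norm_eq_abs]

theorem CVN_pos (N₁ : Seminorm ℝ (Fin 1 → ℝ)) (h1 : IsNorm N₁) :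
    0 < N₁ (fun _ => (1 : ℝ)) := by
  rcases (apply_nonneg N₁ (fun _ => (1 : ℝ))).lt_or_eq with h | h
  · exact h
  · exact absurd (congrFun (h1 _ h.symm) 0) one_ne_zero

theorem CVN_err {n : ℕ} (Nn : Seminorm ℝ (Fin n → ℝ)) {Θ : Matrix (Fin n) (Fin 1) ℝ}
    (x : Fin 1 → ℤ) (y : Fin n → ℤ) :
    err Nn Θ x y = Pool.Agent.Work.MP_7453a1_nt_norm.err Nn (CVN_col Θ) (x 0) y := by
  unfold err Pool.Agent.Work.MP_7453a1_nt_norm.err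
  congr 1
  ext i
  rw [Fin.sum_univ_one, mul_comm]
  rfl

theorem CVN_adm {n : ℕ} {Θ : Matrix (Fin n) (Fin 1) ℝ} (h : Admissible Θ) :
    Pool.Agent.Work.MP_7453a1_nt_norm.Admissible (CVN_col Θ) := by
  intro q hq p
  obtain ⟨i, hi⟩ := h (fun _ => q) (fun h0 => hq (congrFun h0 0)) p
  refine ⟨i, ?_⟩
  rw [Fin.sum_univ_one, mul_comm] at hi
  exact hi

theorem CVN_le (N₁ : Seminorm ℝ (Fin 1 → ℝ)) (h1 : IsNorm N₁) (x x' : Fin 1 → ℤ) :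
    len N₁ x' ≤ len N₁ x ↔ |(x' 0 : ℝ)| ≤ |(x 0 : ℝ)| := by
  rw [CVN_len, CVN_len]
  exact mul_le_mul_iff_left₀ (CVN_pos N₁ h1)

theorem CVN_best {n : ℕ} (N₁ : Seminorm ℝ (Fin 1 → ℝ)) (h1 : IsNorm N₁)
    (Nn : Seminorm ℝ (Fin n → ℝ)) {Θ : Matrix (Fin n) (Fin 1) ℝ} (x : Fin 1 → ℤ)
    (y : Fin n → ℤ) (h : Pool.Agent.Work.MP_7453a1_nt_norm.IsBest Nn (CVN_col Θ) (x 0) y) :
    IsBest N₁ Nn Θ x y := by
  unfold IsBest
  unfold Pool.Agent.Work.MP_7453a1_nt_norm.IsBest at h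
  refine ⟨fun h0 => h.1 (congrFun h0 0), fun x' y' e1 e2 => ?_⟩
  rw [CVN_le N₁ h1] at e1
  rw [CVN_err, CVN_err] at e2
  rcases h.2 (x' 0) y' (by exact_mod_cast e1) e2 with ⟨a, b⟩ | ⟨a, b⟩ | ⟨a, b⟩
  · left; exact ⟨CVN_ext a, b⟩
  · right; left; exact ⟨CVN_ext a, b⟩
  · right; right; exact ⟨CVN_ext a, b⟩

theorem p_CVN : Stmt_CVN := by
  intro n _ N₁ Nn h1 hn Θ hΘ
  have hinf := Pool.Agent.Work.MP_7453a1_nt_norm.infinite hn (CVN_adm hΘ)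
  have hc := CVN_pos N₁ h1
  set c := N₁ (fun _ => (1 : ℝ)) with hcdef
  have hsub : (fun k : ℕ => (k : ℝ) * c) '' {k | IsBestDenominator Nn (CVN_col Θ) k} ⊆
      Lengths N₁ Nn Θ := by
    rintro _ ⟨k, ⟨q, p, h, hk⟩, rfl⟩
    refine ⟨fun _ => q, p, CVN_best N₁ h1 Nn _ _ h, ?_⟩
    show len N₁ _ = (k : ℝ) * c
    rw [CVN_len, ← hk, Nat.cast_natAbs, Int.cast_abs]
  refine Set.Infinite.mono hsub (hinf.image ?_)
  intro a _ b _ hab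
  have h2 : (a : ℝ) * c = (b : ℝ) * c := hab
  exact_mod_cast mul_right_cancel₀ hc.ne' h2

end Pool.LE
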