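import Pool.Agent.Work.MP_7453a1_le.Interface
import Pool.Agent.Work.MP_7453a1_ld.B_LNM

set_option autoImplicit false

/-! # Block STG (helper73): one stage. -/

namespace Pool.LE

open Finset Filter
open Pool.LD (L pat Sg)

theorem STG_L (m : ℕ) : 10000 ≤ L (m + 1) := (Pool.LD.p_LNM (m + 1) (by omega)).2.1

theorem STG_start {m : ℕ} {G : Fr (m + 1)} {Θ₀ : Fin (m + 1) → ℝ} {X : ℝ}
    (hG : Loose G Θ₀ X) : PhA m G G Θ₀ Θ₀ X 0 where
  cen := hG.cen
  old := fun _ _ => rfl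
  new := fun k hk => by
    have := k.2
    omega
  fs := hG.fs
  mon := {
    zero := fun k _ => hG.cen.zero k
    sup := fun k hk => by
      have := k.2
      omega
    sum := fun h => by omega
    mv := by simp }

theorem STG_mid {m : ℕ} {G F : Fr (m + 1)} {Θ₀ Θ : Fin (m + 1) → ℝ} {X : ℝ} (hX : 0 < X)
    (h : PhA m G F Θ₀ Θ X (m + 1)) : PhB m G F Θ₀ Θ X 0 where
  cen := h.cen
  done := fun k hk => by omega
  todo := fun k _ l => h.new k (by omega) l
  fs := fun l => by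
    refine (h.fs l).trans ?_
    have h1 : (1 : ℝ) ≤ L (m + 1) ^ (m + 1) := one_le_pow₀ (by linarith [STG_L m])
    nlinarith
  mon := h.mon

theorem STG_end {m : ℕ} {G F : Fr (m + 1)} {Θ₀ Θ : Fin (m + 1) → ℝ} {X : ℝ} (hX : 0 < X)
    (h : PhB m G F Θ₀ Θ X (m + 1)) : Tight m F Θ (X * KE m) where
  cen := h.cen
  pos := by
    have := STG_L m
    have h1 : 0 < L (m + 1) := by linarith
    exact mul_pos hX (pow_pos h1 _)
  cl := fun k l => h.done k k.2 l
  fs := fun l => by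
    have := STG_L m
    have h1 : L (m + 1) ≠ 0 := by
      have : 0 < L (m + 1) := by linarith
      exact this.ne'
    refine (h.fs l).trans (le_of_eq ?_)
    unfold KE
    rw [pow_succ (L (m + 1)) (m + 1)]
    field_simp

theorem p_STG (hSTA : Stmt_STA) (hSTB : Stmt_STB) : Stmt_STG := by
  intro m G Θ₀ X hG
  have hA : ∀ j : ℕ, j ≤ m + 1 →
      ∃ (F : Fr (m + 1)) (Θ : Fin (m + 1) → ℝ), PhA m G F Θ₀ Θ X j := by
    intro j
    induction j with
    | zero => exact fun _ => ⟨G, Θ₀, STG_start hG⟩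
    | succ j ih =>
      intro hj
      obtain ⟨F, Θ, h⟩ := ih (by omega)
      exact hSTA m G Θ₀ X hG F Θ j (by omega) h
  have hB : ∀ j : ℕ, j ≤ m + 1 →
      ∃ (F : Fr (m + 1)) (Θ : Fin (m + 1) → ℝ), PhB m G F Θ₀ Θ X j := by
    intro j
    induction j with
    | zero =>
      intro _
      obtain ⟨F, Θ, h⟩ := hA (m + 1) le_rfl
      exact ⟨F, Θ, STG_mid hG.pos h⟩
    | succ j ih =>
      intro hj
      obtain ⟨F, Θ, h⟩ := ih (by omega)
      exact hSTB m G Θ₀ X hG F Θ j (by omega) h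
  obtain ⟨F, Θ, h⟩ := hB (m + 1) le_rfl
  exact ⟨F, Θ, STG_end hG.pos h, h.mon⟩

end Pool.LE
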