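import Pool.Agent.Work.MP_7453a1_le.Interface

set_option autoImplicit false

namespace Pool.LE

open Finset
open Pool.Agent.Work.MP_7453a1_nt_two (Admissible IsBest Lengths G g len err)

/-- the error vector -/
noncomputable def WB_E {m n : ℕ} (Θ : Matrix (Fin n) (Fin m) ℝ) (x : Fin m → ℤ) (y : Fin n → ℤ)
    (i : Fin n) : ℝ := (∑ j, Θ i j * x j) - y i

theorem WB_E_sub {m n : ℕ} (Θ : Matrix (Fin n) (Fin m) ℝ) (x x' : Fin m → ℤ) (y y' : Fin n → ℤ)
    (i : Fin n) : WB_E Θ (x - x') (y - y') i = WB_E Θ x y i - WB_E Θ x' y' i := by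
  simp only [WB_E, Pi.sub_apply, Int.cast_sub, mul_sub, Finset.sum_sub_distrib]
  ring

theorem WB_E_neg {m n : ℕ} (Θ : Matrix (Fin n) (Fin m) ℝ) (x : Fin m → ℤ) (y : Fin n → ℤ)
    (i : Fin n) : WB_E Θ (-x) (-y) i = -WB_E Θ x y i := by
  simp only [WB_E, Pi.neg_apply, Int.cast_neg, mul_neg, Finset.sum_neg_distrib]
  ring

theorem WB_err_le {m n : ℕ} (Θ : Matrix (Fin n) (Fin m) ℝ) (x : Fin m → ℤ) (y : Fin n → ℤ)
    {c : ℝ} (hc : 0 ≤ c) : err (sn n) Θ x y ≤ c ↔ ∀ i, |WB_E Θ x y i| ≤ c :=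
  pi_norm_le_iff_of_nonneg hc

theorem WB_len_le {m : ℕ} (x : Fin m → ℤ) {c : ℝ} (hc : 0 ≤ c) :
    len (sn m) x ≤ c ↔ ∀ i, |(x i : ℝ)| ≤ c :=
  pi_norm_le_iff_of_nonneg hc

theorem WB_err_nonneg {m n : ℕ} (Θ : Matrix (Fin n) (Fin m) ℝ) (x : Fin m → ℤ) (y : Fin n → ℤ) :
    0 ≤ err (sn n) Θ x y := apply_nonneg (sn n) _

theorem WB_len_nonneg {m : ℕ} (x : Fin m → ℤ) : 0 ≤ len (sn m) x :=
  apply_nonneg (sn m) _

theorem WB_err_neg {m n : ℕ} (Θ : Matrix (Fin n) (Fin m) ℝ) (x : Fin m → ℤ) (y : Fin n → ℤ) :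
    err (sn n) Θ (-x) (-y) = err (sn n) Θ x y := by
  have h : (fun i => (∑ j, Θ i j * ((-x) j : ℤ)) - ((-y) i : ℤ) : Fin n → ℝ) =
      -(fun i => (∑ j, Θ i j * (x j : ℤ)) - (y i : ℤ) : Fin n → ℝ) := by
    funext i
    exact WB_E_neg Θ x y i
  show sn n _ = sn n _
  rw [h, map_neg_eq_map]

theorem WB_len_neg {m : ℕ} (x : Fin m → ℤ) : len (sn m) (-x) = len (sn m) x := by
  have h : (fun j => ((-x) j : ℤ) : Fin m → ℝ) = -(fun j => (x j : ℤ) : Fin m → ℝ) := by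
    funext j
    simp
  show sn m _ = sn m _
  rw [h, map_neg_eq_map]

/-- the four intervals -/
noncomputable def WB_c (ζ e : ℝ) : Bool × Bool :=
  (decide (0 ≤ e), decide ((0 ≤ e ∧ ζ / 2 ≤ e) ∨ (e < 0 ∧ -(ζ / 2) ≤ e)))

theorem WB_cls {ζ e e' : ℝ} (h : |e| ≤ ζ) (h' : |e'| ≤ ζ) (hc : WB_c ζ e = WB_c ζ e') :
    |e - e'| ≤ ζ / 2 := by
  simp only [WB_c, Prod.mk.injEq, decide_eq_decide] at hc
  obtain ⟨h1, h2⟩ := hc
  rw [abs_le] at h h' ⊢
  by_cases he : 0 ≤ e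
  · have he' : 0 ≤ e' := h1.1 he
    by_cases hz : ζ / 2 ≤ e
    · rcases h2.1 (Or.inl ⟨he, hz⟩) with h3 | h3
      · constructor <;> linarith [h3.2]
      · linarith [h3.1]
    · have hz' : ¬ ζ / 2 ≤ e' := fun h4 => by
        rcases h2.2 (Or.inl ⟨he', h4⟩) with h3 | h3
        · exact hz h3.2
        · linarith [h3.1]
      push Not at hz hz'
      constructor <;> linarith
  · have he' : ¬ 0 ≤ e' := fun h3 => he (h1.2 h3)
    push Not at he he'
    by_cases hz : -(ζ / 2) ≤ e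
    · rcases h2.1 (Or.inr ⟨he, hz⟩) with h3 | h3
      · linarith [h3.1]
      · constructor <;> linarith [h3.2]
    · have hz' : ¬ -(ζ / 2) ≤ e' := fun h4 => by
        rcases h2.2 (Or.inr ⟨he', h4⟩) with h3 | h3
        · linarith [h3.1]
        · exact hz h3.2
      push Not at hz hz'
      constructor <;> linarith

theorem WB_sgn {a b : ℤ} {c : ℝ} (ha : |(a : ℝ)| ≤ c) (hb : |(b : ℝ)| ≤ c)
    (h : decide (0 ≤ a) = decide (0 ≤ b)) : |((a - b : ℤ) : ℝ)| ≤ c := by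
  rw [decide_eq_decide] at h
  rw [abs_le] at ha hb ⊢
  push_cast
  by_cases h0 : 0 ≤ a
  · have h1 : (0 : ℝ) ≤ a := by exact_mod_cast h0
    have h2 : (0 : ℝ) ≤ b := by exact_mod_cast h.1 h0
    constructor <;> linarith
  · have h1 : (a : ℝ) < 0 := by exact_mod_cast (not_le.1 h0)
    have h2 : (b : ℝ) < 0 := by exact_mod_cast (not_le.1 fun h3 => h0 (h.2 h3))
    constructor <;> linarith

/-- the point `± z` -/
def WB_s {k : ℕ} (ε : Bool) (x : Fin k → ℤ) : Fin k → ℤ := if ε then x else -x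

theorem WB_s_err {m n : ℕ} (Θ : Matrix (Fin n) (Fin m) ℝ) (ε : Bool) (x : Fin m → ℤ)
    (y : Fin n → ℤ) : err (sn n) Θ (WB_s ε x) (WB_s ε y) = err (sn n) Θ x y := by
  cases ε
  · exact WB_err_neg Θ x y
  · rfl

theorem WB_s_len {m : ℕ} (ε : Bool) (x : Fin m → ℤ) :
    len (sn m) (WB_s ε x) = len (sn m) x := by
  cases ε
  · exact WB_len_neg x
  · rfl

theorem p_WB : Stmt_WB := by
  intro m n Θ hm hn T x x' y y' hB hB' hT hcard
  by_contra hcon
  push Not at hcon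
  set ζ := err (sn n) Θ x y with hζ
  set ζ' := err (sn n) Θ x' y' with hζ'
  have hζ0 : 0 ≤ ζ := WB_err_nonneg Θ x y
  choose X Y hXY hXr using fun r : T => (hT r.1 r.2).1
  -- the errors are at most `ζ`
  have hup : ∀ r : T, err (sn n) Θ (X r) (Y r) ≤ ζ := by
    intro r
    by_contra h
    push Not at h
    have h1 : len (sn m) x ≤ len (sn m) (X r) := by rw [hXr r]; exact (hT r.1 r.2).2.1
    rcases (hXY r).2 x y h1 h.le with h2 | h2 | h2
    · exact hB.1 h2.1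
    · rw [hζ, h2.1, h2.2] at h
      exact lt_irrefl _ h
    · rw [hζ, h2.1, h2.2, WB_err_neg] at h
      exact lt_irrefl _ h
  -- the classes
  let cls : T × Bool → (Fin m → Bool) × (Fin n → Bool × Bool) := fun q =>
    (fun j => decide (0 ≤ WB_s q.2 (X q.1) j),
      fun i => WB_c ζ (WB_E Θ (WB_s q.2 (X q.1)) (WB_s q.2 (Y q.1)) i))
  have hlt : (univ : Finset ((Fin m → Bool) × (Fin n → Bool × Bool))).card <
      (univ : Finset (T × Bool)).card := by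
    simp only [Finset.card_univ, Fintype.card_prod, Fintype.card_fun, Fintype.card_bool,
      Fintype.card_fin, Fintype.card_coe]
    have h1 : 2 ^ m * (2 * 2) ^ n = 2 ^ (m + 2 * n - 1) * 2 := by
      rw [← pow_succ, show m + 2 * n - 1 + 1 = m + 2 * n by omega, pow_add, pow_mul]
      norm_num
    rw [h1]
    exact Nat.mul_lt_mul_of_pos_right hcard (by norm_num)
  obtain ⟨p, -, q, -, hpq, hc⟩ := Finset.exists_ne_map_eq_of_card_lt_of_maps_to hlt
    (f := cls) (fun _ _ => Finset.mem_coe.2 (Finset.mem_univ _))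
  have hc1 : ∀ j, decide (0 ≤ WB_s p.2 (X p.1) j) = decide (0 ≤ WB_s q.2 (X q.1) j) :=
    fun j => congrFun (congrArg Prod.fst hc) j
  have hc2 : ∀ i, WB_c ζ (WB_E Θ (WB_s p.2 (X p.1)) (WB_s p.2 (Y p.1)) i) =
      WB_c ζ (WB_E Θ (WB_s q.2 (X q.1)) (WB_s q.2 (Y q.1)) i) :=
    fun i => congrFun (congrArg Prod.snd hc) i
  have hlen : ∀ p : T × Bool, ∀ j, |(WB_s p.2 (X p.1) j : ℝ)| ≤ len (sn m) x' := by
    intro p
    refine (WB_len_le _ (WB_len_nonneg x')).1 ?_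
    rw [WB_s_len, hXr p.1]
    exact (hT p.1.1 p.1.2).2.2
  have herr : ∀ p : T × Bool, ∀ i, |WB_E Θ (WB_s p.2 (X p.1)) (WB_s p.2 (Y p.1)) i| ≤ ζ := by
    intro p
    refine (WB_err_le Θ _ _ hζ0).1 ?_
    rw [WB_s_err]
    exact hup p.1
  have hw1 : len (sn m) (WB_s p.2 (X p.1) - WB_s q.2 (X q.1)) ≤ len (sn m) x' := by
    refine (WB_len_le _ (WB_len_nonneg x')).2 fun j => ?_
    exact WB_sgn (hlen p j) (hlen q j) (hc1 j)
  have hw2 : err (sn n) Θ (WB_s p.2 (X p.1) - WB_s q.2 (X q.1))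
      (WB_s p.2 (Y p.1) - WB_s q.2 (Y q.1)) ≤ ζ / 2 := by
    refine (WB_err_le Θ _ _ (by linarith)).2 fun i => ?_
    rw [WB_E_sub]
    exact WB_cls (herr p i) (herr q i) (hc2 i)
  rcases hB'.2 _ _ hw1 (hw2.trans (by linarith)) with h2 | h2 | h2
  · have hx : WB_s p.2 (X p.1) = WB_s q.2 (X q.1) := sub_eq_zero.1 h2.1
    have hr : p.1 = q.1 := by
      apply Subtype.ext
      rw [← hXr p.1, ← hXr q.1]
      exact (WB_s_len p.2 (X p.1)).symm.trans
        ((congrArg (len (sn m)) hx).trans (WB_s_len q.2 (X q.1)))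
    have hX0 : X q.1 ≠ 0 := (hXY q.1).1
    apply hpq
    refine Prod.ext hr ?_
    rw [hr] at hx
    cases hp2 : p.2 <;> cases hq2 : q.2
    · rfl
    · exfalso
      rw [hp2, hq2] at hx
      exact hX0 (neg_eq_self.1 hx)
    · exfalso
      rw [hp2, hq2] at hx
      exact hX0 (self_eq_neg.1 hx)
    · rfl
  · rw [h2.1, h2.2] at hw2
    linarith
  · rw [h2.1, h2.2, WB_err_neg] at hw2
    linarith

end Pool.LE
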