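import Pool.Agent.Work.MP_7453a1_nt_two.Defs
import Pool.Agent.Work.MP_7453a1_ld.Interface

set_option autoImplicit false

/-!
# One linear form in `n` integer variables: frames (helper85)

Sup norm on `ℝⁿ`, one real linear form.  Points `w = (x, y)` of `ℤⁿ × ℤ`, error `er Θ w = ∑ Θ_j x_j - y`.
A frame consists of points `v 1, …, v n, f` such that the integer points are the halves of the
combinations `∑ a_k v_k + b f` with `a_k ≡ b` modulo 2.  The centre of a frame is the `Θ` for which the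
errors of all `v k` vanish.
-/

namespace Pool.LE

open Finset
open Pool.LD (L pat Sg)

/-- Integer points `(x, y)`. -/
abbrev Pt (n : ℕ) : Type := (Fin n → ℤ) × ℤ

/-- The error `∑ Θ_j x_j - y`. -/
noncomputable def er {n : ℕ} (Θ : Fin n → ℝ) (w : Pt n) : ℝ := ∑ j, Θ j * (w.1 j : ℝ) - (w.2 : ℝ)

/-- The vector `x` as a real vector. -/
def xv {n : ℕ} (w : Pt n) : Fin n → ℝ := fun j => (w.1 j : ℝ)

/-- A best approximation point (sup norm of `x`). -/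
def IsB {n : ℕ} (Θ : Fin n → ℝ) (w : Pt n) : Prop :=
  w.1 ≠ 0 ∧ ∀ w' : Pt n, ‖xv w'‖ ≤ ‖xv w‖ → |er Θ w'| ≤ |er Θ w| → w' = 0 ∨ w' = w ∨ w' = -w

/-- A frame. -/
structure Fr (n : ℕ) where
  v : Fin n → Pt n
  f : Pt n

namespace Fr

variable {n : ℕ}

/-- coordinate `l` of the vector `x` of `v k` -/
def A (F : Fr n) (k l : Fin n) : ℝ := ((F.v k).1 l : ℝ)

/-- coordinate `l` of the vector `x` of `f` -/
def a (F : Fr n) (l : Fin n) : ℝ := (F.f.1 l : ℝ)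

/-- the next frame: `v k' = 2 ∑ c_l v_l - f`, `f' = v k` -/
def nxt (F : Fr n) (k : Fin n) (c : Fin n → ℤ) : Fr n where
  v := Function.update F.v k (∑ l, (2 * c l) • F.v l - F.f)
  f := F.v k

/-- the integer points are the halves of the combinations with coefficients congruent modulo 2 -/
def Good (F : Fr n) : Prop :=
  (∃ h : Pt n, h + h = ∑ k, F.v k + F.f) ∧
  ∀ z : Pt n, ∃ (a : Fin n → ℤ) (b : ℤ), (∀ k, (2 : ℤ) ∣ a k - b) ∧
    z + z = ∑ k, a k • F.v k + b • F.f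

end Fr

/-- `Θ` is the centre of the good frame `F` and the error of `f` is positive -/
structure Cen {n : ℕ} (F : Fr n) (Θ : Fin n → ℝ) : Prop where
  good : F.Good
  zero : ∀ k, er Θ (F.v k) = 0
  pos : 0 < er Θ F.f

/-- the vectors `x` of `v k`, divided by the sizes `S k`, are near the coordinate axes -/
structure Dom {n : ℕ} (F : Fr n) (S : Fin n → ℝ) : Prop where
  pos : ∀ k, 0 < S k
  dl : ∀ k, 4 / 5 * S k ≤ F.A k k
  off : ∀ l, ∑ k ∈ univ.erase l, |F.A k l| / S k ≤ 4 / 25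

/-- input of a stage -/
structure Loose {n : ℕ} (F : Fr n) (Θ : Fin n → ℝ) (X : ℝ) : Prop where
  cen : Cen F Θ
  pos : 0 < X
  dl : ∀ k, 9 / 10 * X ≤ F.A k k
  du : ∀ k, F.A k k ≤ 3 / 2 * X
  off : ∀ l, ∑ k ∈ univ.erase l, |F.A k l| ≤ X / 10
  fs : ∀ l, |F.a l| ≤ 2 * X

/-- output of a stage -/
structure Tight (m : ℕ) (F : Fr (m + 1)) (Θ : Fin (m + 1) → ℝ) (X : ℝ) : Prop where
  cen : Cen F Θ
  pos : 0 < X
  cl : ∀ k l, |F.A k l - X * pat m k l| ≤ 4 * (m + 1) / L (m + 1) * X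
  fs : ∀ l, |F.a l| ≤ 2 * X / L (m + 1)

/-- The errors of the vectors `v k` of the frame `G` at the beginning of the stage, seen from the centre `Θ`
after some steps; `j` is the number of the steps of the first half that have been made (the axes
`n - 1, …, n - j` have been treated), `s` is the present error of `f`, `s₀` the one at the beginning. -/
structure Mon {n : ℕ} (G : Fr n) (s₀ X : ℝ) (j : ℕ) (Θ₀ Θ : Fin n → ℝ) (s : ℝ) : Prop where
  zero : ∀ k : Fin n, (k : ℕ) + j < n → er Θ (G.v k) = 0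
  sup : ∀ k : Fin n, n ≤ (k : ℕ) + j →
    ∑ l ∈ univ.filter (· < k), |er Θ (G.v l)| + s / 2 ≤ er Θ (G.v k)
  sum : 1 ≤ j → ∑ k, |er Θ (G.v k)| + s / 2 ≤ 4 * s₀ / L n
  mv : ∑ l, |Θ l - Θ₀ l| ≤ 2 * (s₀ - s) / (X * L n)

/-- the first half of a stage after `j` steps -/
structure PhA (m : ℕ) (G F : Fr (m + 1)) (Θ₀ Θ : Fin (m + 1) → ℝ) (X : ℝ) (j : ℕ) : Prop where
  cen : Cen F Θ
  old : ∀ k : Fin (m + 1), (k : ℕ) + j < m + 1 → F.v k = G.v k
  new : ∀ k : Fin (m + 1), m + 1 ≤ (k : ℕ) + j → ∀ l,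
    |F.A k l - X * L (m + 1) ^ (m + 1 - (k : ℕ)) * pat m k l| ≤
      2 * (m + 1) / L (m + 1) * (X * L (m + 1) ^ (m + 1 - (k : ℕ)))
  fs : ∀ l, |F.a l| ≤ 2 * X
  mon : Mon G (er Θ₀ G.f) X j Θ₀ Θ (er Θ F.f)

/-- the second half of a stage after `j` steps -/
structure PhB (m : ℕ) (G F : Fr (m + 1)) (Θ₀ Θ : Fin (m + 1) → ℝ) (X : ℝ) (j : ℕ) : Prop where
  cen : Cen F Θ
  done : ∀ k : Fin (m + 1), (k : ℕ) < j → ∀ l,
    |F.A k l - X * L (m + 1) ^ (m + 2) * pat m k l| ≤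
      4 * (m + 1) / L (m + 1) * (X * L (m + 1) ^ (m + 2))
  todo : ∀ k : Fin (m + 1), j ≤ (k : ℕ) → ∀ l,
    |F.A k l - X * L (m + 1) ^ (m + 1 - (k : ℕ)) * pat m k l| ≤
      2 * (m + 1) / L (m + 1) * (X * L (m + 1) ^ (m + 1 - (k : ℕ)))
  fs : ∀ l, |F.a l| ≤ 2 * X * L (m + 1) ^ (m + 1)
  mon : Mon G (er Θ₀ G.f) X (m + 1) Θ₀ Θ (er Θ F.f)

/-- a frame whose `2 ^ m` points `(∑ ± v k - f) / 2` (last sign `+`) are best approximations of `Θ` -/
structure Clu (m : ℕ) (F : Fr (m + 1)) (X s : ℝ) (Θ : Fin (m + 1) → ℝ) : Prop where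
  good : F.Good
  Xpos : 0 < X
  spos : 0 < s
  cl : ∀ k l, |F.A k l - X * pat m k l| ≤ 4 * (m + 1) / L (m + 1) * X
  fs : ∀ l, |F.a l| ≤ 2 * X / L (m + 1)
  ef : |er Θ F.f - s| ≤ s / 1000
  bsup : ∀ k, ∑ l ∈ univ.filter (· < k), |er Θ (F.v l)| < er Θ (F.v k)
  bsum : ∑ k, |er Θ (F.v k)| ≤ s / 1000

/-- the growth of the sizes in one stage -/
noncomputable def KE (m : ℕ) : ℝ := L (m + 1) ^ (m + 2)

end Pool.LE
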