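import Pool.Agent.Work.MP_7453a1_le.Interface
import Pool.Agent.Work.MP_7453a1_ld.All

set_option autoImplicit false

/-! # The joint theorem from the blocks WA, WC, GRO, INA, CVM, FIN -/

namespace Pool.LE

open Filter
open Pool.Agent.Work.MP_7453a1_nt_two (Admissible IsBest Lengths G g len err)

theorem low (hWA : Stmt_WA) (hWC : Stmt_WC) (hGRO : Stmt_GRO) (m n : ℕ) (hm : 1 ≤ m) (hn : 1 ≤ n)
    (Θ : Matrix (Fin n) (Fin m) ℝ) (hΘ : (Lengths (sn m) (sn n) Θ).Infinite) :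
    ENNReal.ofReal ((2 : ℝ) ^ (1 / (2 : ℝ) ^ (2 * m + n - 1))) ≤ G (sn m) (sn n) Θ ∧
    ENNReal.ofReal ((2 : ℝ) ^ (1 / (8 * (m : ℝ) ^ 2 * 2 ^ (m + 2 * n - 1)))) ≤ G (sn m) (sn n) Θ := by
  constructor
  · have h := hGRO m n Θ (2 ^ (2 * m + n - 1)) Nat.one_le_two_pow (fun R hR T hT => hWA m n Θ hm hn R hR T hT) hΘ
    push_cast at h
    exact h
  · have h1 : 1 ≤ 8 * m ^ 2 * 2 ^ (m + 2 * n - 1) := by
      have h2 : 1 ≤ 2 ^ (m + 2 * n - 1) := Nat.one_le_two_pow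
      have h3 : 1 ≤ m ^ 2 := Nat.one_le_pow _ _ hm
      nlinarith
    have h := hGRO m n Θ (8 * m ^ 2 * 2 ^ (m + 2 * n - 1)) h1
      (fun R hR T hT => hWC m n Θ hm hn R hR T hT) hΘ
    push_cast at h
    exact h

theorem rpow_le_aux {a b : ℝ} (ha : 0 < a) (hab : a ≤ b) :
    ENNReal.ofReal ((2 : ℝ) ^ (1 / b)) ≤ ENNReal.ofReal ((2 : ℝ) ^ (1 / a)) := by
  apply ENNReal.ofReal_le_ofReal
  apply Real.rpow_le_rpow_of_exponent_le (by norm_num)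
  exact one_div_le_one_div_of_le ha hab

theorem joint (hWA : Stmt_WA) (hWC : Stmt_WC) (hGRO : Stmt_GRO) (hINA : Stmt_INA) (hCVM : Stmt_CVM)
    (hFIN : Stmt_FIN) (m n : ℕ) (hm : 1 ≤ m) (hn : 1 ≤ n) :
    (∀ Θ : Matrix (Fin n) (Fin m) ℝ, (Lengths (sn m) (sn n) Θ).Infinite →
      ENNReal.ofReal ((2 : ℝ) ^ (1 / (2 : ℝ) ^ (2 * m + n - 1))) ≤ G (sn m) (sn n) Θ ∧
      ENNReal.ofReal ((2 : ℝ) ^ (1 / (8 * (m : ℝ) ^ 2 * 2 ^ (m + 2 * n - 1)))) ≤ G (sn m) (sn n) Θ) ∧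
    (m = 1 ∨ n = 1 →
      (∀ Θ : Matrix (Fin n) (Fin m) ℝ, Admissible Θ → (Lengths (sn m) (sn n) Θ).Infinite) ∧
      ENNReal.ofReal ((2 : ℝ) ^ (1 / (16 * (max m n : ℝ) ^ 2 * 2 ^ (max m n)))) ≤ g (sn m) (sn n) ∧
      g (sn m) (sn n) ≤ ENNReal.ofReal (Real.exp (50 * (max m n : ℝ) ^ 3 / 2 ^ (max m n))) ∧
      ∃ Θ : Matrix (Fin n) (Fin m) ℝ, Admissible Θ ∧
        G (sn m) (sn n) Θ ≤ ENNReal.ofReal (Real.exp (50 * (max m n : ℝ) ^ 3 / 2 ^ (max m n)))) := by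
  refine ⟨fun Θ hΘ => low hWA hWC hGRO m n hm hn Θ hΘ, fun h => ?_⟩
  have hmR : (1 : ℝ) ≤ m := by exact_mod_cast hm
  have hnR : (1 : ℝ) ≤ n := by exact_mod_cast hn
  have hinf : ∀ Θ : Matrix (Fin n) (Fin m) ℝ, Admissible Θ → (Lengths (sn m) (sn n) Θ).Infinite := by
    rcases h with rfl | rfl
    · exact fun Θ hΘ => ((hCVM n hn Θ).2 hΘ).1
    · exact fun Θ hΘ => hINA m hm Θ hΘ
  have hup : ∃ Θ : Matrix (Fin n) (Fin m) ℝ, Admissible Θ ∧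
        G (sn m) (sn n) Θ ≤ ENNReal.ofReal (Real.exp (50 * (max m n : ℝ) ^ 3 / 2 ^ (max m n))) := by
    rcases h with rfl | rfl
    · obtain ⟨-, -, Θ, h1, h2⟩ := Pool.LD.main n hn
      refine ⟨fun i _ => Θ i, ((hCVM n hn (fun i _ => Θ i)).1).2 h1, ?_⟩
      have h3 := (hCVM n hn (fun i _ => Θ i)).1.2 h1
      rw [((hCVM n hn (fun i _ => Θ i)).2 h3).2, max_eq_right hn, Nat.cast_one, max_eq_right hnR]
      exact h2
    · obtain ⟨Θ, h1, h2⟩ := hFIN m hm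
      refine ⟨Θ, h1, ?_⟩
      rw [max_eq_left hm, Nat.cast_one, max_eq_left hmR]
      exact h2
  refine ⟨hinf, ?_, ?_, hup⟩
  · refine le_iInf₂ fun Θ hΘ => ?_
    obtain ⟨h1, h2⟩ := low hWA hWC hGRO m n hm hn Θ (hinf Θ hΘ)
    rcases h with rfl | rfl
    · refine le_trans (rpow_le_aux (by positivity) ?_) h1
      rw [max_eq_right hn, Nat.cast_one, max_eq_right hnR, show 2 * 1 + n - 1 = n + 1 by omega, pow_succ]
      have h4 : (0 : ℝ) < 2 ^ n := by positivity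
      have h5 : (1 : ℝ) ≤ (n : ℝ) ^ 2 := one_le_pow₀ hnR
      nlinarith
    · refine le_trans (rpow_le_aux (by positivity) ?_) h2
      rw [max_eq_left hm, Nat.cast_one, max_eq_left hmR, show m + 2 * 1 - 1 = m + 1 by omega]
      exact le_of_eq (by ring)
  · obtain ⟨Θ, h1, h2⟩ := hup
    exact (iInf₂_le Θ h1).trans h2

end Pool.LE
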