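import Pool.Agent.Work.MP_7453a1_le.Interface3
import Pool.Agent.Work.MP_7453a1_ld.All

set_option autoImplicit false

/-! # The joint theorem (all norms for the lower bounds) from the blocks -/

namespace Pool.LE

open Filter
open Pool.Agent.Work.MP_7453a1_nt_norm (IsNorm)
open Pool.Agent.Work.MP_7453a1_nt_two (Admissible IsBest Lengths G g len err)

theorem isNorm_sn3 (n : ℕ) : IsNorm (sn n) := fun _ hx => norm_eq_zero.1 hx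

theorem lowSup3 (hWA : Stmt_WA) (hGRO : Stmt_GRO) (m n : ℕ) (hm : 1 ≤ m) (hn : 1 ≤ n)
    (Θ : Matrix (Fin n) (Fin m) ℝ) (hΘ : (Lengths (sn m) (sn n) Θ).Infinite) :
    ENNReal.ofReal ((2 : ℝ) ^ (1 / (2 : ℝ) ^ (2 * m + n - 1))) ≤ G (sn m) (sn n) Θ := by
  have h := hGRO m n Θ (2 ^ (2 * m + n - 1)) Nat.one_le_two_pow
    (fun R hR T hT => hWA m n Θ hm hn R hR T hT) hΘ
  push_cast at h
  exact h

theorem lowAll3 (hWD : Stmt_WD) (hWF : Stmt_WF) (hGRN : Stmt_GRN) (m n : ℕ) (hm : 1 ≤ m) (hn : 1 ≤ n)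
    (Nm : Seminorm ℝ (Fin m → ℝ)) (Nn : Seminorm ℝ (Fin n → ℝ)) (hNm : IsNorm Nm) (hNn : IsNorm Nn)
    (Θ : Matrix (Fin n) (Fin m) ℝ) (hΘ : (Lengths Nm Nn Θ).Infinite) :
    ENNReal.ofReal ((2 : ℝ) ^ (1 / ((2 : ℝ) ^ (m + n - 1) * 3 ^ m))) ≤ G Nm Nn Θ ∧
    ENNReal.ofReal ((2 : ℝ) ^ (1 / (8 * (m : ℝ) ^ 2 * (2 ^ (m + n - 1) * 3 ^ n)))) ≤ G Nm Nn Θ := by
  have h3 : 1 ≤ 2 ^ (m + n - 1) := Nat.one_le_two_pow
  have h4 : 1 ≤ 3 ^ m := Nat.one_le_pow _ _ (by norm_num)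
  have h5 : 1 ≤ 3 ^ n := Nat.one_le_pow _ _ (by norm_num)
  have h6 : 1 ≤ m ^ 2 := Nat.one_le_pow _ _ hm
  constructor
  · have h := hGRN m n Nm Nn hNm hNn Θ (2 ^ (m + n - 1) * 3 ^ m) (Nat.mul_pos h3 h4)
      (fun R hR T hT => hWD m n Nm Nn hNm hNn Θ hm hn R hR T hT) hΘ
    push_cast at h
    exact h
  · have h := hGRN m n Nm Nn hNm hNn Θ (8 * m ^ 2 * (2 ^ (m + n - 1) * 3 ^ n))
      (Nat.mul_pos (Nat.mul_pos (by norm_num) h6) (Nat.mul_pos h3 h5))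
      (fun R hR T hT => hWF m n Nm Nn hNm hNn Θ hm hn R hR T hT) hΘ
    push_cast at h
    exact h

theorem rpow_le_aux3 {a b : ℝ} (ha : 0 < a) (hab : a ≤ b) :
    ENNReal.ofReal ((2 : ℝ) ^ (1 / b)) ≤ ENNReal.ofReal ((2 : ℝ) ^ (1 / a)) := by
  apply ENNReal.ofReal_le_ofReal
  apply Real.rpow_le_rpow_of_exponent_le (by norm_num)
  exact one_div_le_one_div_of_le ha hab

theorem joint3 (hWA : Stmt_WA) (hGRO : Stmt_GRO) (hWD : Stmt_WD) (hWF : Stmt_WF) (hGRN : Stmt_GRN)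
    (hINB : Stmt_INB) (hCVN : Stmt_CVN) (hCVM : Stmt_CVM) (hFIN : Stmt_FIN)
    (hLGN : Stmt_LGN) (m n : ℕ) (hm : 1 ≤ m) (hn : 1 ≤ n) :
    (∀ (Nm : Seminorm ℝ (Fin m → ℝ)) (Nn : Seminorm ℝ (Fin n → ℝ)), IsNorm Nm → IsNorm Nn →
      (∀ Θ : Matrix (Fin n) (Fin m) ℝ, (Lengths Nm Nn Θ).Infinite →
        ENNReal.ofReal ((2 : ℝ) ^ (1 / ((2 : ℝ) ^ (m + n - 1) * 3 ^ m))) ≤ G Nm Nn Θ ∧
        ENNReal.ofReal ((2 : ℝ) ^ (1 / (8 * (m : ℝ) ^ 2 * (2 ^ (m + n - 1) * 3 ^ n)))) ≤ G Nm Nn Θ) ∧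
      (m = 1 ∨ n = 1 →
        (∀ Θ : Matrix (Fin n) (Fin m) ℝ, Admissible Θ → (Lengths Nm Nn Θ).Infinite) ∧
        ENNReal.ofReal ((2 : ℝ) ^ (1 / (24 * (max m n : ℝ) ^ 2 * 2 ^ (max m n)))) ≤ g Nm Nn) ∧
      (m = 1 → ENNReal.ofReal ((3 : ℝ) ^ (1 / (2 : ℝ) ^ (n + 1))) ≤ g Nm Nn)) ∧
    (∀ (Nm : Seminorm ℝ (Fin m → ℝ)) (Nn : Seminorm ℝ (Fin n → ℝ)), (∀ x, Nm x = ‖x‖) → (∀ x, Nn x = ‖x‖) →
      IsNorm Nm ∧ IsNorm Nn ∧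
      (∀ Θ : Matrix (Fin n) (Fin m) ℝ, (Lengths Nm Nn Θ).Infinite →
        ENNReal.ofReal ((2 : ℝ) ^ (1 / (2 : ℝ) ^ (2 * m + n - 1))) ≤ G Nm Nn Θ) ∧
      (m = 1 ∨ n = 1 →
        g Nm Nn ≤ ENNReal.ofReal (Real.exp (50 * (max m n : ℝ) ^ 3 / 2 ^ (max m n))) ∧
        ∃ Θ : Matrix (Fin n) (Fin m) ℝ, Admissible Θ ∧
          G Nm Nn Θ ≤ ENNReal.ofReal (Real.exp (50 * (max m n : ℝ) ^ 3 / 2 ^ (max m n))))) := by
  have hmR : (1 : ℝ) ≤ m := by exact_mod_cast hm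
  have hnR : (1 : ℝ) ≤ n := by exact_mod_cast hn
  refine ⟨fun Nm Nn hNm hNn => ?_, fun Nm Nn hNm hNn => ?_⟩
  · refine ⟨fun Θ hΘ => lowAll3 hWD hWF hGRN m n hm hn Nm Nn hNm hNn Θ hΘ, fun h => ?_, fun h => ?_⟩
    swap
    · subst h
      exact le_iInf₂ fun Θ hΘ => hLGN n hn Nm Nn hNm hNn Θ hΘ
    have hinf : ∀ Θ : Matrix (Fin n) (Fin m) ℝ, Admissible Θ → (Lengths Nm Nn Θ).Infinite := by
      rcases h with rfl | rfl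
      · exact fun Θ hΘ => hCVN n hn Nm Nn hNm hNn Θ hΘ
      · exact fun Θ hΘ => hINB m hm Nm Nn hNm hNn Θ hΘ
    refine ⟨hinf, le_iInf₂ fun Θ hΘ => ?_⟩
    obtain ⟨h1, h2⟩ := lowAll3 hWD hWF hGRN m n hm hn Nm Nn hNm hNn Θ (hinf Θ hΘ)
    rcases h with rfl | rfl
    · refine le_trans (rpow_le_aux3 (by positivity) ?_) h1
      rw [max_eq_right hn, Nat.cast_one, max_eq_right hnR, show 1 + n - 1 = n by omega]
      have h4 : (0 : ℝ) < 2 ^ n := by positivity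
      have h5 : (1 : ℝ) ≤ (n : ℝ) ^ 2 := one_le_pow₀ hnR
      nlinarith
    · refine le_trans (rpow_le_aux3 (by positivity) ?_) h2
      rw [max_eq_left hm, Nat.cast_one, max_eq_left hmR, show m + 1 - 1 = m by omega]
      exact le_of_eq (by ring)
  · have hE : Nm = sn m := by
      ext x
      rw [hNm x]
      rfl
    have hE' : Nn = sn n := by
      ext x
      rw [hNn x]
      rfl
    subst hE hE'
    refine ⟨isNorm_sn3 m, isNorm_sn3 n, fun Θ hΘ => lowSup3 hWA hGRO m n hm hn Θ hΘ, fun h => ?_⟩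
    have hup : ∃ Θ : Matrix (Fin n) (Fin m) ℝ, Admissible Θ ∧
          G (sn m) (sn n) Θ ≤ ENNReal.ofReal (Real.exp (50 * (max m n : ℝ) ^ 3 / 2 ^ (max m n))) := by
      rcases h with rfl | rfl
      · obtain ⟨-, -, Θ, h1, h2⟩ := Pool.LD.main n hn
        refine ⟨fun i _ => Θ i, ((hCVM n hn (fun i _ => Θ i)).1).2 h1, ?_⟩
        have h3 := (hCVM n hn (fun i _ => Θ i)).1.2 h1
        rw [((hCVM n hn (fun i _ => Θ i)).2 h3).2, max_eq_right hn, Nat.cast_one, max_eq_right hnR]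
        exact h2
      · obtain ⟨Θ, h1, h2⟩ := hFIN m hm
        refine ⟨Θ, h1, ?_⟩
        rw [max_eq_left hm, Nat.cast_one, max_eq_left hmR]
        exact h2
    obtain ⟨Θ, h1, h2⟩ := hup
    exact ⟨(iInf₂_le Θ h1).trans h2, Θ, h1, h2⟩

end Pool.LE
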