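import Pool.Agent.Work.MP_7453a1_le.Defs

set_option autoImplicit false

/-!
# Sup norms, all `m, n`: interface of the joint theorem (helper85)

THEOREM.  (a) For all `m, n ≥ 1`, sup norms, and every `Θ` with infinitely many best approximation lengths,
`G(Θ) ≥ 2 ^ (1 / 2 ^ (2 m + n - 1))` and `G(Θ) ≥ 2 ^ (1 / (8 m ^ 2 · 2 ^ (m + 2 n - 1)))`.
(b) For `m = 1` or `n = 1`, `N = max m n`: `2 ^ (1 / (16 N ^ 2 2 ^ N)) ≤ g ≤ exp (50 N ^ 3 / 2 ^ N)`.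

The file of block `X` is `Pool/Agent/Work/MP_7453a1_le/B_X.lean`: `import` this file, `namespace Pool.LE`,
`theorem p_X (hA : Stmt_A) (hB : Stmt_B) .. : Stmt_X` with exactly the blocks of the column `uses` as hypotheses
in that order; auxiliary lemmas have the prefix `X_`.  The blocks PAT, LNM, ORD of the folder `MP_7453a1_ld` are
proved: import `Pool.Agent.Work.MP_7453a1_ld.B_PAT` (`B_LNM`, `B_ORD`) and use `Pool.LD.p_PAT`, `Pool.LD.p_LNM`,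
`Pool.LD.p_ORD`; they are not hypotheses.

Sections 1 to 4: one linear form in `n` variables (upper bound).  `Λ = L n = 10000 · 4 ^ n`, an even integer,
`Λ ≥ 40000 n ^ 2`.  A STAGE consists of `2 n` steps `F ↦ F.nxt k c`.  First half (STA), axes `k = n-1, .., 0`: the vector
`x(v k)` becomes `X Λ ^ (n - k) pat k` up to a relative error `2 n / Λ`; second half (STB), axes `k = 0, .., n-1`: `v k` is
multiplied by `Λ ^ (k + 1)`, so that all sizes become `X Λ ^ (n + 1)`.  Section 5: lower bounds for all `m, n`.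
-/

namespace Pool.LE

open Finset Filter
open Pool.LD (L pat Sg)

/-! ## 1. One step -/

/-- **GOD** (60 lines), uses nothing.  `Good` is preserved.  `∑ v' + f' = ∑ v + 2 ∑ c_l v_l - f`, so the new half sum is
`h + ∑ c_l v_l - f`.  If `z + z = ∑ a_l v_l + b f`, put `f = 2 ∑ c_l v_l - v_k'`, `v_k = f'`: the new coefficients are
`a_l + 2 b c_l` for `l ≠ k`, `- b` for `v_k'`, `a_k + 2 b c_k` for `f'`. -/
def Stmt_GOD : Prop :=
  ∀ (n : ℕ) (F : Fr n) (k : Fin n) (c : Fin n → ℤ), F.Good → (F.nxt k c).Good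

/-- **DUA** (120 lines), uses nothing.  The dual vector.  `D l j = A l j / S l`; the matrix `M j l = D l j` is row diagonally
dominant (`det_ne_zero_of_sum_row_lt_diag`), so `∑ l, α l * D l j = T j` is solvable for every `T`, and
`|α l| ≤ 25/16 max |T j|` (take `l` with `|α l|` maximal and the coordinate `j = l`).  By the transposed system there is `ζ` with
`∑ j, ζ j * D l j = δ_{l k}`; with `T j = sign (ζ j)`: `∑ |ζ j| = ∑ ζ j T j = ∑ l, α l ∑ j, ζ j D l j = α k ≤ 25/16`.  `ξ = ζ / S k`. -/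
def Stmt_DUA : Prop :=
  ∀ (n : ℕ) (F : Fr n) (S : Fin n → ℝ), Dom F S → ∀ k, ∃ ξ : Fin n → ℝ,
    (∀ l, l ≠ k → ∑ j, ξ j * F.A l j = 0) ∧ ∑ j, ξ j * F.A k j = 1 ∧ ∑ j, |ξ j| ≤ 25 / (16 * S k)

/-- **SLV** (120 lines), uses nothing.  The matrix `l k ↦ D k l` is row diagonally dominant, so `γ` exists.
`Y = max |γ|`: `(4/5 - 4/25) Y ≤ 71/50`, `Y ≤ 2.22`.  For `l ≠ i`: `4/5 |γ l| ≤ 3/50 + 4/25 * 2.22`, so `|γ l| ≤ 0.52`.  Row `i`: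
`γ i D i i ≥ 99/100 - 4/25 * 0.52 ≥ 0.9` and `4/5 γ i ≤ 71/50 + 4/25 * 0.52`. -/
def Stmt_SLV : Prop :=
  ∀ (n : ℕ) (i : Fin n) (D : Fin n → Fin n → ℝ) (T : Fin n → ℝ),
    (∀ l, 4 / 5 ≤ D l l) → D i i ≤ 8 / 5 → (∀ l, ∑ k ∈ univ.erase l, |D k l| ≤ 4 / 25) →
    99 / 100 ≤ T i → T i ≤ 71 / 50 → (∀ l, l ≠ i → |T l| ≤ 3 / 50) →
    ∃ γ : Fin n → ℝ, (∀ l, ∑ k, γ k * D k l = T l) ∧ (∀ l, |γ l| ≤ 9 / 4) ∧ 1 / 2 ≤ γ i ∧ γ i ≤ 2

/-- **STP** (100 lines), uses GOD DUA.  One step.  `s = er Θ F.f`; DUA for `F.nxt k c` gives `ξ`; `Θ' = Θ + s ξ`.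
`er Θ' w = er Θ w + s ∑ ξ j w.1 j`.  For `w = v_k' = 2 ∑ c_l v_l - f`: `er Θ w = - s`, `∑ ξ j w.1 j = 1`.  For `w = v_k`:
`er Θ' v_k = s x`, `x = ∑ ξ j A k j`, and `1 = 2 c_k x - ∑ ξ j a j`, `|∑ ξ j a j| ≤ 25/16 η`. -/
def Stmt_STP : Prop :=
  ∀ (n : ℕ) (F : Fr n) (Θ : Fin n → ℝ), Cen F Θ → ∀ (k : Fin n) (c : Fin n → ℤ) (S : Fin n → ℝ) (η : ℝ),
    0 < c k → Dom (F.nxt k c) S → 0 ≤ η → η ≤ 1 / 100 → (∀ l, |F.a l| ≤ η * S k) →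
    ∃ Θ' : Fin n → ℝ, Cen (F.nxt k c) Θ' ∧
      |2 * (c k : ℝ) * er Θ' (F.v k) - er Θ F.f| ≤ 2 * η * er Θ F.f ∧
      ∑ l, |Θ' l - Θ l| ≤ 25 / (16 * S k) * er Θ F.f

/-! ## 2. One stage -/

/-- **MNA** (120 lines), uses nothing (LNM).  The observed errors `e l = er Θ (G.v l)`, `e' l = er Θ' (G.v l)` satisfy
`|e' l - e l| ≤ 8/5 X * 25 s / (16 X Λ) = 5/2 s / Λ`; `s ≤ s₀` by `mv`.  `sup`: for `k + j + 1 = n` all `e' l`, `l < k`, vanish and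
`e' k = s'`.  For `n ≤ k + j`: `∑_{l<k} |e' l| ≤ ∑_{l<k} |e l| + n * 5/2 s / Λ + s'` (the new term is `s'`), `e' k ≥ e k - 5/2 s / Λ`, and
`s / 2 ≥ (n + 1) * 5/2 s / Λ + 3/2 s'`.  `sum`: the same for `j ≥ 1`; for `j = 0` the sum is `s' + s' / 2 ≤ 15/4 s / Λ`.
`mv`: `25/16 s ≤ 2 (s - s')`. -/
def Stmt_MNA : Prop :=
  ∀ (n : ℕ) (G : Fr n) (s₀ X : ℝ) (j : ℕ) (Θ₀ Θ Θ' : Fin n → ℝ) (s s' : ℝ), 1 ≤ n → 0 < X → 0 < s →
    (∀ k l, |G.A k l| ≤ 8 / 5 * X) → Mon G s₀ X j Θ₀ Θ s →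
    ∑ l, |Θ' l - Θ l| ≤ 25 * s / (16 * (X * L n)) → 0 < s' → s' ≤ 5 / 2 * s / L n →
    (∀ k : Fin n, (k : ℕ) + j + 1 < n → er Θ' (G.v k) = 0) →
    (∀ k : Fin n, (k : ℕ) + j + 1 = n → er Θ' (G.v k) = s') →
    Mon G s₀ X (j + 1) Θ₀ Θ' s'

/-- **MNB** (80 lines), uses nothing (LNM).  The same without new vectors: `|e' l - e l| ≤ 5/2 s / Λ` for all `l`, and
`s / 2 ≥ (n + 1) * 5/2 s / Λ + s' / 2`. -/
def Stmt_MNB : Prop :=
  ∀ (n : ℕ) (G : Fr n) (s₀ X : ℝ) (Θ₀ Θ Θ' : Fin n → ℝ) (s s' : ℝ), 1 ≤ n → 0 < X → 0 < s →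
    (∀ k l, |G.A k l| ≤ 8 / 5 * X) → Mon G s₀ X n Θ₀ Θ s →
    ∑ l, |Θ' l - Θ l| ≤ 25 * s / (16 * (X * L n)) → 0 < s' → s' ≤ 5 / 2 * s / L n →
    Mon G s₀ X n Θ₀ Θ' s'

/-- **STA** (250 lines), uses SLV STP MNA (PAT, LNM).  A step of the first half: `n = m + 1`, the axis is `k = m - j`, the new
size `X' = X Λ ^ (j + 1) = X Λ ^ (n - k)`.  The present sizes are `S l = X Λ ^ (n - l)` for `l ≥ n - j` and `S l = X` for `l ≤ k`; all are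
`≤ X Λ ^ j = X' / Λ`.  `D l i = A l i / S l`: for `l ≥ n - j` it differs from `pat l i` by at most `2 n / Λ`; for `l ≤ k` it is that of `G`.
So `∑_{l ≠ i} |D l i| ≤ 1/10 + 1/20 + 2 n ^ 2 / Λ ≤ 4/25`, `D l l ≥ 4/5`, `D k k ≤ 3/2`.  SLV with `T i = pat k i + a i / X'`
(`|a i| / X' ≤ 2 / Λ`) gives `γ`; `c l = round (X' γ l / (2 S l))`, `2 c l = X' γ l / S l + θ l`, `|θ l| ≤ 1`.  Then
`A' k i = ∑ 2 c_l A l i - a i = X' pat k i + ∑ θ_l A l i`, and `|∑ θ_l A l i| ≤ ∑ S l |D l i| ≤ (X' / Λ) (8/5 + 4/25) ≤ 2 n X' / Λ`.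
`2 c_k ≥ X' / (2 X) - 1 = Λ ^ (j + 1) / 2 - 1 ≥ 0.49 Λ`.  STP with the sizes `S` updated at `k` by `X'` and `η = 2 / Λ`:
`s' ≤ 1.02 s / (2 c_k) ≤ 5/2 s / Λ`, `∑ |Θ' - Θ| ≤ 25 s / (16 X')`.  `F'.f = F.v k = G.v k`.  MNA for `mon` (`F'.v l = G.v l` for
`l < k`). -/
def Stmt_STA : Prop :=
  ∀ (m : ℕ) (G : Fr (m + 1)) (Θ₀ : Fin (m + 1) → ℝ) (X : ℝ), Loose G Θ₀ X →
    ∀ (F : Fr (m + 1)) (Θ : Fin (m + 1) → ℝ) (j : ℕ), j < m + 1 → PhA m G F Θ₀ Θ X j →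
    ∃ (F' : Fr (m + 1)) (Θ' : Fin (m + 1) → ℝ), PhA m G F' Θ₀ Θ' X (j + 1)

/-- **STB** (200 lines), uses STP MNB (PAT, LNM).  A step of the second half: the axis is `k = j`, `c = 0` except
`2 c_k = Λ ^ (j + 1)` (`Λ` is an even integer).  `A' k i = Λ ^ (j + 1) A k i - a i`, `|a i| ≤ 2 X Λ ^ n`, so with
`X' = X Λ ^ (n + 1)`: `|A' k i - X' pat k i| ≤ (2 n + 2) / Λ X'`.  Sizes: `S l = X'` for `l < j` (and for `l = k` after the step),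
`X Λ ^ (n - l)` for `l > j`; `Dom` as in STA (only the pattern: row sums `≤ 1/20 + 4 n ^ 2 / Λ`).  STP with `η = 2 / Λ`:
`s' ≤ 1.02 s / Λ ^ (j + 1)`, `∑ |Θ' - Θ| ≤ 25 s / (16 X')`.  `F'.f = F.v k` has coordinates `≤ 3/2 X Λ ^ (n - k)`.  MNB for `mon`. -/
def Stmt_STB : Prop :=
  ∀ (m : ℕ) (G : Fr (m + 1)) (Θ₀ : Fin (m + 1) → ℝ) (X : ℝ), Loose G Θ₀ X →
    ∀ (F : Fr (m + 1)) (Θ : Fin (m + 1) → ℝ) (j : ℕ), j < m + 1 → PhB m G F Θ₀ Θ X j →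
    ∃ (F' : Fr (m + 1)) (Θ' : Fin (m + 1) → ℝ), PhB m G F' Θ₀ Θ' X (j + 1)

/-- **STG** (100 lines), uses STA STB (LNM).  `PhA .. G G Θ₀ Θ₀ X 0` holds (`sup`, `new`, `sum` are empty); `m + 1` steps STA;
`PhA .. (m + 1)` gives `PhB .. 0` (`2 X ≤ 2 X Λ ^ (m + 1)`); `m + 1` steps STB; `PhB .. (m + 1)` gives `Tight`. -/
def Stmt_STG : Prop :=
  ∀ (m : ℕ) (G : Fr (m + 1)) (Θ₀ : Fin (m + 1) → ℝ) (X : ℝ), Loose G Θ₀ X →
    ∃ (F : Fr (m + 1)) (Θ : Fin (m + 1) → ℝ), Tight m F Θ (X * KE m) ∧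
      Mon G (er Θ₀ G.f) X (m + 1) Θ₀ Θ (er Θ F.f)

/-- **TGL** (60 lines), uses nothing (PAT, LNM).  The output of a stage is an input of a stage. -/
def Stmt_TGL : Prop :=
  ∀ (m : ℕ) (F : Fr (m + 1)) (Θ : Fin (m + 1) → ℝ) (X : ℝ), Tight m F Θ X → Loose F Θ X

/-- **INI** (60 lines), uses nothing.  `v k = (e_k; 0)`, `f = ((1, .., 1); -2)`, `Θ = 0`, `er Θ f = 2`.  The half sum is
`((1, .., 1); -1)`; for `z = (x; y)`: `z + z = ∑ (2 x_k + y) v_k - y f`. -/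
def Stmt_INI : Prop := ∀ m : ℕ, ∃ (F : Fr (m + 1)) (Θ : Fin (m + 1) → ℝ), Loose F Θ 1

/-- **SEQ** (250 lines), uses STG TGL INI (PAT, LNM).  Frames `G s`, centres `Θ s`, sizes `X s = K ^ s`, `K = KE m ≥ Λ`,
`e s = er (Θ s) (G s).f`: `G 0` by INI, `G (s + 1)` by STG; `F s = G (s + 1)`, `Tight m (G (s + 1)) .. (X (s + 1))`.  `Mon.sum` gives
`e (s + 1) ≤ 8 e s / Λ ≤ e s / 1000`, `Mon.mv` gives `∑ |Θ (s + 1) - Θ s| ≤ 2 e s / (X s Λ)`, so the limit `Θ` exists and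
`∑ |Θ - Θ s| ≤ 3 e s / (X s Λ)`.  `Clu` for `G s` (`s ≥ 1`): `ef`: `|a l| 3 e s / (X s Λ) ≤ e s / 1000`.  The errors
`b k = er Θ ((G s).v k)` differ from `er (Θ (s + 1)) ((G s).v k)` by at most `3/2 X s * 3 e (s+1) / (X (s+1) Λ) ≤ 5 e (s+1) / Λ ^ 2`;
`Mon.sup` of the stage `s → s + 1` has the reserve `e (s + 1) / 2`, `Mon.sum` gives `4 e s / Λ`. -/
def Stmt_SEQ : Prop :=
  ∀ m : ℕ, ∃ (F : ℕ → Fr (m + 1)) (e : ℕ → ℝ) (Θ : Fin (m + 1) → ℝ),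
    ∀ s, Clu m (F s) (KE m ^ (s + 1)) (e s) Θ

/-! ## 3. The cluster of best approximations -/

/-- **CEC** (150 lines), uses nothing (PAT, LNM).  Classification.  `Good`: `z + z = ∑ a_k v_k + β f`, `a_k ≡ β`.  Let `|a_k|` be maximal
at `k`, `a* = |a_k|`; coordinate `k`: `a* (1 - 1/20 - 4 n ^ 2 / Λ) X ≤ 8/5 X + |β| 2 X / Λ`.  The error:
`|β| (999/1000) s ≤ 101/100 s + a* s / 1000`.  So `a* < 2`, `|β| < 2`.  `β = 0`: all `a_k` are even, so `0`.  `β = ± 1`: all `a_k` are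
odd, so `± 1`; for `β = 1` take `- z`. -/
def Stmt_CEC : Prop :=
  ∀ (m : ℕ) (F : Fr (m + 1)) (X s : ℝ) (Θ : Fin (m + 1) → ℝ), Clu m F X s Θ →
    ∀ z : Pt (m + 1), (∀ l, 2 * |(z.1 l : ℝ)| ≤ 8 / 5 * X) → 2 * |er Θ z| ≤ 101 / 100 * s →
    z = 0 ∨ ∃ σ : Fin (m + 1) → ℤ, Sg σ ∧
      (z + z = ∑ k, σ k • F.v k - F.f ∨ -z + -z = ∑ k, σ k • F.v k - F.f)

/-- **CLU** (200 lines), uses CEC (PAT, LNM, ORD).  `z = (∑ σ k v_k - f) / 2` exists by `Good` (subtract `f` and the `v_k` with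
`σ k = -1` from the half sum).  Coordinate `* = last` of `x(2 z)` lies in `[13/10 X, 3/2 X]`, the others are at most `101/100 X` in absolute
value.  `|er Θ (2 z)| = er f - ∑ σ k b k`, `b k = er Θ v_k` (it is `≥ 0` as `∑ |b k| ≤ s / 1000`), `≤ 101/100 s`.  A competitor `z'`
satisfies the hypotheses of CEC, so it is `0` or (changing its sign) `z' + z' = ∑ σ' k v_k - f`.  If `σ' = σ` then `z' = z`.
Otherwise let `k` be the largest index of difference.  If `σ' k = 1` then `k ≠ last` and ORD with `w l = A l *`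
(`∑_{l<k} |A l *| < A k *` by PAT and LNM) gives coordinate `*` of `x(2 z')` larger than that of `x(2 z)`, a contradiction.  If
`σ' k = -1`, ORD with `w = b` gives `∑ σ' b < ∑ σ b`, so the error of `z'` is larger, a contradiction. -/
def Stmt_CLU : Prop :=
  ∀ (m : ℕ) (F : Fr (m + 1)) (X s : ℝ) (Θ : Fin (m + 1) → ℝ), Clu m F X s Θ →
    ∀ σ : Fin (m + 1) → ℤ, Sg σ → σ (Fin.last m) = 1 →
    ∃ z : Pt (m + 1), z + z = ∑ k, σ k • F.v k - F.f ∧ IsB Θ z ∧ X / 2 < ‖xv z‖ ∧ ‖xv z‖ ≤ X ∧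
      2 * ‖xv z‖ = ∑ k, (σ k : ℝ) * F.A k (Fin.last m) - F.a (Fin.last m)

/-- **CNT** (100 lines), uses CLU (PAT, LNM, ORD).  There are `2 ^ m` sign vectors with last sign `1`; the length is injective in `σ`:
ORD for `w l = A l *` (two different such sign vectors first differ at an index `k ≠ last`). -/
def Stmt_CNT : Prop :=
  ∀ (m : ℕ) (F : Fr (m + 1)) (X s : ℝ) (Θ : Fin (m + 1) → ℝ), Clu m F X s Θ →
    ∃ T : Finset ℝ, 2 ^ m ≤ T.card ∧ ∀ r ∈ T, X / 2 < r ∧ r ≤ X ∧ ∃ z, IsB Θ z ∧ ‖xv z‖ = r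

/-! ## 4. The growth rate -/

open Pool.Agent.Work.MP_7453a1_nt_two (Admissible IsBest Lengths G g len err)

/-- the sup norm as a seminorm -/
noncomputable abbrev sn (n : ℕ) : Seminorm ℝ (Fin n → ℝ) := normSeminorm ℝ (Fin n → ℝ)

/-- the `1 × n` matrix of `Θ` -/
def row {n : ℕ} (Θ : Fin n → ℝ) : Matrix (Fin 1) (Fin n) ℝ := fun _ j => Θ j

/-- **BRG** (60 lines), uses nothing.  Translation.  `‖·‖` on `Fin 1 → ℝ` is the absolute value of the coordinate `0`. -/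
def Stmt_BRG : Prop :=
  ∀ (n : ℕ) (Θ : Fin n → ℝ) (z : Pt n), IsB Θ z → ‖xv z‖ ∈ Lengths (sn n) (sn 1) (row Θ)

/-- **LIM** (150 lines), uses nothing.  The sets `T s` are disjoint, so `⋃_{s < t} T s` has at least `t 2 ^ m` elements, all `≤ K ^ t`.
For a finite set `T` of positive lengths: `#{r ∈ T | r ≤ M ν} ≤ ν` (induction: `M (ν + 1) ≤ r` for every length `r > M ν`, so at most one
new element is `≤ M (ν + 1)`); so `M (t 2 ^ m) ≤ K ^ t` and `M_ν ^ (1 / ν) ≤ K ^ (1 / 2 ^ m)` for `ν = t 2 ^ m`, `t ≥ 1`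
(`M ν ≥ 0`).  Compare `B_LIM.lean` of the folder `MP_7453a1_ld`. -/
def Stmt_LIM : Prop :=
  ∀ (a b : ℕ) (Nm : Seminorm ℝ (Fin a → ℝ)) (Nn : Seminorm ℝ (Fin b → ℝ))
    (Θ : Matrix (Fin b) (Fin a) ℝ) (m : ℕ) (K : ℝ), 2 ≤ K →
    (∀ s : ℕ, ∃ T : Finset ℝ, 2 ^ m ≤ T.card ∧ ∀ r ∈ T,
      r ∈ Lengths Nm Nn Θ ∧ K ^ (s + 1) / 2 < r ∧ r ≤ K ^ (s + 1)) →
    (∀ R : ℝ, ∃ r ∈ Lengths Nm Nn Θ, R < r) ∧
    G Nm Nn Θ ≤ ENNReal.ofReal (K ^ (1 / (2 : ℝ) ^ m))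

/-- **ADM** (40 lines), uses nothing.  If `Θ x = y` with `x ≠ 0` and `z` is a best approximation with `|x(z)| > |x|`, then `(x, y)` has
error `0`, so it is `± z`, a contradiction. -/
def Stmt_ADM : Prop :=
  ∀ (a b : ℕ) (Nm : Seminorm ℝ (Fin a → ℝ)) (Nn : Seminorm ℝ (Fin b → ℝ))
    (Θ : Matrix (Fin b) (Fin a) ℝ), (∀ R : ℝ, ∃ r ∈ Lengths Nm Nn Θ, R < r) → Admissible Θ

/-- **NUM** (60 lines), uses nothing.  `n = m + 1`: `2 log KE = 2 (n + 1) log Λ`, `log Λ ≤ 9.3 + 1.4 n ≤ 10.7 n`, so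
`2 log KE ≤ 42.8 n ^ 2 ≤ 50 n ^ 3`.  Compare `B_NUM.lean` of the folder `MP_7453a1_ld`. -/
def Stmt_NUM : Prop :=
  ∀ m : ℕ, 2 ≤ KE m ∧ KE m ^ (1 / (2 : ℝ) ^ m) ≤ Real.exp (50 * ((m : ℝ) + 1) ^ 3 / 2 ^ (m + 1))

/-- **FIN** (50 lines), uses SEQ CNT BRG LIM ADM NUM. -/
def Stmt_FIN : Prop :=
  ∀ n : ℕ, 1 ≤ n → ∃ Θ : Matrix (Fin 1) (Fin n) ℝ, Admissible Θ ∧
    G (sn n) (sn 1) Θ ≤ ENNReal.ofReal (Real.exp (50 * (n : ℝ) ^ 3 / 2 ^ n))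

/-! ## 5. Lower bounds for all `m`, `n`, and the case `m = 1` -/

/-- **WA** (200 lines), uses nothing.  Suppose `T` has more than `2 ^ (2 m + n - 1)` elements.  For `r ∈ T` let `z_r` be a best approximation
of length `r`.  The `2 #T > 4 ^ m 2 ^ n` points `± z_r` are put into classes by `⌊x_j / R⌋ ∈ {-2, -1, 0, 1}` (as `|x_j| < 2 R`) and by
`e_i ≥ 0` or `e_i < 0`.  Two different ones (`(r, sign) ≠ (r', sign')`, `r ≤ r'`) in the same class have a difference `w` with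
`|x(w)| < R ≤ r` and `|e(w)| ≤ max (|e(z_r)|, |e(z_r')|) = |e(z_r)|` (`r < r'` implies `|e(z_r)| > |e(z_r')|`: otherwise `z_r` would be
`0` or `± z_r'`).  So `w = 0` or `w = ± z_r`; the second is impossible as `|x(w)| < r`, and `w = 0` gives `r = r'` and equal signs. -/
def Stmt_WA : Prop :=
  ∀ (m n : ℕ) (Θ : Matrix (Fin n) (Fin m) ℝ), 1 ≤ m → 1 ≤ n → ∀ R : ℝ, 0 < R →
    ∀ T : Finset ℝ, (∀ r ∈ T, r ∈ Lengths (sn m) (sn n) Θ ∧ R ≤ r ∧ r < 2 * R) →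
    T.card ≤ 2 ^ (2 * m + n - 1)

/-- **WB** (200 lines), uses nothing.  Let `ζ = err x y`, `ζ' = err x' y'`.  For `r ∈ T`: `ζ' ≤ |e(z_r)| ≤ ζ` (two best approximations of equal
length agree up to sign, a longer one has a smaller error).  Suppose `2 ζ' > ζ`.  The `2 #T > 2 ^ m 4 ^ n` points `± z_r` are put into
classes by `x_j ≥ 0` or `x_j < 0` and by the four intervals `e_i < - ζ/2`, `- ζ/2 ≤ e_i < 0`, `0 ≤ e_i < ζ/2`, `ζ/2 ≤ e_i`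
(`|e_i| ≤ ζ`).  Two different ones in the same class have a difference `w` with `|x(w)| ≤ |x'|` and `|e(w)| ≤ ζ/2 < ζ'`.  As `(x', y')` is a
best approximation, `w = 0` or `w = ± (x', y')`; the second contradicts `|e(w)| < ζ'`, the first that the points are different. -/
def Stmt_WB : Prop :=
  ∀ (m n : ℕ) (Θ : Matrix (Fin n) (Fin m) ℝ), 1 ≤ m → 1 ≤ n →
    ∀ (T : Finset ℝ) (x x' : Fin m → ℤ) (y y' : Fin n → ℤ), IsBest (sn m) (sn n) Θ x y →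
    IsBest (sn m) (sn n) Θ x' y' →
    (∀ r ∈ T, r ∈ Lengths (sn m) (sn n) Θ ∧ len (sn m) x ≤ r ∧ r ≤ len (sn m) x') →
    2 ^ (m + 2 * n - 1) < T.card → 2 * err (sn n) Θ x' y' ≤ err (sn n) Θ x y

/-- **WC** (250 lines), uses WB.  Let `Q = 2 ^ (m + 2 n - 1)`, `P = 8 m ^ 2`, and suppose `#T > P Q`.  Let `r_0 < r_1 < ..` be the elements of `T`
(`Finset.orderEmbOfFin`) and `y_b` the best approximation of length `r_{b Q}`, `b = 0, .., P`.  WB for `{r_{b Q}, .., r_{(b+1) Q}}`: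
`2 |e(y_{b+1})| ≤ |e(y_b)|`.  For `S ⊆ {1, .., P}` let `u_S = ∑_{b ∈ S} y_b`: `|x_j(u_S)| < 2 R P`, classes by `⌊x_j / R⌋`, `4 P` values
(`- 2 P ≤ ⌊·⌋ < 2 P`).  As `2 ^ P > (4 P) ^ m` (`2 ^ (8 m) > 32 m ^ 2`), two different subsets are in the same class;
`w = u_S - u_S' = ∑ δ_b y_b`, `δ_b ∈ {-1, 0, 1}`, has `|x(w)| < R ≤ |x(y_0)|` and `|e(w)| ≤ ∑_{b=1}^{P} |e(y_b)| ≤ |e(y_0)|`, so `w = 0` or
`± y_0`, the latter is impossible.  But `w ≠ 0`: let `b` be the smallest index with `δ_b ≠ 0`; if `b = P`, `w = ± y_P ≠ 0`; if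
`b < P` then `|e(y_b)| > 0` (it is larger than `|e(y_{b+1})|`) and `∑_{b' > b} |e(y_b')| ≤ (1 - 2 ^ (b - P)) |e(y_b)| < |e(y_b)|`, so
`e(w) ≠ 0` (a coordinate where `|e(y_b)|` is attained). -/
def Stmt_WC : Prop :=
  ∀ (m n : ℕ) (Θ : Matrix (Fin n) (Fin m) ℝ), 1 ≤ m → 1 ≤ n → ∀ R : ℝ, 0 < R →
    ∀ T : Finset ℝ, (∀ r ∈ T, r ∈ Lengths (sn m) (sn n) Θ ∧ R ≤ r ∧ r < 2 * R) →
    T.card ≤ 8 * m ^ 2 * 2 ^ (m + 2 * n - 1)

/-- **GRO** (200 lines), uses nothing.  Every length is `≥ 1` (sup norm of a nonzero integer vector).  By the hypothesis `[R, 2 R)` contains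
at most `K` lengths, so every bounded set of lengths is finite (`[1, 2 ^ i)` is a union of `i` windows) and, as there are infinitely many,
`M (ν + 1)` is a length, `M ν < M (ν + 1)` (least element of a nonempty set which is finite below every bound).  `M (ν + K) ≥ 2 M ν` for
`ν ≥ 1`: otherwise `M ν, .., M (ν + K)` are `K + 1` lengths in `[M ν, 2 M ν)`.  So `M (1 + t K) ≥ 2 ^ t`,
`M ν ≥ 2 ^ ((ν - 1) / K - 1)` and the limit inferior of `M ν ^ (1 / ν)` is at least `2 ^ (1 / K)`: use (or copy)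
`le_G_of_growth'` of `MP_7453a1_nt_two/Seq.lean`. -/
def Stmt_GRO : Prop :=
  ∀ (m n : ℕ) (Θ : Matrix (Fin n) (Fin m) ℝ) (K : ℕ), 1 ≤ K →
    (∀ R : ℝ, 0 < R → ∀ T : Finset ℝ,
      (∀ r ∈ T, r ∈ Lengths (sn m) (sn n) Θ ∧ R ≤ r ∧ r < 2 * R) → T.card ≤ K) →
    (Lengths (sn m) (sn n) Θ).Infinite →
    ENNReal.ofReal ((2 : ℝ) ^ (1 / (K : ℝ))) ≤ G (sn m) (sn n) Θ

/-- **INA** (200 lines), uses nothing.  `n = 1`: infinitely many lengths.  Copy the part of `MP_7453a1_nt_two/Seq.lean` up to `B_unbounded`,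
`lengths_eq`, `infinite_lengths` (there for `Fin 2` and every norm) with `Fin m` and the sup norm.  Proof: by Dirichlet there are integer
points with `x ≠ 0` and error `< δ` for every `δ > 0`; among those with error `< δ` take the minimal length, then the minimal error among
the (finitely many) points of this length; it is a best approximation, unique up to sign as equal errors give `er (z ∓ z') = 0`, and its
length tends to infinity as `δ → 0` because the finitely many `x ≠ 0` of bounded length have nonzero distance to the integers. -/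
def Stmt_INA : Prop :=
  ∀ (m : ℕ), 1 ≤ m → ∀ Θ : Matrix (Fin 1) (Fin m) ℝ, Admissible Θ →
    (Lengths (sn m) (sn 1) Θ).Infinite

/-- **CVM** (150 lines), uses nothing.  `m = 1`: the general notions agree with those of `MP_7453a1_nt_norm`.  Copy
`MP_7453a1_nt_two/Low12.lean` (`adm12`, `lengths12`, `M12`) with `Fin n` instead of `Fin 2`; for the sup norm `N₁ (fun _ => 1) = 1`;
`Pool.Agent.Work.MP_7453a1_nt_norm.infinite` gives the infinite set. -/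
def Stmt_CVM : Prop :=
  ∀ (n : ℕ), 1 ≤ n → ∀ Θ : Matrix (Fin n) (Fin 1) ℝ,
    (Admissible Θ ↔ Pool.Agent.Work.MP_7453a1_nt_norm.Admissible (fun i => Θ i 0)) ∧
    (Admissible Θ → (Lengths (sn 1) (sn n) Θ).Infinite ∧
      G (sn 1) (sn n) Θ = Pool.Agent.Work.MP_7453a1_nt_norm.G (sn n) (fun i => Θ i 0))

end Pool.LE
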