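import Pool.Agent.Work.MP_7453a1_le.Interface

set_option autoImplicit false

/-!
# Lower bounds for all `m, n` and all norms (helper85)

For all norms on `ℝᵐ` and `ℝⁿ` and every `Θ` with infinitely many best approximation lengths:
`G(Θ) ≥ 2 ^ (1 / (2 ^ (m + n - 1) 3 ^ m))` and `G(Θ) ≥ 2 ^ (1 / (8 m ^ 2 2 ^ (m + n - 1) 3 ^ n))`.
The conventions are those of `Interface.lean` (file `B_X.lean`, `import` THIS file, `namespace Pool.LE`).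
-/

namespace Pool.LE

open Finset Filter
open Pool.Agent.Work.MP_7453a1_nt_norm (IsNorm)
open Pool.Agent.Work.MP_7453a1_nt_two (Admissible IsBest Lengths G g len err)

/-- **PCK** (150 lines), uses nothing.  Packing.  Let `U = {x | N x < 1}`; `0 < vol U < ∞` (`N` is a norm on a finite dimensional space:
`c ‖x‖ ≤ N x ≤ C ‖x‖`; `Pool.Agent.Work.MP_7453a1_nt_norm` has such lemmas in `Frame.lean`, e.g. `upper`, `int_lower`).
`{x | N (x - c) < ρ} = c + ρ U` has volume `ρ ^ m vol U` (`MeasureTheory.Measure.addHaar_smul`).  The sets with `ρ = b / 2`, `c ∈ S`, are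
disjoint and lie in `{N x < a + b / 2}`. -/
def Stmt_PCK : Prop :=
  ∀ (m : ℕ) (N : Seminorm ℝ (Fin m → ℝ)), IsNorm N → ∀ a b : ℝ, 0 ≤ a → 0 < b →
    ∀ S : Finset (Fin m → ℝ), (∀ x ∈ S, N x ≤ a) → (∀ x ∈ S, ∀ y ∈ S, x ≠ y → b ≤ N (x - y)) →
    (S.card : ℝ) * b ^ m ≤ (2 * a + b) ^ m

/-- **WD** (200 lines), uses PCK.  For `r ∈ T` let `z_r` be a best approximation of length `r`.  There are `2 ^ (m + n)` classes of
`ℤᵐ × ℤⁿ` modulo 2.  Let `r < r'` be in the same class: the points `w = (z_r ± z_r') / 2` are integral and nonzero (different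
lengths), `|e(w)| ≤ (|e(z_r)| + |e(z_r')|) / 2 < |e(z_r)|` (a longer best approximation has a smaller error).  As `z_r` is a best
approximation, `|x(w)| > r`, so `|x(z_r) ± x(z_r')| > 2 r ≥ 2 R`.  Also `|x(z_r) + x(z_r)| = 2 r ≥ 2 R`.  So the `2 #class` vectors
`± x(z_r)` are different, of length `≤ 2 R`, at distances `≥ 2 R`: PCK with `a = b = 2 R` gives `2 #class ≤ 3 ^ m`. -/
def Stmt_WD : Prop :=
  ∀ (m n : ℕ) (Nm : Seminorm ℝ (Fin m → ℝ)) (Nn : Seminorm ℝ (Fin n → ℝ)), IsNorm Nm → IsNorm Nn →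
    ∀ Θ : Matrix (Fin n) (Fin m) ℝ, 1 ≤ m → 1 ≤ n → ∀ R : ℝ, 0 < R →
    ∀ T : Finset ℝ, (∀ r ∈ T, r ∈ Lengths Nm Nn Θ ∧ R ≤ r ∧ r < 2 * R) →
    T.card ≤ 2 ^ (m + n - 1) * 3 ^ m

/-- **WE** (200 lines), uses PCK.  `ζ = err x y`, `ζ' = err x' y'`; suppose `ζ < 2 ζ'`.  For `r ∈ T`: `ζ' ≤ |e(z_r)| ≤ ζ` (best
approximations of equal length agree up to sign, a longer one has a smaller error).  Let `r < r'` be in the same class modulo 2: the points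
`w = (z_r ± z_r') / 2` are integral and nonzero, `|x(w)| ≤ (r + r') / 2 < r'`, so, as `z_r'` is a best approximation,
`|e(w)| > |e(z_r')| ≥ ζ'`, and `|e(z_r) ± e(z_r')| > 2 ζ'`; also `|e(z_r) + e(z_r)| ≥ 2 ζ'`.  PCK for the vectors `± e(z_r)` of a class with
`a = b = 2 ζ'`: `2 #class ≤ 3 ^ n`. -/
def Stmt_WE : Prop :=
  ∀ (m n : ℕ) (Nm : Seminorm ℝ (Fin m → ℝ)) (Nn : Seminorm ℝ (Fin n → ℝ)), IsNorm Nm → IsNorm Nn →
    ∀ Θ : Matrix (Fin n) (Fin m) ℝ, 1 ≤ m → 1 ≤ n →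
    ∀ (T : Finset ℝ) (x x' : Fin m → ℤ) (y y' : Fin n → ℤ), IsBest Nm Nn Θ x y → IsBest Nm Nn Θ x' y' →
    (∀ r ∈ T, r ∈ Lengths Nm Nn Θ ∧ len Nm x ≤ r ∧ r ≤ len Nm x') →
    2 ^ (m + n - 1) * 3 ^ n < T.card → 2 * err Nn Θ x' y' ≤ err Nn Θ x y

/-- **WF** (200 lines), uses PCK WE.  The proof of WC (see `B_WC.lean`) with WE instead of WB, `Q = 2 ^ (m + n - 1) 3 ^ n`, `P = 8 m ^ 2`,
and PCK instead of the cells: if the `2 ^ P` vectors `x(u_S)` had pairwise distances `≥ R` then, as their lengths are `≤ 2 R P`,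
`2 ^ P ≤ (4 P + 1) ^ m` by PCK (`a = 2 R P`, `b = R`), but `32 m ^ 2 + 1 < 2 ^ (8 m)`. -/
def Stmt_WF : Prop :=
  ∀ (m n : ℕ) (Nm : Seminorm ℝ (Fin m → ℝ)) (Nn : Seminorm ℝ (Fin n → ℝ)), IsNorm Nm → IsNorm Nn →
    ∀ Θ : Matrix (Fin n) (Fin m) ℝ, 1 ≤ m → 1 ≤ n → ∀ R : ℝ, 0 < R →
    ∀ T : Finset ℝ, (∀ r ∈ T, r ∈ Lengths Nm Nn Θ ∧ R ≤ r ∧ r < 2 * R) →
    T.card ≤ 8 * m ^ 2 * (2 ^ (m + n - 1) * 3 ^ n)

/-- **GRN** (100 lines), uses nothing.  GRO for every norm: copy `B_GRO.lean`; the lengths are `≥ c` for some `c > 0` (`int_lower` of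
`MP_7453a1_nt_norm/Frame.lean`) instead of `≥ 1`. -/
def Stmt_GRN : Prop :=
  ∀ (m n : ℕ) (Nm : Seminorm ℝ (Fin m → ℝ)) (Nn : Seminorm ℝ (Fin n → ℝ)), IsNorm Nm → IsNorm Nn →
    ∀ (Θ : Matrix (Fin n) (Fin m) ℝ) (K : ℕ), 1 ≤ K →
    (∀ R : ℝ, 0 < R → ∀ T : Finset ℝ,
      (∀ r ∈ T, r ∈ Lengths Nm Nn Θ ∧ R ≤ r ∧ r < 2 * R) → T.card ≤ K) →
    (Lengths Nm Nn Θ).Infinite →
    ENNReal.ofReal ((2 : ℝ) ^ (1 / (K : ℝ))) ≤ G Nm Nn Θ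

/-- **INB** (100 lines), uses nothing.  INA for every norm: copy `B_INA.lean` (or `MP_7453a1_nt_two/Seq.lean`, where `Fin 2` and every
norm are treated). -/
def Stmt_INB : Prop :=
  ∀ (m : ℕ), 1 ≤ m → ∀ (Nm : Seminorm ℝ (Fin m → ℝ)) (N₁ : Seminorm ℝ (Fin 1 → ℝ)), IsNorm Nm → IsNorm N₁ →
    ∀ Θ : Matrix (Fin 1) (Fin m) ℝ, Admissible Θ → (Lengths Nm N₁ Θ).Infinite

/-- **CVN** (100 lines), uses nothing.  `m = 1`, every norm: copy `MP_7453a1_nt_two/Low12.lean` up to `lengths12` with `Fin n`;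
`Pool.Agent.Work.MP_7453a1_nt_norm.infinite`. -/
def Stmt_CVN : Prop :=
  ∀ (n : ℕ), 1 ≤ n → ∀ (N₁ : Seminorm ℝ (Fin 1 → ℝ)) (Nn : Seminorm ℝ (Fin n → ℝ)), IsNorm N₁ → IsNorm Nn →
    ∀ Θ : Matrix (Fin n) (Fin 1) ℝ, Admissible Θ → (Lengths N₁ Nn Θ).Infinite

end Pool.LE
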