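import Pool.Agent.Work.MP_7453a1_le.Interface2

set_option autoImplicit false

/-! # Lagarias's bound in the general notation (helper85) -/

namespace Pool.LE

open Finset Filter
open Pool.Agent.Work.MP_7453a1_nt_norm (IsNorm)
open Pool.Agent.Work.MP_7453a1_nt_two (Admissible IsBest Lengths G g len err)

/-- **LGN** (150 lines), uses nothing.  `m = 1`, every norm.  `B_LAG.lean` of the folder `MP_7453a1_ld` shows
`M (ν + 2 ^ (n + 1)) ≥ 3 M ν` for `ν ≥ ν₀` in the notation of `MP_7453a1_nt_norm` (column `fun i => Θ i 0`); in the general notation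
`M (ν + 1)` is `N₁ (fun _ => 1)` times this (copy `M12` of `MP_7453a1_nt_two/Low12.lean` with `Fin n`; compare `B_CVM.lean`, `B_CVN.lean`
of this folder).  So `M ν ≥ c t ^ ν` with `t = 3 ^ (1 / 2 ^ (n + 1))`, and `le_G_of_growth'` (`MP_7453a1_nt_two/Seq.lean`; or copy it). -/
def Stmt_LGN : Prop :=
  ∀ (n : ℕ), 1 ≤ n → ∀ (N₁ : Seminorm ℝ (Fin 1 → ℝ)) (Nn : Seminorm ℝ (Fin n → ℝ)), IsNorm N₁ → IsNorm Nn →
    ∀ Θ : Matrix (Fin n) (Fin 1) ℝ, Admissible Θ →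
    ENNReal.ofReal ((3 : ℝ) ^ (1 / (2 : ℝ) ^ (n + 1))) ≤ G N₁ Nn Θ

end Pool.LE
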